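import Pool.Agent.Helper25.SqCl

/-!
# Fixed fields of involutions, norms
-/

namespace Pool.Agent.Helper25.Biq

open Module NumberField

variable {K : Type*} [Field K] [NumberField K]

/-- The fixed field of `σ`. -/
noncomputable abbrev fx (σ : K ≃ₐ[ℚ] K) : IntermediateField ℚ K :=
  IntermediateField.fixedField (Subgroup.zpowers σ)

lemma mem_fx {σ : K ≃ₐ[ℚ] K} {x : K} : x ∈ fx σ ↔ σ x = x := by
  rw [fx, IntermediateField.mem_fixedField_iff]
  constructor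
  · intro h
    exact h σ (Subgroup.mem_zpowers σ)
  · intro h f hf
    have h1 : σ ∈ MulAction.stabilizer (K ≃ₐ[ℚ] K) x := h
    have h2 : Subgroup.zpowers σ ≤ MulAction.stabilizer (K ≃ₐ[ℚ] K) x := by
      rw [Subgroup.zpowers_le]
      exact h1
    exact h2 hf

lemma apply_fx {σ : K ≃ₐ[ℚ] K} (x : fx σ) : σ (x : K) = x := mem_fx.1 x.2

/-- `σ` as an automorphism over its fixed field. -/
noncomputable def auto (σ : K ≃ₐ[ℚ] K) : K ≃ₐ[fx σ] K :=
  { σ.toRingEquiv with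
    commutes' := fun r => apply_fx r }

lemma auto_apply (σ : K ≃ₐ[ℚ] K) (x : K) : auto σ x = σ x := rfl

variable [IsGalois ℚ K]

lemma finrank_fx {σ : K ≃ₐ[ℚ] K} (h1 : σ ≠ 1) (h2 : σ * σ = 1) : finrank (fx σ) K = 2 := by
  rw [fx, IntermediateField.finrank_fixedField_eq_card, Nat.card_zpowers]
  exact orderOf_eq_prime (by rw [sq, h2]) h1

lemma norm_fx {σ : K ≃ₐ[ℚ] K} (h1 : σ ≠ 1) (h2 : σ * σ = 1) (x : K) :
    algebraMap (fx σ) K (Algebra.norm (fx σ) x) = x * σ x := by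
  classical
  rw [Algebra.norm_eq_prod_automorphisms]
  have hne : (1 : K ≃ₐ[fx σ] K) ≠ auto σ := by
    intro h
    apply h1
    ext y
    have := congrArg (fun f : K ≃ₐ[fx σ] K => f y) h
    simpa [auto_apply] using this.symm
  have hcard : Fintype.card (K ≃ₐ[fx σ] K) = 2 := by
    rw [← Nat.card_eq_fintype_card, IsGalois.card_aut_eq_finrank, finrank_fx h1 h2]
  have huniv : (Finset.univ : Finset (K ≃ₐ[fx σ] K)) = {1, auto σ} := by
    symm
    rw [← Finset.card_eq_iff_eq_univ, hcard, Finset.card_pair hne]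
  rw [huniv, Finset.prod_pair hne]
  rfl

/-- The classes in `Kˣ / Kˣ²` of the elements of the fixed field of `σ` that generate the square
of an ideal of this fixed field. -/
noncomputable def B (σ : K ≃ₐ[ℚ] K) : Submodule (ZMod 2) (SqCl K) :=
  (Sel (fx σ)).map (scMap (algebraMap (fx σ) K : fx σ →* K))

lemma norm_mem_B {σ : K ≃ₐ[ℚ] K} (h1 : σ ≠ 1) (h2 : σ * σ = 1) {a : 𝓞 K} {I : Ideal (𝓞 K)}
    (ha : a ≠ 0) (hI : I ^ 2 = Ideal.span {a}) :
    sc (algebraMap (𝓞 K) K a * σ (algebraMap (𝓞 K) K a)) ∈ B σ := by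
  set b : 𝓞 (fx σ) := Algebra.intNorm (𝓞 (fx σ)) (𝓞 K) a with hb
  have e1 : algebraMap (𝓞 (fx σ)) (fx σ) b = Algebra.norm (fx σ) (algebraMap (𝓞 K) K a) :=
    Algebra.algebraMap_intNorm (A := 𝓞 (fx σ)) (K := fx σ) (L := K) (B := 𝓞 K) a
  have hb0 : b ≠ 0 := by
    intro h0
    rw [h0, map_zero, eq_comm, Algebra.norm_eq_zero_iff] at e1
    exact alg_ne_zero ha e1
  refine ⟨sc (algebraMap (𝓞 (fx σ)) (fx σ) b), ⟨b, Ideal.relNorm (𝓞 (fx σ)) I, hb0, ?_, rfl⟩, ?_⟩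
  · rw [← map_pow, hI, Ideal.relNorm_singleton]
  · rw [scMap_sc _ (alg_ne_zero hb0), e1]
    congr 1
    exact norm_fx h1 h2 _

end Pool.Agent.Helper25.Biq
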