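import Mathlib
import Pool.Agent.Helper25.Quad

/-!
# Biquadratic fields: intersection of the three fixed fields modulo squares
-/

namespace Pool.Agent.Helper25.Biq

open Module NumberField
open scoped nonZeroDivisors

variable {K : Type*} [Field K] [NumberField K]

/-- `σ, τ, ρ` are the three nontrivial elements of a Galois group that is a Klein four group. -/
structure V4 (σ τ ρ : K ≃ₐ[ℚ] K) : Prop where
  s1 : σ ≠ 1
  t1 : τ ≠ 1
  r1 : ρ ≠ 1
  ss : σ * σ = 1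
  tt : τ * τ = 1
  rr : ρ * ρ = 1
  st : σ * τ = ρ
  ts : τ * σ = ρ
  all : ∀ g, g = 1 ∨ g = σ ∨ g = τ ∨ g = ρ

namespace V4

variable {σ τ ρ : K ≃ₐ[ℚ] K}

lemma rs (h : V4 σ τ ρ) : ρ * σ = τ := by rw [← h.ts, mul_assoc, h.ss, mul_one]
lemma sr (h : V4 σ τ ρ) : σ * ρ = τ := by rw [← h.st, ← mul_assoc, h.ss, one_mul]
lemma rt (h : V4 σ τ ρ) : ρ * τ = σ := by rw [← h.st, mul_assoc, h.tt, mul_one]
lemma tr (h : V4 σ τ ρ) : τ * ρ = σ := by rw [← h.ts, ← mul_assoc, h.tt, one_mul]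

lemma swap (h : V4 σ τ ρ) : V4 τ σ ρ where
  s1 := h.t1
  t1 := h.s1
  r1 := h.r1
  ss := h.tt
  tt := h.ss
  rr := h.rr
  st := h.ts
  ts := h.st
  all g := by rcases h.all g with h | h | h | h <;> simp [h]

lemma rot (h : V4 σ τ ρ) : V4 τ ρ σ where
  s1 := h.t1
  t1 := h.r1
  r1 := h.s1
  ss := h.tt
  tt := h.rr
  rr := h.ss
  st := h.tr
  ts := h.rt
  all g := by rcases h.all g with h | h | h | h <;> simp [h]

lemma ne_st (h : V4 σ τ ρ) : σ ≠ τ := by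
  rintro rfl
  exact h.r1 (h.st.symm.trans h.ss)

lemma hss (h : V4 σ τ ρ) (x : K) : σ (σ x) = x := by
  rw [← AlgEquiv.mul_apply, h.ss]; rfl
lemma hst (h : V4 σ τ ρ) (x : K) : σ (τ x) = ρ x := by
  rw [← AlgEquiv.mul_apply, h.st]
lemma hts (h : V4 σ τ ρ) (x : K) : τ (σ x) = ρ x := by
  rw [← AlgEquiv.mul_apply, h.ts]
lemma hrs (h : V4 σ τ ρ) (x : K) : ρ (σ x) = τ x := by
  rw [← AlgEquiv.mul_apply, h.rs]
lemma hsr (h : V4 σ τ ρ) (x : K) : σ (ρ x) = τ x := by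
  rw [← AlgEquiv.mul_apply, h.sr]

end V4

lemma exists_V4 [IsGalois ℚ K] [IsKleinFour (K ≃ₐ[ℚ] K)] : ∃ σ τ ρ : K ≃ₐ[ℚ] K, V4 σ τ ρ := by
  classical
  have h4 : Nat.card (K ≃ₐ[ℚ] K) = 4 := IsKleinFour.card_four
  have h4' : Fintype.card (K ≃ₐ[ℚ] K) = 4 := by rw [← Nat.card_eq_fintype_card, h4]
  obtain ⟨σ, hσ⟩ : ∃ σ : K ≃ₐ[ℚ] K, σ ∉ ({1} : Finset (K ≃ₐ[ℚ] K)) := by
    by_contra hcon
    push Not at hcon
    have := Finset.card_le_card (fun x _ => hcon x : (Finset.univ : Finset (K ≃ₐ[ℚ] K)) ⊆ {1})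
    rw [Finset.card_univ, h4'] at this
    simp at this
  obtain ⟨τ, hτ⟩ : ∃ τ : K ≃ₐ[ℚ] K, τ ∉ ({1, σ} : Finset (K ≃ₐ[ℚ] K)) := by
    by_contra hcon
    push Not at hcon
    have := Finset.card_le_card (fun x _ => hcon x : (Finset.univ : Finset (K ≃ₐ[ℚ] K)) ⊆ {1, σ})
    rw [Finset.card_univ, h4'] at this
    have h2 := Finset.card_insert_le (1 : K ≃ₐ[ℚ] K) {σ}
    simp at h2
    omega
  simp only [Finset.mem_singleton, Finset.mem_insert, not_or] at hσ hτ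
  have hms : ∀ g : K ≃ₐ[ℚ] K, g * g = 1 := fun g => IsKleinFour.mul_self g
  have hcomm : τ * σ = σ * τ := by
    have h1 : (σ * τ) * (σ * τ) = 1 := hms _
    have h2 : σ * τ = τ⁻¹ * σ⁻¹ := by
      rw [← mul_inv_rev, eq_inv_iff_mul_eq_one]; exact h1
    have h3 : τ⁻¹ = τ := by rw [inv_eq_iff_mul_eq_one]; exact hms τ
    have h4 : σ⁻¹ = σ := by rw [inv_eq_iff_mul_eq_one]; exact hms σ
    rw [h2, h3, h4]
  have hne : σ * τ ≠ 1 := by
    intro h
    apply hτ.2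
    have : σ * σ = σ * τ := by rw [hms, h]
    exact (mul_left_cancel this).symm
  refine ⟨σ, τ, σ * τ, hσ, hτ.1, hne, hms σ, hms τ, hms _, rfl, hcomm, ?_⟩
  intro g
  have hu := IsKleinFour.eq_finset_univ hσ hτ.1 (Ne.symm hτ.2)
  have hg := Finset.mem_univ g
  rw [← hu] at hg
  simp only [Finset.mem_insert, Finset.mem_singleton] at hg
  tauto

section hilbert

variable [IsGalois ℚ K] {σ τ ρ : K ≃ₐ[ℚ] K}

/-- An element fixed by everything is rational. -/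
lemma exists_rat (h : V4 σ τ ρ) {x : K} (h1 : σ x = x) (h2 : τ x = x) :
    ∃ r : ℚ, algebraMap ℚ K r = x := by
  have h3 : ∀ g : K ≃ₐ[ℚ] K, g x = x := by
    intro g
    rcases h.all g with rfl | rfl | rfl | rfl
    · rfl
    · exact h1
    · exact h2
    · rw [← h.hst, h2, h1]
  have := (IsGalois.mem_bot_iff_fixed (F := ℚ) (E := K) x).2 h3
  rw [IntermediateField.mem_bot] at this
  exact this

lemma card_four (h : V4 σ τ ρ) : Nat.card (K ≃ₐ[ℚ] K) = 4 := by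
  classical
  rw [Nat.card_eq_fintype_card]
  have huniv : (Finset.univ : Finset (K ≃ₐ[ℚ] K)) = {1, σ, τ, ρ} := by
    ext g
    simpa using h.all g
  rw [← Finset.card_univ, huniv]
  rw [Finset.card_insert_of_notMem, Finset.card_insert_of_notMem, Finset.card_pair h.rot.ne_st]
  · simp only [Finset.mem_insert, Finset.mem_singleton, not_or]
    exact ⟨h.ne_st, h.rot.rot.ne_st.symm⟩
  · simp only [Finset.mem_insert, Finset.mem_singleton, not_or]
    exact ⟨h.s1.symm, h.t1.symm, h.r1.symm⟩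

lemma finrank_four (h : V4 σ τ ρ) : finrank ℚ K = 4 := by
  rw [← IsGalois.card_aut_eq_finrank, card_four h]

/-- There is an element fixed by `σ` that is not fixed by `τ`. -/
lemma exists_fx_ne (h : V4 σ τ ρ) : ∃ y : K, σ y = y ∧ τ y ≠ y := by
  by_contra hcon
  push Not at hcon
  have h1 : fx σ ≤ ⊥ := by
    intro y hy
    rw [mem_fx] at hy
    obtain ⟨r, hr⟩ := exists_rat h hy (hcon y hy)
    exact IntermediateField.mem_bot.2 ⟨r, hr⟩
  have h2 : fx σ = ⊥ := le_bot_iff.1 h1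
  have h3 := finrank_fx h.s1 h.ss
  rw [h2, IntermediateField.finrank_bot', finrank_four h] at h3
  omega

/-- Hilbert 90 for an involution. -/
lemma hilbert90 (g : K ≃ₐ[ℚ] K) (hg : ∀ x, g (g x) = x) (S : Set K) (h1S : (1 : K) ∈ S)
    (hne : ∃ y ∈ S, g y ≠ y) (m : K) (hm0 : m ≠ 0) (hm : m * g m = 1) :
    ∃ y ∈ S, y + m * g y ≠ 0 ∧ y + m * g y = m * g (y + m * g y) := by
  have key : ∀ y, y + m * g y = m * g (y + m * g y) := by
    intro y
    rw [map_add, map_mul, hg]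
    linear_combination (-y) * hm
  by_cases h1 : (1 : K) + m * g 1 ≠ 0
  · exact ⟨1, h1S, h1, key 1⟩
  · push Not at h1
    obtain ⟨y, hy, hyne⟩ := hne
    rw [map_one, mul_one] at h1
    have h2 : m = -1 := by linear_combination h1
    refine ⟨y, hy, ?_, key y⟩
    rw [h2]
    intro h3
    apply hyne
    linear_combination -h3

lemma exists_ne (g : K ≃ₐ[ℚ] K) (hg : g ≠ 1) : ∃ y, g y ≠ y := by
  by_contra hcon
  push Not at hcon
  exact hg (AlgEquiv.ext hcon)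

/-- If `g b = m² b` ... the main computation: an element which is, up to squares, in all three
quadratic subfields is, up to squares, rational. -/
lemma rational_aux (h : V4 σ τ ρ) {b m1 m2 m3 : K} (hb : b ≠ 0) (hm1 : m1 ≠ 0) (hm2 : m2 ≠ 0)
    (hm3 : m3 ≠ 0) (e1 : σ b = m1 ^ 2 * b) (e2 : τ b = m2 ^ 2 * b) (e3 : ρ b = m3 ^ 2 * b)
    (f1 : m1 * σ m1 = 1) (f2 : m2 * τ m2 = 1) (f3 : m3 * ρ m3 = 1) :
    ∃ (r : ℚ) (c : K), r ≠ 0 ∧ c ≠ 0 ∧ algebraMap ℚ K r = b * c ^ 2 := by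
  -- `m1 σ(m2) = ± m3`
  have g1 : (m1 * σ m2) ^ 2 = m3 ^ 2 := by
    have h1 : σ (τ b) = ρ b := h.hst b
    rw [e2, map_mul, map_pow, e1, e3] at h1
    apply mul_right_cancel₀ hb
    linear_combination h1
  have g2 : (m1 * σ m2) * ρ (m1 * σ m2) = 1 := by
    rcases sq_eq_sq_iff_eq_or_eq_neg.1 g1 with h1 | h1
    · rw [h1, f3]
    · rw [h1, map_neg, neg_mul_neg, f3]
  have g3 : m1 * σ m2 = m2 * τ m1 := by
    have h1 : ρ (σ m2) = τ m2 := h.hrs m2
    have h2 : τ m1 * ρ m1 = 1 := by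
      have := congrArg τ f1
      rwa [map_mul, h.hts, map_one] at this
    rw [map_mul, h1] at g2
    -- `m1 σ(m2) ρ(m1) τ(m2) = 1`
    have h3 : τ m2 ≠ 0 := (map_ne_zero_iff _ τ.injective).2 hm2
    have h4 : ρ m1 ≠ 0 := (map_ne_zero_iff _ ρ.injective).2 hm1
    apply mul_right_cancel₀ (mul_ne_zero h4 h3)
    linear_combination g2 - (m2 * τ m2) * h2 - f2
  -- first step
  obtain ⟨y, -, hc0, hc⟩ := hilbert90 σ h.hss Set.univ trivial
    (by obtain ⟨y, hy⟩ := exists_ne σ h.s1; exact ⟨y, trivial, hy⟩) m1 hm1 f1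
  set c := y + m1 * σ y with hcdef
  have hσc : σ c ≠ 0 := (map_ne_zero_iff _ σ.injective).2 hc0
  have hτc : τ c ≠ 0 := (map_ne_zero_iff _ τ.injective).2 hc0
  set b' := b * c ^ 2 with hb'
  have hb'0 : b' ≠ 0 := mul_ne_zero hb (pow_ne_zero 2 hc0)
  have hσb' : σ b' = b' := by
    rw [hb', map_mul, map_pow, e1]
    nth_rewrite 2 [hc]
    ring
  set m := m2 * τ c / c with hm
  have hm0 : m ≠ 0 := div_ne_zero (mul_ne_zero hm2 hτc) hc0
  have hτb' : τ b' = m ^ 2 * b' := by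
    rw [hb', map_mul, map_pow, e2, hm]
    field_simp
  have hmτ : m * τ m = 1 := by
    rw [hm, map_div₀, map_mul, h.swap.hss]
    field_simp
    linear_combination f2
  have hσm : σ m = m := by
    rw [hm, map_div₀, map_mul, h.hst]
    have h1 : ρ c * τ m1 = τ c := by
      have := congrArg τ hc
      rw [map_mul, h.hts] at this
      rw [this]; ring
    rw [div_eq_div_iff hσc hc0]
    have h2 : c = m1 * σ c := hc
    have hτm1 : τ m1 ≠ 0 := (map_ne_zero_iff _ τ.injective).2 hm1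
    apply mul_right_cancel₀ hτm1
    calc σ m2 * ρ c * c * τ m1 = σ m2 * (ρ c * τ m1) * c := by ring
      _ = σ m2 * τ c * (m1 * σ c) := by rw [h1, ← h2]
      _ = (m1 * σ m2) * τ c * σ c := by ring
      _ = m2 * τ c * σ c * τ m1 := by rw [g3]; ring
  -- second step
  obtain ⟨y', hy', hd0, hd⟩ := hilbert90 τ h.swap.hss {x | σ x = x} (by simp)
    (exists_fx_ne h) m hm0 hmτ
  set d := y' + m * τ y' with hddef
  have hσd : σ d = d := by
    have h1 : σ y' = y' := hy'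
    rw [hddef, map_add, map_mul, hσm, h1, h.hst, ← h.hts, h1]
  have hb'' : τ (b' * d ^ 2) = b' * d ^ 2 := by
    rw [map_mul, map_pow, hτb']
    nth_rewrite 2 [hd]
    ring
  have hb''σ : σ (b' * d ^ 2) = b' * d ^ 2 := by
    rw [map_mul, map_pow, hσb', hσd]
  obtain ⟨r, hr⟩ := exists_rat h hb''σ hb''
  refine ⟨r, c * d, ?_, mul_ne_zero hc0 hd0, ?_⟩
  · rintro rfl
    rw [map_zero] at hr
    exact mul_ne_zero hb'0 (pow_ne_zero 2 hd0) hr.symm
  · rw [hr, hb']; ring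

lemma exists_m {g : K ≃ₐ[ℚ] K} (hg : ∀ x, g (g x) = x) {s : SqCl K} (hs : s ∈ B g) {b : K}
    (hb : b ≠ 0) (hbs : sc b = s) : ∃ m : K, m ≠ 0 ∧ g b = m ^ 2 * b ∧ m * g m = 1 := by
  obtain ⟨t, -, ht⟩ := hs
  obtain ⟨γ, hγ, rfl⟩ := sc_surj t
  rw [scMap_sc _ hγ] at ht
  have hγ' : algebraMap (fx g) K γ ≠ 0 := (map_ne_zero_iff _ (algebraMap (fx g) K).injective).2 hγ
  rw [← hbs] at ht
  obtain ⟨κ, hκ, hbκ⟩ := (sc_eq_iff hb hγ').1 ht.symm
  have hgκ : g κ ≠ 0 := (map_ne_zero_iff _ g.injective).2 hκ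
  have hfix : g (algebraMap (fx g) K γ) = algebraMap (fx g) K γ := apply_fx γ
  refine ⟨g κ / κ, div_ne_zero hgκ hκ, ?_, ?_⟩
  · rw [hbκ, map_mul, map_pow, hfix]
    field_simp
  · rw [map_div₀, hg]
    field_simp

/-- The intersection of the three subspaces consists of rational classes. -/
lemma rational (h : V4 σ τ ρ) {s : SqCl K} (h1 : s ∈ B σ) (h2 : s ∈ B τ) (h3 : s ∈ B ρ) :
    ∃ r : ℚ, r ≠ 0 ∧ s = sc (algebraMap ℚ K r) := by
  obtain ⟨b, hb, rfl⟩ := sc_surj s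
  obtain ⟨m1, hm1, e1, f1⟩ := exists_m h.hss h1 hb rfl
  obtain ⟨m2, hm2, e2, f2⟩ := exists_m h.swap.hss h2 hb rfl
  obtain ⟨m3, hm3, e3, f3⟩ := exists_m h.rot.rot.hss h3 hb rfl
  obtain ⟨r, c, hr, hc, hrc⟩ := rational_aux h hb hm1 hm2 hm3 e1 e2 e3 f1 f2 f3
  refine ⟨r, hr, ?_⟩
  rw [hrc, sc_mul hb (pow_ne_zero 2 hc), sc_sq, add_zero]

end hilbert

end Pool.Agent.Helper25.Biq
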