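import Mathlib

/-!
# A dimension count for an intersection of images in a quotient
-/

namespace Pool.Agent.Helper25.Kron

open Module LinearMap

variable {k S : Type*} [Field k] [AddCommGroup S] [Module k S]

/-- `finrank` of an image, for a finite dimensional subspace. -/
lemma finrank_map_add' {V' : Type*} [AddCommGroup V'] [Module k V']
    (f : S →ₗ[k] V') (P : Submodule k S) [FiniteDimensional k P] :
    finrank k (P.map f) + finrank k (P ⊓ ker f : Submodule k S) = finrank k P := by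
  have h := LinearMap.finrank_range_add_finrank_ker (f.domRestrict P)
  rw [LinearMap.range_domRestrict] at h
  rw [← h, add_right_inj, LinearMap.ker_domRestrict]
  have h2 := Submodule.map_comap_subtype P (ker f)
  rw [← h2]
  exact Submodule.finrank_map_subtype_eq P (Submodule.comap P.subtype (ker f))

lemma finrank_submodule_prod {V₁ V₂ : Type*} [AddCommGroup V₁] [Module k V₁] [AddCommGroup V₂]
    [Module k V₂] (p : Submodule k V₁) (q : Submodule k V₂) :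
    finrank k (p.prod q) = finrank k (p × q) := by
  have h1 : p.prod q = range (p.subtype.prodMap q.subtype) := by
    ext x
    constructor
    · rintro ⟨h1, h2⟩
      exact ⟨(⟨x.1, h1⟩, ⟨x.2, h2⟩), rfl⟩
    · rintro ⟨⟨a, b⟩, rfl⟩
      exact ⟨a.2, b.2⟩
  rw [h1]
  apply LinearMap.finrank_range_of_inj
  rintro ⟨a, b⟩ ⟨c, d⟩ h
  simp only [LinearMap.prodMap_apply, Submodule.subtype_apply, Prod.mk.injEq,
    SetLike.coe_eq_coe] at h
  exact Prod.ext h.1 h.2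

/-- The dimension count. -/
lemma count (E B₁ B₂ B₃ : Submodule k S) [FiniteDimensional k E]
    [FiniteDimensional k (B₁ ⊓ B₂ ⊓ B₃ : Submodule k S)] :
    FiniteDimensional k (B₁.map E.mkQ ⊓ B₂.map E.mkQ ⊓ B₃.map E.mkQ : Submodule k (S ⧸ E)) ∧
    finrank k (B₁.map E.mkQ ⊓ B₂.map E.mkQ ⊓ B₃.map E.mkQ : Submodule k (S ⧸ E)) +
      finrank k (E ⊓ B₁ : Submodule k S) + finrank k (E ⊓ B₂ : Submodule k S) +
      finrank k (E ⊓ B₃ : Submodule k S) ≤
    finrank k (B₁ ⊓ B₂ ⊓ B₃ : Submodule k S) + finrank k (E ⊓ (B₁ ⊔ B₂) : Submodule k S) +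
      finrank k (E ⊓ (B₁ ⊔ B₃) : Submodule k S) := by
  set C : Submodule k S := B₁ ⊓ (B₂ ⊔ E) ⊓ (B₃ ⊔ E) with hC
  have fd12 : FiniteDimensional k (E ⊓ (B₁ ⊔ B₂) : Submodule k S) :=
    Submodule.finiteDimensional_of_le inf_le_left
  have fd13 : FiniteDimensional k (E ⊓ (B₁ ⊔ B₃) : Submodule k S) :=
    Submodule.finiteDimensional_of_le inf_le_left
  let f : S →ₗ[k] (S ⧸ B₂) × (S ⧸ B₃) := B₂.mkQ.prod B₃.mkQ
  have hker : C ⊓ ker f = B₁ ⊓ B₂ ⊓ B₃ := by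
    rw [LinearMap.ker_prod, Submodule.ker_mkQ, Submodule.ker_mkQ, hC]
    apply le_antisymm
    · rintro x ⟨⟨⟨h1, -⟩, -⟩, h2, h3⟩
      exact ⟨⟨h1, h2⟩, h3⟩
    · rintro x ⟨⟨h1, h2⟩, h3⟩
      exact ⟨⟨⟨h1, Submodule.mem_sup_left h2⟩, Submodule.mem_sup_left h3⟩, h2, h3⟩
  set D : Submodule k ((S ⧸ B₂) × (S ⧸ B₃)) :=
    ((E ⊓ (B₁ ⊔ B₂) : Submodule k S).map B₂.mkQ).prod
      ((E ⊓ (B₁ ⊔ B₃) : Submodule k S).map B₃.mkQ) with hD
  have hmap : C.map f ≤ D := by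
    rintro _ ⟨c, ⟨⟨h1, h2⟩, h3⟩, rfl⟩
    obtain ⟨b2, hb2, e2, he2, h2⟩ := Submodule.mem_sup.1 h2
    obtain ⟨b3, hb3, e3, he3, h3⟩ := Submodule.mem_sup.1 h3
    refine ⟨⟨e2, ⟨he2, ?_⟩, ?_⟩, ⟨e3, ⟨he3, ?_⟩, ?_⟩⟩
    · have : e2 = c - b2 := by rw [← h2]; abel
      rw [this]
      exact Submodule.sub_mem _ (Submodule.mem_sup_left h1) (Submodule.mem_sup_right hb2)
    · show B₂.mkQ e2 = B₂.mkQ c
      rw [← h2, map_add, (Submodule.Quotient.mk_eq_zero B₂).2 hb2 |> (fun h => (h : B₂.mkQ b2 = 0)),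
        zero_add]
    · have : e3 = c - b3 := by rw [← h3]; abel
      rw [this]
      exact Submodule.sub_mem _ (Submodule.mem_sup_left h1) (Submodule.mem_sup_right hb3)
    · show B₃.mkQ e3 = B₃.mkQ c
      rw [← h3, map_add, (Submodule.Quotient.mk_eq_zero B₃).2 hb3 |> (fun h => (h : B₃.mkQ b3 = 0)),
        zero_add]
  have fdD : FiniteDimensional k D := by
    rw [hD]
    exact Module.Finite.iff_fg.2 (Submodule.FG.prod
      (Module.Finite.iff_fg.1 inferInstance) (Module.Finite.iff_fg.1 inferInstance))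
  have fdCf : FiniteDimensional k (C.map f) := Submodule.finiteDimensional_of_le hmap
  have fdC : FiniteDimensional k C := by
    apply Module.Finite.iff_fg.2
    apply Submodule.fg_of_fg_map_of_fg_inf_ker f
    · exact Module.Finite.iff_fg.1 fdCf
    · rw [hker]
      exact Module.Finite.iff_fg.1 inferInstance
  have hrD : finrank k D = finrank k ((E ⊓ (B₁ ⊔ B₂) : Submodule k S).map B₂.mkQ) +
      finrank k ((E ⊓ (B₁ ⊔ B₃) : Submodule k S).map B₃.mkQ) := by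
    rw [hD]
    rw [← Module.finrank_prod]
    exact finrank_submodule_prod _ _
  have e12 := finrank_map_add' B₂.mkQ (E ⊓ (B₁ ⊔ B₂) : Submodule k S)
  have e13 := finrank_map_add' B₃.mkQ (E ⊓ (B₁ ⊔ B₃) : Submodule k S)
  rw [Submodule.ker_mkQ] at e12 e13
  have i12 : E ⊓ (B₁ ⊔ B₂) ⊓ B₂ = E ⊓ B₂ := by
    rw [inf_assoc, inf_eq_right.2 (le_sup_right : B₂ ≤ B₁ ⊔ B₂)]
  have i13 : E ⊓ (B₁ ⊔ B₃) ⊓ B₃ = E ⊓ B₃ := by
    rw [inf_assoc, inf_eq_right.2 (le_sup_right : B₃ ≤ B₁ ⊔ B₃)]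
  rw [i12] at e12
  rw [i13] at e13
  have eC := finrank_map_add' f C
  rw [hker] at eC
  have hle := Submodule.finrank_mono hmap
  have eC2 := finrank_map_add' E.mkQ C
  rw [Submodule.ker_mkQ] at eC2
  have iC : C ⊓ E = E ⊓ B₁ := by
    rw [hC]
    apply le_antisymm
    · rintro x ⟨⟨⟨h1, -⟩, -⟩, h2⟩
      exact ⟨h2, h1⟩
    · rintro x ⟨h1, h2⟩
      exact ⟨⟨⟨h2, Submodule.mem_sup_right h1⟩, Submodule.mem_sup_right h1⟩, h1⟩
  rw [iC] at eC2
  have hfin : B₁.map E.mkQ ⊓ B₂.map E.mkQ ⊓ B₃.map E.mkQ ≤ C.map E.mkQ := by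
    rintro _ ⟨⟨⟨b1, hb1, rfl⟩, ⟨b2, hb2, h2⟩⟩, ⟨b3, hb3, h3⟩⟩
    refine ⟨b1, ⟨⟨hb1, ?_⟩, ?_⟩, rfl⟩
    · have : b1 - b2 ∈ E := by
        rw [← Submodule.ker_mkQ E, LinearMap.mem_ker, map_sub, h2, sub_self]
      rw [show b1 = b2 + (b1 - b2) by abel]
      exact Submodule.add_mem _ (Submodule.mem_sup_left hb2) (Submodule.mem_sup_right this)
    · have : b1 - b3 ∈ E := by
        rw [← Submodule.ker_mkQ E, LinearMap.mem_ker, map_sub, h3, sub_self]
      rw [show b1 = b3 + (b1 - b3) by abel]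
      exact Submodule.add_mem _ (Submodule.mem_sup_left hb3) (Submodule.mem_sup_right this)
  refine ⟨Submodule.finiteDimensional_of_le hfin, ?_⟩
  have hle2 := Submodule.finrank_mono hfin
  omega

end Pool.Agent.Helper25.Kron
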