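import Pool.Agent.Helper25.Ram
import Pool.Agent.Helper25.LinL

/-!
# The dimension of the intersection of the three subspaces
-/

namespace Pool.Agent.Helper25.Biq

open Module NumberField
open scoped nonZeroDivisors

variable {K : Type*} [Field K] [NumberField K] {σ τ ρ : K ≃ₐ[ℚ] K}

/-- The rational square classes that become classes of squares of ideals in the fixed field. -/
noncomputable def D (g : K ≃ₐ[ℚ] K) : Submodule (ZMod 2) (SqCl ℚ) :=
  (Sel (fx g)).comap (scMap (algebraMap ℚ (fx g) : ℚ →* fx g))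

lemma sc_neg_one_mem {k : Type*} [Field k] [NumberField k] : sc (-1 : k) ∈ UCl k :=
  ⟨-1, by simp⟩

lemma exists_theta [IsGalois ℚ K] (h : V4 σ τ ρ) : ∃ (x : K) (d : ℚ), d ≠ 0 ∧
    x ^ 2 = algebraMap ℚ K d ∧ σ x = x ∧ τ x = -x ∧ x ≠ 0 := by
  obtain ⟨y, hy, hne⟩ := exists_fx_ne h
  have h1 : σ (y - τ y) = y - τ y := by rw [map_sub, h.hst, ← h.hts, hy]
  have h2 : τ (y - τ y) = -(y - τ y) := by rw [map_sub, h.swap.hss]; ring
  have h0 : y - τ y ≠ 0 := sub_ne_zero.2 (Ne.symm hne)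
  obtain ⟨d, hd⟩ := exists_rat h (x := (y - τ y) ^ 2) (by rw [map_pow, h1])
    (by rw [map_pow, h2, neg_sq])
  refine ⟨y - τ y, d, ?_, hd.symm, h1, h2, h0⟩
  rintro rfl
  rw [map_zero] at hd
  exact pow_ne_zero 2 h0 hd.symm

lemma D_prime {k : Type*} [Field k] [NumberField k] {ε : ℚ} (hε : ε = 1 ∨ ε = -1) {a p : ℕ}
    (ha : Squarefree a) (hpa : p ∣ a)
    (h : scMap (algebraMap ℚ k : ℚ →* k) (sc (ε * a)) ∈ Sel k) :
    ∃ b : Ideal (𝓞 k), b ^ 2 = Ideal.span {(p : 𝓞 k)} := by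
  have ha0 : a ≠ 0 := ha.ne_zero
  have hε0 : ε ≠ 0 := by rcases hε with rfl | rfl <;> norm_num
  have haq : (a : ℚ) ≠ 0 := by exact_mod_cast ha0
  have hak : (a : 𝓞 k) ≠ 0 := by exact_mod_cast ha0
  have h1 : sc (algebraMap ℚ k ε) ∈ Sel k := by
    apply UCl_le_Sel
    rcases hε with rfl | rfl
    · rw [map_one, sc_one]; exact Submodule.zero_mem _
    · rw [map_neg, map_one]; exact sc_neg_one_mem
  have h2 : sc (algebraMap (𝓞 k) k (a : 𝓞 k)) ∈ Sel k := by
    rw [sc_mul hε0 haq, map_add, scMap_sc _ hε0, scMap_sc _ haq] at h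
    have h3 := Submodule.sub_mem _ h h1
    have h4 : ∀ z w : SqCl k, z + w - z = w := fun z w => by abel
    erw [h4] at h3
    rw [map_natCast]
    simpa using h3
  obtain ⟨J, hJ⟩ := exists_sq_ideal hak h2
  exact exists_sq_ideal_prime ha hpa hJ

variable [IsGalois ℚ K]

lemma D_inf (h : V4 σ τ ρ) : D σ ⊓ D τ ⊓ D ρ ≤ Submodule.span (ZMod 2) {sc (-1), sc 2} := by
  rintro s ⟨⟨h1, h2⟩, h3⟩
  obtain ⟨q, hq, rfl⟩ := sc_surj s
  -- represent by a squarefree number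
  obtain ⟨ε, a, hε, ha, hs⟩ : ∃ (ε : ℚ) (a : ℕ), (ε = 1 ∨ ε = -1) ∧ Squarefree a ∧
      sc q = sc (ε * a) := by
    obtain ⟨a, b, hab, ha⟩ := Nat.sq_mul_squarefree (q.num * q.den).natAbs
    have hN0 : q.num * q.den ≠ 0 := mul_ne_zero (Rat.num_ne_zero.2 hq)
      (by exact_mod_cast q.den_nz)
    have hb0 : b ≠ 0 := by
      rintro rfl
      have : (q.num * q.den).natAbs = 0 := by rw [← hab]; simp
      exact hN0 (Int.natAbs_eq_zero.1 this)
    have hb0' : (b : ℚ) ≠ 0 := by exact_mod_cast hb0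
    have hden : (q.den : ℚ) ≠ 0 := by exact_mod_cast q.den_nz
    have hqd : q * (q.den : ℚ) ^ 2 = ((q.num * q.den : ℤ) : ℚ) := by
      have h1 : q * q.den = q.num := Rat.mul_den_eq_num q
      push_cast
      rw [← h1]; ring
    have hab' : ((q.num * q.den).natAbs : ℚ) = (b : ℚ) ^ 2 * a := by exact_mod_cast hab.symm
    rcases Int.natAbs_eq (q.num * q.den) with h5 | h5
    · refine ⟨1, a, Or.inl rfl, ha, ?_⟩
      rw [sc_eq_iff hq (by
        simpa using ha.ne_zero)]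
      refine ⟨b / q.den, div_ne_zero hb0' hden, ?_⟩
      rw [h5, Int.cast_natCast, hab'] at hqd
      field_simp
      linear_combination hqd
    · refine ⟨-1, a, Or.inr rfl, ha, ?_⟩
      rw [sc_eq_iff hq (by
        simpa using ha.ne_zero)]
      refine ⟨b / q.den, div_ne_zero hb0' hden, ?_⟩
      rw [h5, Int.cast_neg, Int.cast_natCast, hab'] at hqd
      field_simp
      linear_combination hqd
  rw [hs] at h1 h2 h3 ⊢
  have hε0 : ε ≠ 0 := by rcases hε with rfl | rfl <;> norm_num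
  have ha0 : (a : ℚ) ≠ 0 := by exact_mod_cast ha.ne_zero
  have hnodd : ∀ p : ℕ, p.Prime → p ∣ a → p = 2 := by
    intro p hp hpa
    by_contra hp2
    obtain ⟨b1, hb1⟩ := D_prime (k := fx σ) hε ha hpa h1
    obtain ⟨b2, hb2⟩ := D_prime (k := fx τ) hε ha hpa h2
    obtain ⟨b3, hb3⟩ := D_prime (k := fx ρ) hε ha hpa h3
    obtain ⟨x, d, hd, hx, hσx, hτx, -⟩ := exists_theta h
    obtain ⟨y, e, he, hy, hτy, hσy, -⟩ := exists_theta h.swap
    have o1 := odd_padicValRat h hp hp2 hb1 hd hx hσx hτx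
    have o2 := odd_padicValRat h.swap hp hp2 hb2 he hy hτy hσy
    have hρx : ρ x = -x := by rw [← h.hst, hτx, map_neg, hσx]
    have hρy : ρ y = -y := by rw [← h.hst, hτy, hσy]
    have o3 := odd_padicValRat h.rot.rot hp hp2 hb3 (mul_ne_zero hd he) (x := x * y)
      (by rw [mul_pow, hx, hy, map_mul]) (by rw [map_mul, hρx, hρy, neg_mul_neg])
      (by rw [map_mul, hσx, hσy, mul_neg])
    have := Fact.mk hp
    rw [padicValRat.mul hd he] at o3
    exact (Int.not_odd_iff_even.2 (o1.add_odd o2)) o3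
  have ha2 : a = 1 ∨ a = 2 := by
    rcases Nat.eq_two_pow_or_exists_odd_prime_and_dvd a with ⟨n, hn⟩ | ⟨p, hp, hpa, hodd⟩
    · have hn1 : n ≤ 1 := by
        by_contra hn1
        have h4 : 2 * 2 ∣ a := by
          rw [hn]
          exact ⟨2 ^ (n - 2), by rw [show 2 * 2 = 2 ^ 2 by norm_num, ← pow_add]; congr 1; omega⟩
        have := ha 2 h4
        norm_num at this
      interval_cases n
      · left; simpa using hn
      · right; simpa using hn
    · exfalso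
      have := hnodd p hp hpa
      subst this
      exact (by decide : ¬ Odd 2) hodd
  have m1 : sc (-1 : ℚ) ∈ Submodule.span (ZMod 2) {sc (-1 : ℚ), sc 2} :=
    Submodule.subset_span (by simp)
  have m2 : sc (2 : ℚ) ∈ Submodule.span (ZMod 2) {sc (-1 : ℚ), sc 2} :=
    Submodule.subset_span (by simp)
  rw [sc_mul hε0 ha0]
  refine Submodule.add_mem _ ?_ ?_
  · rcases hε with rfl | rfl
    · rw [sc_one]; exact Submodule.zero_mem _
    · exact m1
  · rcases ha2 with rfl | rfl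
    · rw [Nat.cast_one, sc_one]; exact Submodule.zero_mem _
    · exact_mod_cast m2

omit [IsGalois ℚ K] in
/-- A rational class in `B σ` is, up to the class of `e = y²`, `y` negated by `σ`, in `D σ`. -/
lemma mem_D_or {e : ℚ} {y : K} (he : e ≠ 0) (hy : y ^ 2 = algebraMap ℚ K e)
    (hσy : σ y = -y) (hy0 : y ≠ 0) {s : SqCl ℚ}
    (hs : scMap (algebraMap ℚ K : ℚ →* K) s ∈ B σ) : s ∈ D σ ∨ s + sc e ∈ D σ := by
  obtain ⟨q, hq, rfl⟩ := sc_surj s
  obtain ⟨t, ht, hst⟩ := hs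
  obtain ⟨γ, hγ, rfl⟩ := sc_surj t
  have hqK : algebraMap ℚ K q ≠ 0 := (map_ne_zero_iff _ (algebraMap ℚ K).injective).2 hq
  have hγK : algebraMap (fx σ) K γ ≠ 0 := (map_ne_zero_iff _ (algebraMap (fx σ) K).injective).2 hγ
  rw [scMap_sc _ hγ, scMap_sc _ hq] at hst
  obtain ⟨κ, hκ, hqκ⟩ := (sc_eq_iff hqK hγK).1 hst.symm
  have hqκ' : algebraMap ℚ K q = algebraMap (fx σ) K γ * κ ^ 2 := hqκ
  have h1 : (σ κ) ^ 2 = κ ^ 2 := by
    have h2 := congrArg σ hqκ'
    rw [AlgEquiv.commutes, map_mul, map_pow, hqκ'] at h2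
    have h3 : σ (algebraMap (fx σ) K γ) = algebraMap (fx σ) K γ := apply_fx γ
    rw [h3] at h2
    exact (mul_left_cancel₀ hγK h2).symm
  have halg : ∀ q : ℚ, algebraMap (fx σ) K (algebraMap ℚ (fx σ) q) = algebraMap ℚ K q :=
    fun q => rfl
  rcases sq_eq_sq_iff_eq_or_eq_neg.1 h1 with h2 | h2
  · left
    show scMap (algebraMap ℚ (fx σ) : ℚ →* fx σ) (sc q) ∈ Sel (fx σ)
    rw [scMap_sc _ hq]
    have h3 : sc (algebraMap ℚ (fx σ) q) = sc γ := by
      rw [sc_eq_iff ((map_ne_zero_iff _ (algebraMap ℚ (fx σ)).injective).2 hq) hγ]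
      refine ⟨⟨κ, mem_fx.2 h2⟩, ?_, ?_⟩
      · intro h4
        exact hκ (congrArg (algebraMap (fx σ) K) h4)
      · apply (algebraMap (fx σ) K).injective
        rw [halg, hqκ', map_mul, map_pow]
        rfl
    exact h3 ▸ ht
  · right
    show scMap (algebraMap ℚ (fx σ) : ℚ →* fx σ) (sc q + sc e) ∈ Sel (fx σ)
    rw [← sc_mul hq he, scMap_sc _ (mul_ne_zero hq he)]
    have h3 : sc (algebraMap ℚ (fx σ) (q * e)) = sc γ := by
      rw [sc_eq_iff ((map_ne_zero_iff _ (algebraMap ℚ (fx σ)).injective).2 (mul_ne_zero hq he)) hγ]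
      refine ⟨⟨κ * y, mem_fx.2 (by rw [map_mul, h2, hσy]; ring)⟩, ?_, ?_⟩
      · intro h4
        exact mul_ne_zero hκ hy0 (congrArg (algebraMap (fx σ) K) h4)
      · apply (algebraMap (fx σ) K).injective
        rw [halg, map_mul, hqκ', map_mul, map_pow, ← hy]
        have : algebraMap (fx σ) K ⟨κ * y, mem_fx.2 (by rw [map_mul, h2, hσy]; ring)⟩ = κ * y := rfl
        rw [this]; ring
    exact h3 ▸ ht

lemma finrank_span_pair_le {S : Type*} [AddCommGroup S] [Module (ZMod 2) S] (u v : S) :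
    finrank (ZMod 2) (Submodule.span (ZMod 2) {u, v}) ≤ 2 := by
  classical
  have := finrank_span_finset_le_card (R := ZMod 2) ({u, v} : Finset S)
  rw [Finset.coe_insert, Finset.coe_singleton] at this
  exact this.trans Finset.card_le_two

lemma finrank_span_single_le {S : Type*} [AddCommGroup S] [Module (ZMod 2) S] (u : S) :
    finrank (ZMod 2) (Submodule.span (ZMod 2) {u}) ≤ 1 := by
  classical
  have := finrank_span_finset_le_card (R := ZMod 2) ({u} : Finset S)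
  rw [Finset.coe_singleton] at this
  exact this.trans (by simp)

lemma codim_one {S : Type*} [AddCommGroup S] [Module (ZMod 2) S] (P D : Submodule (ZMod 2) S)
    (v : S) (h : ∀ s ∈ P, s ∈ D ∨ s + v ∈ D) [hfd : FiniteDimensional (ZMod 2) (P ⊓ D : Submodule _ S)] :
    FiniteDimensional (ZMod 2) P ∧
    finrank (ZMod 2) P ≤ finrank (ZMod 2) (P ⊓ D : Submodule _ S) + 1 := by
  have h1 : P.map D.mkQ ≤ Submodule.span (ZMod 2) {D.mkQ v} := by
    rintro _ ⟨s, hs, rfl⟩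
    rcases h s hs with h2 | h2
    · have : D.mkQ s = 0 := (Submodule.Quotient.mk_eq_zero D).2 h2
      rw [this]; exact Submodule.zero_mem _
    · have h3 : D.mkQ (s + v) = 0 := (Submodule.Quotient.mk_eq_zero D).2 h2
      have h4 : D.mkQ s = - D.mkQ v := by
        rw [map_add] at h3
        exact eq_neg_of_add_eq_zero_left h3
      rw [h4]
      exact Submodule.neg_mem _ (Submodule.mem_span_singleton_self _)
  have fd1 : FiniteDimensional (ZMod 2) (P.map D.mkQ) := Submodule.finiteDimensional_of_le h1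
  have fdP : FiniteDimensional (ZMod 2) P := by
    apply Module.Finite.iff_fg.2
    apply Submodule.fg_of_fg_map_of_fg_inf_ker D.mkQ
    · exact Module.Finite.iff_fg.1 fd1
    · rw [Submodule.ker_mkQ]
      exact Module.Finite.iff_fg.1 hfd
  refine ⟨fdP, ?_⟩
  have h2 := Kron.finrank_map_add' D.mkQ P
  rw [Submodule.ker_mkQ] at h2
  have h3 := Submodule.finrank_mono h1
  have h4 := finrank_span_single_le (D.mkQ v)
  omega

lemma two_le_finrank {S : Type*} [AddCommGroup S] [Module (ZMod 2) S]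
    (P : Submodule (ZMod 2) S) [FiniteDimensional (ZMod 2) P] {u v : S} (hu : u ∈ P) (hv : v ∈ P)
    (hu0 : u ≠ 0) (hv0 : v ≠ 0) (huv : u ≠ v) : 2 ≤ finrank (ZMod 2) P := by
  by_contra hlt
  push Not at hlt
  have : Finite P := Module.finite_of_finite (ZMod 2)
  have h1 : Nat.card P = 2 ^ finrank (ZMod 2) P := by
    rw [Module.natCard_eq_pow_finrank (K := ZMod 2) (V := P), Nat.card_zmod]
  have h2 : Nat.card P ≤ 2 := by
    rw [h1]
    calc 2 ^ finrank (ZMod 2) P ≤ 2 ^ 1 := Nat.pow_le_pow_right (by norm_num) (by omega)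
      _ = 2 := by norm_num
  have h3 : Nat.card ({⟨0, P.zero_mem⟩, ⟨u, hu⟩, ⟨v, hv⟩} : Set P) = 3 := by
    rw [Nat.card_coe_set_eq, Set.ncard_eq_three]
    refine ⟨_, _, _, ?_, ?_, ?_, rfl⟩
    · intro h; exact hu0 (congrArg Subtype.val h).symm
    · intro h; exact hv0 (congrArg Subtype.val h).symm
    · intro h; exact huv (congrArg Subtype.val h)
  have h4 := Nat.card_le_card_of_injective (fun x : ({⟨0, P.zero_mem⟩, ⟨u, hu⟩, ⟨v, hv⟩} : Set P) =>
    (x : P)) Subtype.val_injective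
  omega

lemma B_inf_le_range (h : V4 σ τ ρ) : B σ ⊓ B τ ⊓ B ρ ≤
    LinearMap.range (scMap (algebraMap ℚ K : ℚ →* K)) := by
  rintro s ⟨⟨h1, h2⟩, h3⟩
  obtain ⟨r, hr, rfl⟩ := rational h h1 h2 h3
  exact ⟨sc r, scMap_sc _ hr⟩

/-- The rational classes that are in all three subspaces. -/
noncomputable def Rq (σ τ ρ : K ≃ₐ[ℚ] K) : Submodule (ZMod 2) (SqCl ℚ) :=
  (B σ ⊓ B τ ⊓ B ρ).comap (scMap (algebraMap ℚ K : ℚ →* K))

/-- The kernel of the restriction has dimension at least two. -/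
lemma finrank_B_inf_of_Rq (h : V4 σ τ ρ) {n : ℕ} [fd3 : FiniteDimensional (ZMod 2) (Rq σ τ ρ)]
    (hn : finrank (ZMod 2) (Rq σ τ ρ) ≤ n + 2) :
    FiniteDimensional (ZMod 2) (B σ ⊓ B τ ⊓ B ρ : Submodule (ZMod 2) (SqCl K)) ∧
    finrank (ZMod 2) (B σ ⊓ B τ ⊓ B ρ : Submodule (ZMod 2) (SqCl K)) ≤ n := by
  obtain ⟨x, d, hd, hx, hσx, hτx, hx0⟩ := exists_theta h
  obtain ⟨y, e, he, hy, hτy, hσy, hy0⟩ := exists_theta h.swap
  have hd0 : sc d ≠ 0 := by
    intro h0
    obtain ⟨c, hc⟩ := (sc_eq_zero hd).1 h0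
    have h1 : x ^ 2 = (algebraMap ℚ K c) ^ 2 := by rw [hx, hc, map_pow]
    have h2 : τ x = x := by
      rcases sq_eq_sq_iff_eq_or_eq_neg.1 h1 with h2 | h2
      · rw [h2, AlgEquiv.commutes]
      · rw [h2, map_neg, AlgEquiv.commutes]
    rw [hτx] at h2
    exact hx0 (by linear_combination (-1 / 2 : K) * h2)
  have he0 : sc e ≠ 0 := by
    intro h0
    obtain ⟨c, hc⟩ := (sc_eq_zero he).1 h0
    have h1 : y ^ 2 = (algebraMap ℚ K c) ^ 2 := by rw [hy, hc, map_pow]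
    have h2 : σ y = y := by
      rcases sq_eq_sq_iff_eq_or_eq_neg.1 h1 with h2 | h2
      · rw [h2, AlgEquiv.commutes]
      · rw [h2, map_neg, AlgEquiv.commutes]
    rw [hσy] at h2
    exact hy0 (by linear_combination (-1 / 2 : K) * h2)
  have hde : sc d ≠ sc e := by
    intro h0
    obtain ⟨c, hc0, hc⟩ := (sc_eq_iff hd he).1 h0
    have h1 : x ^ 2 = (y * algebraMap ℚ K c) ^ 2 := by rw [hx, hc, mul_pow, hy, map_mul, map_pow]
    have h2 : σ x = -x := by
      rcases sq_eq_sq_iff_eq_or_eq_neg.1 h1 with h2 | h2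
      · rw [h2, map_mul, AlgEquiv.commutes, hσy, neg_mul]
      · rw [h2, map_neg, map_mul, AlgEquiv.commutes, hσy, neg_mul]
    rw [hσx] at h2
    exact hx0 (by linear_combination (1 / 2 : K) * h2)
  set f := scMap (algebraMap ℚ K : ℚ →* K) with hf
  set R := Rq σ τ ρ with hR
  have hmap : R.map f = B σ ⊓ B τ ⊓ B ρ := by
    rw [hR, Rq, Submodule.map_comap_eq]
    exact inf_eq_right.2 (B_inf_le_range h)
  have hcount := Kron.finrank_map_add' f R
  rw [hmap] at hcount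
  have hfd : f (sc d) = 0 := by
    rw [hf, scMap_sc _ hd]
    show sc (algebraMap ℚ K d) = 0
    rw [← hx, sc_sq]
  have hfe : f (sc e) = 0 := by
    rw [hf, scMap_sc _ he]
    show sc (algebraMap ℚ K e) = 0
    rw [← hy, sc_sq]
  have hker : 2 ≤ finrank (ZMod 2) (R ⊓ LinearMap.ker f : Submodule (ZMod 2) (SqCl ℚ)) := by
    have : FiniteDimensional (ZMod 2) (R ⊓ LinearMap.ker f : Submodule (ZMod 2) (SqCl ℚ)) :=
      Submodule.finiteDimensional_of_le inf_le_left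
    refine two_le_finrank _ (u := sc d) (v := sc e) ?_ ?_ hd0 he0 hde
    · refine ⟨?_, hfd⟩
      show f (sc d) ∈ B σ ⊓ B τ ⊓ B ρ
      rw [hfd]
      exact Submodule.zero_mem _
    · refine ⟨?_, hfe⟩
      show f (sc e) ∈ B σ ⊓ B τ ⊓ B ρ
      rw [hfe]
      exact Submodule.zero_mem _
  refine ⟨?_, by omega⟩
  rw [← hmap]
  infer_instance

/-- The intersection of the three subspaces has dimension at most three. -/
theorem finrank_B_inf (h : V4 σ τ ρ) :
    FiniteDimensional (ZMod 2) (B σ ⊓ B τ ⊓ B ρ : Submodule (ZMod 2) (SqCl K)) ∧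
    finrank (ZMod 2) (B σ ⊓ B τ ⊓ B ρ : Submodule (ZMod 2) (SqCl K)) ≤ 3 := by
  obtain ⟨x, d, hd, hx, hσx, hτx, hx0⟩ := exists_theta h
  obtain ⟨y, e, he, hy, hτy, hσy, hy0⟩ := exists_theta h.swap
  have hρx : ρ x = -x := by rw [← h.hst, hτx, map_neg, hσx]
  set R := Rq σ τ ρ with hR
  -- `R ⊓ D σ ⊓ D τ ⊓ D ρ` has dimension at most two
  have fd0 : FiniteDimensional (ZMod 2) (R ⊓ D σ ⊓ D τ ⊓ D ρ : Submodule (ZMod 2) (SqCl ℚ)) ∧
      finrank (ZMod 2) (R ⊓ D σ ⊓ D τ ⊓ D ρ : Submodule (ZMod 2) (SqCl ℚ)) ≤ 2 := by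
    have hle : R ⊓ D σ ⊓ D τ ⊓ D ρ ≤ Submodule.span (ZMod 2) {sc (-1), sc 2} := by
      refine le_trans ?_ (D_inf h)
      rintro s ⟨⟨⟨-, h1⟩, h2⟩, h3⟩
      exact ⟨⟨h1, h2⟩, h3⟩
    have : FiniteDimensional (ZMod 2) (Submodule.span (ZMod 2) {sc (-1 : ℚ), sc 2}) :=
      FiniteDimensional.span_of_finite _ (by simp)
    exact ⟨Submodule.finiteDimensional_of_le hle,
      (Submodule.finrank_mono hle).trans (finrank_span_pair_le _ _)⟩
  obtain ⟨fd0, hf0⟩ := fd0
  obtain ⟨fd1, hf1⟩ := codim_one (R ⊓ D σ ⊓ D τ) (D ρ) (sc d) (by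
    rintro s ⟨⟨h1, -⟩, -⟩
    exact mem_D_or hd hx hρx hx0 h1.2)
  obtain ⟨fd2, hf2⟩ := codim_one (R ⊓ D σ) (D τ) (sc d) (by
    rintro s ⟨h1, -⟩
    exact mem_D_or hd hx hτx hx0 h1.1.2)
  obtain ⟨fd3, hf3⟩ := codim_one R (D σ) (sc e) (by
    rintro s h1
    exact mem_D_or he hy hσy hy0 h1.1.1)
  exact finrank_B_inf_of_Rq h (by rw [← hR]; omega)

lemma neg_one_mem_D (g : K ≃ₐ[ℚ] K) : sc (-1 : ℚ) ∈ D g := by
  show scMap (algebraMap ℚ (fx g) : ℚ →* fx g) (sc (-1)) ∈ Sel (fx g)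
  rw [scMap_sc _ (neg_ne_zero.2 one_ne_zero)]
  apply UCl_le_Sel
  have : (algebraMap ℚ (fx g) : ℚ →* fx g) (-1) = -1 := by simp
  rw [this]
  exact sc_neg_one_mem

/-- If `-1` is a square in the field, then the intersection has dimension at most one. -/
theorem finrank_B_inf_of_sq (h : V4 σ τ ρ) {i : K} (hi : i ^ 2 = -1) (hσ : σ i = -i)
    (hρ : ρ i = -i) :
    FiniteDimensional (ZMod 2) (B σ ⊓ B τ ⊓ B ρ : Submodule (ZMod 2) (SqCl K)) ∧
    finrank (ZMod 2) (B σ ⊓ B τ ⊓ B ρ : Submodule (ZMod 2) (SqCl K)) ≤ 1 := by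
  obtain ⟨x, d, hd, hx, hσx, hτx, hx0⟩ := exists_theta h
  have hi0 : i ≠ 0 := by
    rintro rfl
    norm_num at hi
  have hi' : i ^ 2 = algebraMap ℚ K (-1) := by rw [hi]; simp
  set R := Rq σ τ ρ with hR
  have hle : R ⊓ D τ ≤ Submodule.span (ZMod 2) {sc (-1), sc 2} := by
    refine le_trans ?_ (D_inf h)
    rintro s ⟨h1, h2⟩
    refine ⟨⟨?_, h2⟩, ?_⟩
    · rcases mem_D_or (neg_ne_zero.2 one_ne_zero) hi' hσ hi0 h1.1.1 with h3 | h3
      · exact h3
      · have := Submodule.add_mem _ h3 (neg_one_mem_D σ)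
        rwa [add_assoc, add_self, add_zero] at this
    · rcases mem_D_or (neg_ne_zero.2 one_ne_zero) hi' hρ hi0 h1.2 with h3 | h3
      · exact h3
      · have := Submodule.add_mem _ h3 (neg_one_mem_D ρ)
        rwa [add_assoc, add_self, add_zero] at this
  have : FiniteDimensional (ZMod 2) (Submodule.span (ZMod 2) {sc (-1 : ℚ), sc 2}) :=
    FiniteDimensional.span_of_finite _ (by simp)
  have fd0 : FiniteDimensional (ZMod 2) (R ⊓ D τ : Submodule (ZMod 2) (SqCl ℚ)) :=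
    Submodule.finiteDimensional_of_le hle
  have hf0 := (Submodule.finrank_mono hle).trans (finrank_span_pair_le _ _)
  obtain ⟨fd3, hf3⟩ := codim_one R (D τ) (sc d) (by
    rintro s h1
    exact mem_D_or hd hx hτx hx0 h1.1.2)
  exact finrank_B_inf_of_Rq h (by rw [← hR]; omega)

end Pool.Agent.Helper25.Biq
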