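import Pool.Agent.Helper25.Quad

/-!
# The Galois action on the 2-torsion of the class group
-/

namespace Pool.Agent.Helper25.Biq

open Module NumberField
open scoped nonZeroDivisors

section general

set_option backward.isDefEq.respectTransparency.types false in
lemma ringEquiv_coeIdeal {R S : Type*} [CommRing R] [IsDomain R] [CommRing S] [IsDomain S]
    (K L : Type*) [Field K] [Field L] [Algebra R K] [IsFractionRing R K] [Algebra S L]
    [IsFractionRing S L] (f : R ≃+* S) (I : Ideal R) :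
    FractionalIdeal.ringEquivOfRingEquiv K L f (I : FractionalIdeal R⁰ K) =
      ((I.map (f : R →+* S) : Ideal S) : FractionalIdeal S⁰ L) := by
  ext x
  rw [FractionalIdeal.ringEquivOfRingEquiv_apply, ← FractionalIdeal.mem_coe,
    FractionalIdeal.coe_mk, FractionalIdeal.mem_coeIdeal]
  simp only [Submodule.mem_map, FractionalIdeal.val_eq_coe, FractionalIdeal.mem_coe,
    FractionalIdeal.mem_coeIdeal]
  constructor
  · rintro ⟨_, ⟨r, hr, rfl⟩, rfl⟩
    refine ⟨f r, Ideal.mem_map_of_mem _ hr, ?_⟩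
    simp [IsFractionRing.semilinearEquivOfRingEquiv_apply]
  · rintro ⟨s, hs, rfl⟩
    obtain ⟨r, hr, hrs⟩ := (Ideal.mem_map_iff_of_surjective (f : R →+* S) f.surjective).1 hs
    refine ⟨algebraMap R K r, ⟨r, hr, rfl⟩, ?_⟩
    rw [← hrs]
    simp [IsFractionRing.semilinearEquivOfRingEquiv_apply]

lemma map_mem_nzd {R S : Type*} [CommRing R] [IsDomain R] [CommRing S] [IsDomain S]
    (g : R ≃+* S) {I : Ideal R} (hI : I ∈ (Ideal R)⁰) :
    I.map (g : R →+* S) ∈ (Ideal S)⁰ := by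
  rw [mem_nonZeroDivisors_iff_ne_zero] at hI ⊢
  intro h
  apply hI
  rw [Submodule.zero_eq_bot,
    Ideal.map_eq_bot_iff_of_injective (f := (g : R →+* S)) g.injective] at h
  exact h

lemma mulEquiv_mk0 {R S : Type*} [CommRing R] [IsDedekindDomain R] [CommRing S]
    [IsDedekindDomain S] (g : R ≃+* S) (I : (Ideal R)⁰) :
    ClassGroup.mulEquiv g (ClassGroup.mk0 I) =
      ClassGroup.mk0 ⟨(I : Ideal R).map (g : R →+* S), map_mem_nzd g I.2⟩ := by
  rw [ClassGroup.mulEquiv, MulEquiv.trans_apply, MulEquiv.trans_apply, MulEquiv.symm_apply_eq,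
    ClassGroup.equiv_mk0, ClassGroup.equiv_mk0]
  have h1 : (Units.mapEquiv (FractionalIdeal.ringEquivOfRingEquiv (FractionRing R)
      (FractionRing S) g : _ ≃* _)) (FractionalIdeal.mk0 (FractionRing R) I) =
      FractionalIdeal.mk0 (FractionRing S) ⟨(I : Ideal R).map (g : R →+* S), map_mem_nzd g I.2⟩ := by
    apply Units.ext
    exact ringEquiv_coeIdeal _ _ g I
  rw [← h1]
  rfl

end general

section action

variable {K : Type*} [Field K] [NumberField K]

/-- The ring automorphism of the ring of integers induced by an automorphism of the field. -/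
noncomputable def oAut (σ : K ≃ₐ[ℚ] K) : 𝓞 K ≃+* 𝓞 K :=
  RingOfIntegers.mapRingEquiv σ.toRingEquiv

lemma algebraMap_oAut (σ : K ≃ₐ[ℚ] K) (a : 𝓞 K) :
    algebraMap (𝓞 K) K (oAut σ a) = σ (algebraMap (𝓞 K) K a) := rfl

/-- The action of an automorphism on the class group. -/
noncomputable def actCl (σ : K ≃ₐ[ℚ] K) : ClassGroup (𝓞 K) ≃* ClassGroup (𝓞 K) :=
  ClassGroup.mulEquiv (oAut σ)

/-- The action of an automorphism on the 2-torsion of the class group. -/
noncomputable def act (σ : K ≃ₐ[ℚ] K) : TT K →ₗ[ZMod 2] TT K :=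
  AddMonoidHom.toZModLinearMap 2
    { toFun := fun x => TT.mk (actCl σ x.val) (by rw [← map_pow, x.val_sq, map_one])
      map_zero' := TT.val_injective (by rw [TT.val_mk, TT.val_zero, map_one])
      map_add' := fun x y => TT.val_injective (by
        rw [TT.val_mk, TT.val_add, TT.val_add, TT.val_mk, TT.val_mk, map_mul]) }

lemma val_act (σ : K ≃ₐ[ℚ] K) (x : TT K) : (act σ x).val = actCl σ x.val := rfl

lemma toQ_act {σ : K ≃ₐ[ℚ] K} {x : TT K} {I : (nonZeroDivisors (Ideal (𝓞 K)))} {a : 𝓞 K}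
    (ha : a ≠ 0) (hI : (I : Ideal (𝓞 K)) ^ 2 = Ideal.span {a}) (hx : ClassGroup.mk0 I = x.val) :
    toQ (act σ x) = (UCl K).mkQ (sc (σ (algebraMap (𝓞 K) K a))) := by
  have h1 : oAut σ a ≠ 0 := (map_ne_zero_iff _ (oAut σ).injective).2 ha
  rw [← algebraMap_oAut]
  refine toQ_eq (I := ⟨(I : Ideal (𝓞 K)).map (oAut σ : 𝓞 K →+* 𝓞 K), map_mem_nzd _ I.2⟩) h1 ?_ ?_
  · show ((I : Ideal (𝓞 K)).map (oAut σ : 𝓞 K →+* 𝓞 K)) ^ 2 = _
    rw [← Ideal.map_pow, hI, Ideal.map_span, Set.image_singleton]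
    rfl
  · rw [val_act, ← hx, actCl, mulEquiv_mk0]

lemma toQ_add_act [IsGalois ℚ K] {σ : K ≃ₐ[ℚ] K} (h1 : σ ≠ 1) (h2 : σ * σ = 1) (x : TT K) :
    toQ (x + act σ x) ∈ (B σ).map (UCl K).mkQ := by
  obtain ⟨I, a, ha, hI, hx⟩ := exists_rep x
  refine ⟨_, norm_mem_B h1 h2 ha hI, ?_⟩
  rw [map_add, toQ_eq ha hI hx, toQ_act ha hI hx, ← map_add, sc_mul (alg_ne_zero ha)]
  exact (map_ne_zero_iff _ σ.injective).2 (alg_ne_zero ha)

end action

end Pool.Agent.Helper25.Biq
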