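import Pool.Agent.Helper25.BiqSub

/-!
# Families of stable indecomposable subspaces of the class group of a biquadratic field
-/

namespace Pool.Agent.Helper25.Biq

open Module NumberField

/-- The bound for families of subspaces of `Cl(K)[2]`. -/
theorem family_bound (K : Type) [Field K] [NumberField K] [IsGalois ℚ K]
    [IsKleinFour (K ≃ₐ[ℚ] K)]
    (ι : Type) [Fintype ι] (L : ι → Submodule (ZMod 2) (TT K))
    (hL : ∀ j, Stable (L j)) (hind : ∀ j, IndecSub (L j)) (hI : iSupIndep L) :
      (∀ j, Kron.Types (finrank (ZMod 2) (L j)) (finrank (ZMod 2) (rad (L j)))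
        (finrank (ZMod 2) (core (L j)))) ∧
      ∑ j, finrank (ZMod 2) (core (L j)) ≤ 5 ∧
      (IsTotallyComplex K → ∑ j, finrank (ZMod 2) (core (L j)) ≤ 3) := by
  obtain ⟨σ, τ, ρ, h, fd, h5, h3⟩ := exists_bound (K := K)
  have hty : ∀ j, Kron.Types (finrank (ZMod 2) (L j)) (finrank (ZMod 2) (rad (L j)))
      (finrank (ZMod 2) (core (L j))) := by
    intro j
    have h1 := indec_types h (hL j) (hind j)
    rw [rad_eq h, core_eq h]
    exact h1
  have hsum : ∑ j, finrank (ZMod 2) (core (L j)) ≤ finrank (ZMod 2) (Q3 σ τ ρ) := by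
    refine le_trans (le_of_eq ?_) (family_phi h L hL hI)
    exact Finset.sum_congr rfl (fun j _ => by rw [core_eq h])
  refine ⟨hty, by omega, fun hc => by have := h3 hc; omega⟩

end Pool.Agent.Helper25.Biq
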