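import Mathlib

/-!
# Indecomposable triples of square-zero maps

Linear algebra for `MP_282bb6_nt`.  We bound the dimension of an indecomposable module `V` with
three endomorphisms `X₁ + X₂ + X₃ = 0`, `Xᵢ Xⱼ = 0`, by the dimension of
`Φ = X₁ V ∩ X₂ V ∩ X₃ V`: `dim V ≤ 2 dim Φ + 5`.
-/

namespace Pool.Agent.Helper25.Kron

open Module LinearMap

variable {k V : Type*} [Field k] [AddCommGroup V] [Module k V]

/-- Extension of functionals: a functional `f` on `E` which vanishes on `g⁻¹ p` is of the form
`φ ∘ g` with `φ` vanishing on `p`. -/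
lemma exists_functional {E : Type*} [AddCommGroup E] [Module k E] (p : Submodule k V)
    (g : E →ₗ[k] V) (f : E →ₗ[k] k) (h : ∀ v, g v ∈ p → f v = 0) :
    ∃ φ : V →ₗ[k] k, (∀ x ∈ p, φ x = 0) ∧ ∀ v, φ (g v) = f v := by
  have h1 : f ∈ (LinearMap.ker (p.mkQ ∘ₗ g)).dualAnnihilator := by
    rw [Submodule.mem_dualAnnihilator]
    intro v hv
    apply h v
    simpa using hv
  rw [← LinearMap.range_dualMap_eq_dualAnnihilator_ker] at h1
  obtain ⟨ψ, hψ⟩ := h1
  refine ⟨ψ ∘ₗ p.mkQ, ?_, ?_⟩
  · intro x hx
    simp [(Submodule.Quotient.mk_eq_zero p).2 hx]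
  · intro v
    rw [← hψ]
    simp

lemma exists_functional_one (p : Submodule k V) (x : V) (hx : x ∉ p) :
    ∃ φ : V →ₗ[k] k, (∀ y ∈ p, φ y = 0) ∧ φ x = 1 := by
  obtain ⟨φ, h1, h2⟩ := exists_functional p (LinearMap.toSpanSingleton k V x)
    (LinearMap.id : k →ₗ[k] k) (by
      intro c hc
      by_contra hne
      apply hx
      have : x = c⁻¹ • (LinearMap.toSpanSingleton k V x c) := by
        simp [LinearMap.toSpanSingleton_apply, smul_smul, inv_mul_cancel₀ (show c ≠ 0 from hne)]
      rw [this]
      exact p.smul_mem _ hc)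
  refine ⟨φ, h1, ?_⟩
  have := h2 1
  simpa using this

/-- `finrank` of an image. -/
lemma finrank_map_add [FiniteDimensional k V] {V' : Type*} [AddCommGroup V'] [Module k V']
    (f : V →ₗ[k] V') (P : Submodule k V) :
    finrank k (P.map f) + finrank k (P ⊓ ker f : Submodule k V) = finrank k P := by
  have h := LinearMap.finrank_range_add_finrank_ker (f.domRestrict P)
  rw [LinearMap.range_domRestrict] at h
  rw [← h, add_right_inj, LinearMap.ker_domRestrict]
  have h2 := Submodule.map_comap_subtype P (ker f)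
  rw [← h2]
  exact Submodule.finrank_map_subtype_eq P (Submodule.comap P.subtype (ker f))

/-- The possible dimensions: `d = dim V`, `w = dim (A V + B V + C V)`,
`φ = dim (A V ∩ B V ∩ C V)`. -/
def Types (d w φ : ℕ) : Prop :=
  (d = 1 ∧ w = 0) ∨ (d = 2 * w ∧ φ = w) ∨ (d = 2 * w ∧ φ + 1 = w) ∨ (d = 2 * w + 1 ∧ φ = w) ∨
    (d + 1 = 2 * w ∧ w ≤ φ + 3)

/-- Three endomorphisms with sum zero and all products zero, such that an endomorphism commuting
with them which fixes a nonzero vector is injective. -/
structure Sys (A B C : V →ₗ[k] V) : Prop where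
  sum : ∀ v, A v + B v + C v = 0
  AA : ∀ v, A (A v) = 0
  AB : ∀ v, A (B v) = 0
  BA : ∀ v, B (A v) = 0
  BB : ∀ v, B (B v) = 0
  rigid : ∀ e : V →ₗ[k] V, (∀ v, e (A v) = A (e v)) → (∀ v, e (B v) = B (e v)) →
    (∃ v, v ≠ 0 ∧ e v = v) → Function.Injective e

namespace Sys

variable {A B C : V →ₗ[k] V}

lemma C_eq (h : Sys A B C) (v : V) : C v = -A v - B v := by
  have := h.sum v
  rw [← sub_eq_zero]
  rw [← this]
  abel

lemma swap (h : Sys A B C) : Sys B A C where
  sum v := by rw [← h.sum v]; abel
  AA := h.BB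
  AB := h.BA
  BA := h.AB
  BB := h.AA
  rigid e h1 h2 h3 := h.rigid e h2 h1 h3

lemma rot (h : Sys A B C) : Sys B C A where
  sum v := by rw [← h.sum v]; abel
  AA := h.BB
  AB v := by rw [h.C_eq]; simp [h.BA, h.BB]
  BA v := by rw [h.C_eq]; simp [h.AB, h.BB]
  BB v := by rw [h.C_eq, h.C_eq v]; simp [h.AA, h.AB, h.BA, h.BB]
  rigid e h1 h2 h3 := by
    refine h.rigid e ?_ h1 h3
    intro v
    have e1 : A v = -B v - C v := by rw [h.C_eq]; abel
    have e2 : A (e v) = -B (e v) - C (e v) := by rw [h.C_eq]; abel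
    rw [e1, e2, map_sub, map_neg, h1, h2]

variable [FiniteDimensional k V]

/-- Rank bound: if `e` commutes with everything, fixes a nonzero vector, then it is bijective, so
a subspace `p` that contains the range of `e` is everything. -/
lemma surj (h : Sys A B C) (e : V →ₗ[k] V) (h1 : ∀ v, e (A v) = A (e v))
    (h2 : ∀ v, e (B v) = B (e v)) (h3 : ∃ v, v ≠ 0 ∧ e v = v) : Function.Surjective e :=
  LinearMap.injective_iff_surjective.1 (h.rigid e h1 h2 h3)

/-- `S = W`. -/
lemma ker_le (h : Sys A B C) (hd : 1 < finrank k V) : ker A ⊓ ker B ≤ range A ⊔ range B := by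
  intro u hu
  by_contra hne
  obtain ⟨hA, hB⟩ := Submodule.mem_inf.1 hu
  rw [LinearMap.mem_ker] at hA hB
  obtain ⟨φ, h1, h2⟩ := exists_functional_one _ u hne
  let e : V →ₗ[k] V := φ.smulRight u
  have he : Function.Surjective e := by
    refine h.surj e ?_ ?_ ⟨u, ?_, ?_⟩
    · intro v
      have : φ (A v) = 0 := h1 _ (Submodule.mem_sup_left ⟨v, rfl⟩)
      simp [e, this, hA]
    · intro v
      have : φ (B v) = 0 := h1 _ (Submodule.mem_sup_right ⟨v, rfl⟩)
      simp [e, this, hB]
    · rintro rfl
      exact hne (Submodule.zero_mem _)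
    · simp [e, h2]
  have h3 : (⊤ : Submodule k V) ≤ Submodule.span k {u} := by
    intro v _
    obtain ⟨w, rfl⟩ := he v
    exact Submodule.smul_mem _ _ (Submodule.mem_span_singleton_self u)
  have h4 := Submodule.finrank_mono h3
  rw [finrank_top] at h4
  have h5 : finrank k (Submodule.span k ({u} : Set V)) ≤ 1 :=
    (finrank_span_le_card ({u} : Set V)).trans (by simp)
  omega

end Sys

/-- The sequence `T, A (B⁻¹ T), A (B⁻¹ (A (B⁻¹ T))), …`. -/
def sq (A B : V →ₗ[k] V) (T : Submodule k V) : ℕ → Submodule k V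
  | 0 => T
  | j + 1 => ((sq A B T j).comap B).map A

lemma exists_chain_functional (A B : V →ₗ[k] V) (T : Submodule k V) (j : ℕ) :
    ∀ g : V →ₗ[k] k, (∀ x ∈ sq A B T j, g x = 0) →
      ∃ G : ℕ → V →ₗ[k] k, G 0 = g ∧ (∀ i < j, ∀ v, G (i + 1) (B v) = G i (A v)) ∧
        ∀ x ∈ T, G j x = 0 := by
  induction j with
  | zero =>
    intro g hg
    exact ⟨fun _ => g, rfl, fun i hi => absurd hi (Nat.not_lt_zero i), hg⟩
  | succ j ih =>
    intro g hg
    obtain ⟨g', h1, h2⟩ := exists_functional (sq A B T j) B (g ∘ₗ A) (by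
      intro v hv
      exact hg _ ⟨v, hv, rfl⟩)
    obtain ⟨G, hG0, hG1, hG2⟩ := ih g' h1
    refine ⟨fun i => Nat.casesOn i g G, rfl, ?_, hG2⟩
    intro i hi v
    cases i with
    | zero =>
      show G 0 (B v) = g (A v)
      rw [hG0, h2]; rfl
    | succ i => exact hG1 i (by omega) v

lemma exists_chain_vector (A B : V →ₗ[k] V) (T : Submodule k V) (j : ℕ) :
    ∀ w ∈ sq A B T (j + 1),
      ∃ u : ℕ → V, A (u 0) = w ∧ (∀ i < j, A (u (i + 1)) = B (u i)) ∧ B (u j) ∈ T := by
  induction j with
  | zero =>
    rintro w ⟨v, hv, rfl⟩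
    exact ⟨fun _ => v, rfl, fun i hi => absurd hi (Nat.not_lt_zero i), hv⟩
  | succ j ih =>
    rintro w ⟨v, hv, rfl⟩
    obtain ⟨u, h1, h2, h3⟩ := ih (B v) hv
    refine ⟨fun i => Nat.casesOn i v u, rfl, ?_, h3⟩
    intro i hi
    cases i with
    | zero => exact h1
    | succ i => exact h2 i (by omega)

lemma sq_bot_mono (A B : V →ₗ[k] V) : Monotone (sq A B ⊥) := by
  apply monotone_nat_of_le_succ
  intro j
  induction j with
  | zero => exact bot_le
  | succ j ih => exact Submodule.map_mono (Submodule.comap_mono ih)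

lemma sq_top_anti (A B : V →ₗ[k] V) : Antitone (sq A B ⊤) := by
  apply antitone_nat_of_succ_le
  intro j
  induction j with
  | zero => exact le_top
  | succ j ih => exact Submodule.map_mono (Submodule.comap_mono ih)

lemma exists_sq_bot (A B : V →ₗ[k] V) [FiniteDimensional k V] :
    ∃ j, sq A B ⊥ (j + 1) = sq A B ⊥ j := by
  obtain ⟨n, hn⟩ := WellFoundedGT.monotone_chain_condition
    (⟨sq A B ⊥, sq_bot_mono A B⟩ : ℕ →o Submodule k V)
  exact ⟨n, (hn (n + 1) (by omega)).symm⟩

lemma exists_sq_top (A B : V →ₗ[k] V) [FiniteDimensional k V] :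
    ∃ j, sq A B ⊤ (j + 1) = sq A B ⊤ j := by
  obtain ⟨n, hn⟩ := WellFoundedGT.monotone_chain_condition
    (⟨fun j => OrderDual.toDual (sq A B ⊤ j), fun a b hab => sq_top_anti A B hab⟩ :
      ℕ →o (Submodule k V)ᵒᵈ)
  exact ⟨n, (hn (n + 1) (by omega)).symm⟩

namespace Sys

variable {A B C : V →ₗ[k] V}

/-- The range of `A` plus the range of `B`. -/
lemma range_C_le (h : Sys A B C) : range C ≤ range A ⊔ range B := by
  rintro _ ⟨v, rfl⟩
  rw [h.C_eq]
  exact Submodule.sub_mem _ (Submodule.neg_mem _ (Submodule.mem_sup_left ⟨v, rfl⟩))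
    (Submodule.mem_sup_right ⟨v, rfl⟩)

lemma sup_le_ker (h : Sys A B C) : range A ⊔ range B ≤ ker A ⊓ ker B := by
  rw [sup_le_iff]
  constructor
  · rintro _ ⟨v, rfl⟩
    exact ⟨h.AA v, h.BA v⟩
  · rintro _ ⟨v, rfl⟩
    exact ⟨h.AB v, h.BB v⟩

/-- A surjective endomorphism commuting with everything maps `W` onto `W`. -/
lemma W_le_of_surj (_h : Sys A B C) (e : V →ₗ[k] V) (h1 : ∀ v, e (A v) = A (e v))
    (h2 : ∀ v, e (B v) = B (e v)) (he : Function.Surjective e) (p : Submodule k V)
    (hp : ∀ x ∈ range A ⊔ range B, e x ∈ p) : range A ⊔ range B ≤ p := by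
  rw [sup_le_iff]
  constructor
  · rintro _ ⟨v, rfl⟩
    obtain ⟨w, rfl⟩ := he v
    rw [← h1]
    exact hp _ (Submodule.mem_sup_left ⟨w, rfl⟩)
  · rintro _ ⟨v, rfl⟩
    obtain ⟨w, rfl⟩ := he v
    rw [← h2]
    exact hp _ (Submodule.mem_sup_right ⟨w, rfl⟩)

variable [FiniteDimensional k V]

lemma finrank_span_singleton_sup_le (u : V) (p : Submodule k V) :
    finrank k (Submodule.span k {u} ⊔ p : Submodule k V) ≤ finrank k p + 1 := by
  have h1 := Submodule.finrank_add_le_finrank_add_finrank (Submodule.span k {u}) p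
  have h2 : finrank k (Submodule.span k ({u} : Set V)) ≤ 1 :=
    (finrank_span_le_card ({u} : Set V)).trans (by simp)
  omega

lemma finrank_ker_le (e : V →ₗ[k] V) (he : Function.Injective e) (p q : Submodule k V)
    (hpq : ∀ x ∈ p, e x ∈ q) : finrank k p ≤ finrank k q := by
  have h1 : p.map e ≤ q := by
    rintro _ ⟨x, hx, rfl⟩
    exact hpq x hx
  have h2 := Submodule.finrank_mono h1
  have h3 := finrank_map_add e p
  have h4 : ker e = ⊥ := LinearMap.ker_eq_bot.2 he
  rw [h4, inf_bot_eq, finrank_bot] at h3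
  omega

/-- The regular case. -/
lemma regular (h : Sys A B C) (n : ℕ) (h1 : sq B A ⊥ n ≤ range A)
    (h2 : ¬ sq B A ⊥ (n + 1) ≤ range A) :
    finrank k V ≤ 2 * finrank k (range A ⊔ range B : Submodule k V) ∧
    finrank k (range A ⊔ range B : Submodule k V) ≤
      finrank k (range A ⊓ range B ⊓ range C : Submodule k V) + 1 ∧
    finrank k (range A) < finrank k (range A ⊔ range B : Submodule k V) := by
  obtain ⟨w, hw, hwA⟩ := Set.not_subset.1 h2
  obtain ⟨u, hu0, hu1, hu2⟩ := exists_chain_vector B A ⊥ n w hw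
  rw [Submodule.mem_bot] at hu2
  obtain ⟨g, hg1, hg2⟩ := exists_functional_one _ w hwA
  obtain ⟨G, hG0, hG1, -⟩ := exists_chain_functional B A ⊥ n g (fun x hx => hg1 x (h1 hx))
  have hGA : ∀ v, G 0 (A v) = 0 := fun v => by rw [hG0]; exact hg1 _ ⟨v, rfl⟩
  let e : V →ₗ[k] V := ∑ i ∈ Finset.range (n + 1),
    ((G i ∘ₗ B).smulRight (u i) + (G i).smulRight (B (u i)))
  have he : ∀ v, e v = ∑ i ∈ Finset.range (n + 1), (G i (B v) • u i + G i v • B (u i)) := by
    intro v
    simp [e, LinearMap.sum_apply]
  have heB : ∀ v, e (B v) = B (e v) := by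
    intro v
    rw [he, he, map_sum]
    apply Finset.sum_congr rfl
    intro i _
    simp [h.BB]
  have heA : ∀ v, e (A v) = A (e v) := by
    intro v
    rw [he, he, map_sum]
    have e1 : ∀ i, G i (B (A v)) • u i + G i (A v) • B (u i) = G i (A v) • B (u i) := by
      intro i; simp [h.BA]
    have e2 : ∀ i, A (G i (B v) • u i + G i v • B (u i)) = G i (B v) • A (u i) := by
      intro i; simp [h.AB]
    simp only [e1, e2]
    rw [Finset.sum_range_succ', Finset.sum_range_succ, hGA, zero_smul, hu2, smul_zero]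
    congr 1
    apply Finset.sum_congr rfl
    intro i hi
    rw [Finset.mem_range] at hi
    rw [hG1 i hi, hu1 i hi]
  have hone : ∀ i ≤ n, G i (B (u i)) = 1 := by
    intro i
    induction i with
    | zero => intro _; rw [hG0, hu0, hg2]
    | succ i ih =>
      intro hi
      rw [hu1 i (by omega), hG1 i (by omega)]
      exact ih (by omega)
  have hzero : ∀ i < n, G i (B (u n)) = 0 := by
    intro i hi
    rw [← hG1 i hi, hu2, map_zero]
  have hfix : e (B (u n)) = B (u n) := by
    rw [he, Finset.sum_range_succ, Finset.sum_eq_zero]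
    · simp [h.BB, hone n le_rfl]
    · intro i hi
      rw [Finset.mem_range] at hi
      simp [h.BB, hzero i hi]
  have hne : B (u n) ≠ 0 := by
    intro h0
    have := hone n le_rfl
    rw [h0, map_zero] at this
    exact zero_ne_one this
  have hinj := h.rigid e heA heB ⟨_, hne, hfix⟩
  have hsurj := LinearMap.injective_iff_surjective.1 hinj
  -- the vectors `B (u i)` are in the range of `C`
  have hC : ∀ i ≤ n, B (u (n - i)) ∈ range C := by
    intro i
    induction i with
    | zero =>
      intro _
      refine ⟨-u n, ?_⟩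
      rw [h.C_eq]
      simp [hu2]
    | succ i ih =>
      intro hi
      have h3 := ih (by omega)
      have h4 : B (u (n - i)) = A (u (n - (i + 1))) := by
        have h5 := hu1 (n - (i + 1)) (by omega)
        rwa [show n - (i + 1) + 1 = n - i by omega] at h5
      rw [h4] at h3
      have h5 : B (u (n - (i + 1))) = -C (u (n - (i + 1))) - A (u (n - (i + 1))) := by
        rw [h.C_eq]; abel
      rw [h5]
      exact Submodule.sub_mem _ (Submodule.neg_mem _ ⟨_, rfl⟩) h3
  have hC' : ∀ i ≤ n, B (u i) ∈ range C := by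
    intro i hi
    have := hC (n - i) (by omega)
    rwa [show n - (n - i) = i by omega] at this
  have hW : range A ⊔ range B ≤
      Submodule.span k {B (u 0)} ⊔ (range A ⊓ range B ⊓ range C) := by
    refine h.W_le_of_surj e heA heB hsurj _ ?_
    intro x hx
    have hx2 : B x = 0 := (h.sup_le_ker hx).2
    rw [he]
    refine Submodule.sum_mem _ ?_
    intro i hi
    rw [Finset.mem_range] at hi
    rw [hx2, map_zero, zero_smul, zero_add]
    refine Submodule.smul_mem _ _ ?_
    cases i with
    | zero => exact Submodule.mem_sup_left (Submodule.mem_span_singleton_self _)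
    | succ i =>
      refine Submodule.mem_sup_right ⟨⟨?_, ⟨_, rfl⟩⟩, hC' _ (by omega)⟩
      rw [hu1 i (by omega)]
      exact ⟨_, rfl⟩
  have hwd := (Submodule.finrank_mono hW).trans (finrank_span_singleton_sup_le _ _)
  have hK : finrank k (ker A) ≤ finrank k (range A ⊔ range B : Submodule k V) + 1 := by
    refine (finrank_ker_le e hinj (ker A) _ ?_).trans (finrank_span_singleton_sup_le (u n) _)
    intro x hx
    rw [LinearMap.mem_ker] at hx
    rw [he, Finset.sum_range_succ]
    refine Submodule.add_mem _ ?_ (Submodule.add_mem _ ?_ ?_)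
    · refine Submodule.sum_mem _ ?_
      intro i hi
      rw [Finset.mem_range] at hi
      rw [← hG1 i hi, hx, map_zero, zero_smul, zero_add]
      exact Submodule.smul_mem _ _ (Submodule.mem_sup_right (Submodule.mem_sup_right ⟨_, rfl⟩))
    · exact Submodule.smul_mem _ _ (Submodule.mem_sup_left (Submodule.mem_span_singleton_self _))
    · exact Submodule.smul_mem _ _ (Submodule.mem_sup_right (Submodule.mem_sup_right ⟨_, rfl⟩))
  have hlt : finrank k (range A) < finrank k (range A ⊔ range B : Submodule k V) := by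
    apply Submodule.finrank_lt_finrank_of_lt
    refine lt_of_le_of_ne le_sup_left ?_
    intro heq
    apply hwA
    rw [heq]
    rw [← hu0]
    exact Submodule.mem_sup_right ⟨_, rfl⟩
  have hdim := LinearMap.finrank_range_add_finrank_ker A
  refine ⟨by omega, by omega, hlt⟩

/-- The preinjective case. -/
lemma preinjective (h : Sys A B C) (m : ℕ) (u0 : V) (hu0A : A u0 = 0)
    (h1 : B u0 ∈ sq A B ⊥ (m + 1)) (h2 : B u0 ∉ sq A B ⊥ m) :
    finrank k V ≤ 2 * finrank k (range A ⊔ range B : Submodule k V) + 1 ∧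
    finrank k (range A ⊔ range B : Submodule k V) ≤
      finrank k (range A ⊓ range B ⊓ range C : Submodule k V) := by
  obtain ⟨u, hu0, hu1, hu2⟩ := exists_chain_vector A B ⊥ m _ h1
  rw [Submodule.mem_bot] at hu2
  obtain ⟨g, hg1, hg2⟩ := exists_functional_one _ _ h2
  obtain ⟨G, hG0, hG1, -⟩ := exists_chain_functional A B ⊥ m g hg1
  let e : V →ₗ[k] V := (G 0 ∘ₗ B).smulRight u0 + ∑ i ∈ Finset.range (m + 1),
    ((G i ∘ₗ A).smulRight (u i) + (G i).smulRight (A (u i)))
  have he : ∀ v, e v = G 0 (B v) • u0 +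
      ∑ i ∈ Finset.range (m + 1), (G i (A v) • u i + G i v • A (u i)) := by
    intro v
    simp [e, LinearMap.sum_apply]
  have heA : ∀ v, e (A v) = A (e v) := by
    intro v
    rw [he, he, map_add, map_sum, h.BA, map_zero, zero_smul, map_smul, hu0A, smul_zero]
    congr 1
    apply Finset.sum_congr rfl
    intro i _
    simp [h.AA]
  have heB : ∀ v, e (B v) = B (e v) := by
    intro v
    rw [he, he, map_add, map_sum, h.BB, map_zero, zero_smul, zero_add, map_smul]
    have e1 : ∀ i, G i (A (B v)) • u i + G i (B v) • A (u i) = G i (B v) • A (u i) := by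
      intro i; simp [h.AB]
    have e2 : ∀ i, B (G i (A v) • u i + G i v • A (u i)) = G i (A v) • B (u i) := by
      intro i; simp [h.BA]
    simp only [e1, e2]
    rw [Finset.sum_range_succ', Finset.sum_range_succ, hu2, smul_zero, add_zero, hu0, add_comm]
    congr 1
    apply Finset.sum_congr rfl
    intro i hi
    rw [Finset.mem_range] at hi
    rw [hG1 i hi, hu1 i hi]
  have hzero : ∀ i < m, G (i + 1) (B u0) = 0 := by
    intro i hi
    rw [hG1 i hi, hu0A, map_zero]
  have hfix : e (B u0) = B u0 := by
    rw [he, Finset.sum_range_succ', Finset.sum_eq_zero]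
    · simp [h.BB, h.AB, hG0, hg2, hu0]
    · intro i hi
      rw [Finset.mem_range] at hi
      simp [h.AB, hzero i hi]
  have hne : B u0 ≠ 0 := by
    intro h0
    rw [h0, map_zero] at hg2
    exact zero_ne_one hg2
  have hinj := h.rigid e heA heB ⟨_, hne, hfix⟩
  have hsurj := LinearMap.injective_iff_surjective.1 hinj
  have hB : ∀ i ≤ m, A (u i) ∈ range B := by
    intro i
    cases i with
    | zero => intro _; rw [hu0]; exact ⟨_, rfl⟩
    | succ i => intro hi; rw [hu1 i (by omega)]; exact ⟨_, rfl⟩
  have hC : ∀ i ≤ m, A (u i) ∈ range C := by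
    intro i
    induction i with
    | zero =>
      intro _
      refine ⟨-u0, ?_⟩
      rw [h.C_eq, hu0]
      simp [hu0A]
    | succ i ih =>
      intro hi
      have h3 := ih (by omega)
      rw [hu1 i (by omega)]
      have h5 : B (u i) = -C (u i) - A (u i) := by
        rw [h.C_eq]; abel
      rw [h5]
      exact Submodule.sub_mem _ (Submodule.neg_mem _ ⟨_, rfl⟩) h3
  have hW : range A ⊔ range B ≤ range A ⊓ range B ⊓ range C := by
    refine h.W_le_of_surj e heA heB hsurj _ ?_
    intro x hx
    have hx1 : A x = 0 := (h.sup_le_ker hx).1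
    have hx2 : B x = 0 := (h.sup_le_ker hx).2
    rw [he, hx2, map_zero, zero_smul, zero_add]
    refine Submodule.sum_mem _ ?_
    intro i hi
    rw [Finset.mem_range] at hi
    rw [hx1, map_zero, zero_smul, zero_add]
    exact Submodule.smul_mem _ _ ⟨⟨⟨_, rfl⟩, hB i (by omega)⟩, hC i (by omega)⟩
  have hwd := Submodule.finrank_mono hW
  have hK : finrank k (ker A) ≤ finrank k (range A ⊔ range B : Submodule k V) + 1 := by
    refine (finrank_ker_le e hinj (ker A) _ ?_).trans (finrank_span_singleton_sup_le u0 _)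
    intro x hx
    rw [LinearMap.mem_ker] at hx
    rw [he]
    refine Submodule.add_mem _ ?_ ?_
    · exact Submodule.smul_mem _ _ (Submodule.mem_sup_left (Submodule.mem_span_singleton_self _))
    · refine Submodule.sum_mem _ ?_
      intro i hi
      rw [hx, map_zero, zero_smul, zero_add]
      exact Submodule.smul_mem _ _ (Submodule.mem_sup_right (Submodule.mem_sup_left ⟨_, rfl⟩))
  have hle : finrank k (range A) ≤ finrank k (range A ⊔ range B : Submodule k V) :=
    Submodule.finrank_mono le_sup_left
  have hdim := LinearMap.finrank_range_add_finrank_ker A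
  exact ⟨by omega, hwd⟩

/-- The preprojective case: `range A ⊔ range B` is generated by the range of `B` and one vector. -/
lemma preprojective (h : Sys A B C) (m : ℕ)
    (h1 : range A ⊔ range B ≤ range B ⊔ sq A B ⊤ (m + 1))
    (h2 : ¬ range A ⊔ range B ≤ range B ⊔ sq A B ⊤ (m + 2)) :
    finrank k (range A ⊔ range B : Submodule k V) ≤ finrank k (range B) + 1 := by
  have h3 : ¬ sq A B ⊤ (m + 1) ≤ range B ⊔ sq A B ⊤ (m + 2) := fun h4 =>
    h2 (h1.trans (sup_le le_sup_left h4))
  obtain ⟨w, hw, hwn⟩ := Set.not_subset.1 h3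
  obtain ⟨u, hu0, hu1, -⟩ := exists_chain_vector A B ⊤ m w hw
  obtain ⟨g, hg1, hg2⟩ := exists_functional_one _ _ hwn
  obtain ⟨G, hG0, hG1, hG2⟩ := exists_chain_functional A B ⊤ (m + 2) g
    (fun x hx => hg1 x (Submodule.mem_sup_right hx))
  have hGA : ∀ v, G (m + 1) (A v) = 0 := by
    intro v
    rw [← hG1 (m + 1) (by omega)]
    exact hG2 _ trivial
  have hGB : ∀ v, G 0 (B v) = 0 := by
    intro v
    rw [hG0]
    exact hg1 _ (Submodule.mem_sup_left ⟨v, rfl⟩)
  let e : V →ₗ[k] V := (∑ i ∈ Finset.range (m + 1),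
    ((G i ∘ₗ A).smulRight (u i) + (G i).smulRight (A (u i)))) + (G (m + 1)).smulRight (B (u m))
  have he : ∀ v, e v = (∑ i ∈ Finset.range (m + 1), (G i (A v) • u i + G i v • A (u i))) +
      G (m + 1) v • B (u m) := by
    intro v
    simp [e, LinearMap.sum_apply]
  have heA : ∀ v, e (A v) = A (e v) := by
    intro v
    rw [he, he, map_add, map_sum, hGA, zero_smul, map_smul, h.AB, smul_zero]
    congr 1
    apply Finset.sum_congr rfl
    intro i _
    simp [h.AA]
  have heB : ∀ v, e (B v) = B (e v) := by
    intro v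
    rw [he, he, map_add, map_sum, map_smul, h.BB, smul_zero, add_zero]
    have e1 : ∀ i, G i (A (B v)) • u i + G i (B v) • A (u i) = G i (B v) • A (u i) := by
      intro i; simp [h.AB]
    have e2 : ∀ i, B (G i (A v) • u i + G i v • A (u i)) = G i (A v) • B (u i) := by
      intro i; simp [h.BA]
    simp only [e1, e2]
    rw [Finset.sum_range_succ', Finset.sum_range_succ, hGB, zero_smul, add_zero,
      hG1 m (by omega)]
    congr 1
    apply Finset.sum_congr rfl
    intro i hi
    rw [Finset.mem_range] at hi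
    rw [hG1 i (by omega), hu1 i hi]
  have hQ : ∀ t ≤ m, ∀ i, i + t ≤ m → G (m + 1 - t) (A (u i)) = 0 := by
    intro t
    induction t with
    | zero => intro _ i _; exact hGA _
    | succ t ih =>
      intro ht i hi
      rw [show m + 1 - (t + 1) = m - t by omega, ← hG1 (m - t) (by omega), ← hu1 i (by omega)]
      have := ih (by omega) (i + 1) (by omega)
      rwa [show m + 1 - t = m - t + 1 by omega] at this
  have hzero : ∀ j < m + 1, G (j + 1) (A (u 0)) = 0 := by
    intro j hj
    have := hQ (m - j) (by omega) 0 (by omega)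
    rwa [show m + 1 - (m - j) = j + 1 by omega] at this
  have hfix : e (A (u 0)) = A (u 0) := by
    rw [he, Finset.sum_range_succ', Finset.sum_eq_zero]
    · rw [hGA, h.AA, map_zero, zero_smul, zero_smul, hG0, hu0, hg2]
      simp
    · intro i hi
      rw [Finset.mem_range] at hi
      simp [h.AA, hzero i (by omega)]
  have hne : A (u 0) ≠ 0 := by
    intro h0
    rw [← hu0, h0, map_zero] at hg2
    exact zero_ne_one hg2
  have hinj := h.rigid e heA heB ⟨_, hne, hfix⟩
  have hsurj := LinearMap.injective_iff_surjective.1 hinj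
  have hW : range A ⊔ range B ≤ Submodule.span k {A (u 0)} ⊔ range B := by
    refine h.W_le_of_surj e heA heB hsurj _ ?_
    intro x hx
    have hx1 : A x = 0 := (h.sup_le_ker hx).1
    rw [he]
    refine Submodule.add_mem _ (Submodule.sum_mem _ ?_) ?_
    · intro i hi
      rw [Finset.mem_range] at hi
      rw [hx1, map_zero, zero_smul, zero_add]
      refine Submodule.smul_mem _ _ ?_
      cases i with
      | zero => exact Submodule.mem_sup_left (Submodule.mem_span_singleton_self _)
      | succ i =>
        rw [hu1 i (by omega)]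
        exact Submodule.mem_sup_right ⟨_, rfl⟩
    · exact Submodule.smul_mem _ _ (Submodule.mem_sup_right ⟨_, rfl⟩)
  exact (Submodule.finrank_mono hW).trans (finrank_span_singleton_sup_le _ _)

lemma sup_eq_rot (h : Sys A B C) : range B ⊔ range C = range A ⊔ range B := by
  apply le_antisymm
  · exact sup_le le_sup_right h.range_C_le
  · exact sup_le h.rot.range_C_le le_sup_left

/-- If the kernel of `A` is larger than `ker A ⊓ ker B`, we are in the regular or preinjective
case. -/
lemma dim_of_ker (h : Sys A B C) (hK : ¬ ker A ≤ ker B) :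
    (finrank k V = 2 * finrank k (range A ⊔ range B : Submodule k V) ∧
      finrank k (range A ⊓ range B ⊓ range C : Submodule k V) + 1 =
        finrank k (range A ⊔ range B : Submodule k V)) ∨
    (finrank k V = 2 * finrank k (range A ⊔ range B : Submodule k V) + 1 ∧
      finrank k (range A ⊓ range B ⊓ range C : Submodule k V) =
        finrank k (range A ⊔ range B : Submodule k V)) := by
  have hΦ1 : finrank k (range A ⊓ range B ⊓ range C : Submodule k V) ≤ finrank k (range A) :=
    Submodule.finrank_mono (inf_le_left.trans inf_le_left)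
  have hAW : finrank k (range A) ≤ finrank k (range A ⊔ range B : Submodule k V) :=
    Submodule.finrank_mono le_sup_left
  have hdim := LinearMap.finrank_range_add_finrank_ker A
  have hkA : finrank k (range A ⊔ range B : Submodule k V) < finrank k (ker A) := by
    apply Submodule.finrank_lt_finrank_of_lt
    refine lt_of_le_of_ne (h.sup_le_ker.trans inf_le_left) ?_
    intro heq
    apply hK
    rw [← heq]
    exact h.sup_le_ker.trans inf_le_right
  by_cases hr : ∃ n, ¬ sq B A ⊥ n ≤ range A
  · classical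
    have h0 : Nat.find hr ≠ 0 := by
      intro h0
      have := Nat.find_spec hr
      rw [h0] at this
      exact this bot_le
    obtain ⟨n, hn⟩ := Nat.exists_eq_succ_of_ne_zero h0
    have h1 := Nat.find_spec hr
    rw [hn] at h1
    have h2 : sq B A ⊥ n ≤ range A := by
      by_contra h2
      have := Nat.find_min' hr h2
      omega
    obtain ⟨r1, r2, r3⟩ := h.regular n h2 h1
    left
    omega
  · push Not at hr
    obtain ⟨j, hj⟩ := exists_sq_bot B A
    set D := sq B A ⊥ j with hD
    -- `D = B (A⁻¹ D)`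
    have hj' : (D.comap A).map B = D := hj
    have hDA : D ≤ range A := hr j
    have hAD : (D.comap A).map A = D := by
      rw [Submodule.map_comap_eq, inf_eq_right.2 hDA]
    have e1 := finrank_map_add A (D.comap A)
    have e2 := finrank_map_add B (D.comap A)
    rw [hAD] at e1
    rw [hj'] at e2
    have e3 : (D.comap A) ⊓ ker A = ker A := by
      rw [inf_eq_right]
      intro x hx
      rw [LinearMap.mem_ker] at hx
      rw [Submodule.mem_comap, hx]
      exact D.zero_mem
    rw [e3] at e1
    -- there is a vector in `ker B` not in `ker A` that is in `A⁻¹ D`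
    have h4 : ∃ v, B v = 0 ∧ A v ∈ D ∧ A v ≠ 0 := by
      by_contra hcon
      push Not at hcon
      have h5 : (D.comap A) ⊓ ker B ≤ ker A ⊓ ker B := by
        rintro x ⟨hx1, hx2⟩
        exact ⟨hcon x hx2 hx1, hx2⟩
      have h6 : ker A ⊓ ker B < ker A := by
        refine lt_of_le_of_ne inf_le_left ?_
        intro heq
        exact hK (inf_eq_left.1 heq)
      have h7 := Submodule.finrank_mono h5
      have h8 := Submodule.finrank_lt_finrank_of_lt h6
      omega
    obtain ⟨v, hv1, hv2, hv3⟩ := h4
    -- descend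
    have key : ∀ j i, ∀ w, w ≠ 0 → w ∈ sq B A ⊥ j → w ∈ sq A B ⊥ i →
        ∃ u i', A u = 0 ∧ B u ≠ 0 ∧ B u ∈ sq A B ⊥ i' := by
      intro j
      induction j with
      | zero =>
        intro i w hw hw1
        exact absurd ((Submodule.mem_bot k).1 hw1) hw
      | succ j ih =>
        rintro i w hw ⟨x, hx, rfl⟩ hw2
        by_cases hAx : A x = 0
        · exact ⟨x, i, hAx, hw, hw2⟩
        · exact ih (i + 1) (A x) hAx hx ⟨x, hw2, rfl⟩
    obtain ⟨u, i', hu1, hu2, hu3⟩ := key j 1 (A v) hv3 hv2 ⟨v, by
      show B v ∈ (⊥ : Submodule k V)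
      rw [hv1]; exact Submodule.zero_mem _, rfl⟩
    -- minimal index
    classical
    let P : ℕ → Prop := fun i => ∃ u, A u = 0 ∧ B u ≠ 0 ∧ B u ∈ sq A B ⊥ i
    have hP : ∃ i, P i := ⟨i', u, hu1, hu2, hu3⟩
    have h0 : Nat.find hP ≠ 0 := by
      intro h0
      obtain ⟨u, hu1, hu2, hu3⟩ := Nat.find_spec hP
      rw [h0] at hu3
      exact hu2 ((Submodule.mem_bot k).1 hu3)
    obtain ⟨m, hm⟩ := Nat.exists_eq_succ_of_ne_zero h0
    obtain ⟨u, hu1, hu2, hu3⟩ := Nat.find_spec hP
    rw [hm] at hu3
    obtain ⟨r1, r2⟩ := h.preinjective m u hu1 hu3 (by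
      intro h10
      have := Nat.find_min' hP (m := m) ⟨u, hu1, hu2, h10⟩
      omega)
    right
    omega

lemma types_of_ker (h : Sys A B C) (hK : ¬ ker A ≤ ker B) :
    Types (finrank k V) (finrank k (range A ⊔ range B : Submodule k V))
      (finrank k (range A ⊓ range B ⊓ range C : Submodule k V)) := by
  rcases h.dim_of_ker hK with ⟨h1, h2⟩ | ⟨h1, h2⟩
  · exact Or.inr (Or.inr (Or.inl ⟨h1, h2⟩))
  · exact Or.inr (Or.inr (Or.inr (Or.inl ⟨h1, h2⟩)))

/-- The main theorem on dimensions. -/
theorem types (h : Sys A B C) :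
    Types (finrank k V) (finrank k (range A ⊔ range B : Submodule k V))
      (finrank k (range A ⊓ range B ⊓ range C : Submodule k V)) := by
  have hΦW : finrank k (range A ⊓ range B ⊓ range C : Submodule k V) ≤
      finrank k (range A ⊔ range B : Submodule k V) :=
    Submodule.finrank_mono ((inf_le_left.trans inf_le_left).trans le_sup_left)
  rcases Nat.lt_or_ge 1 (finrank k V) with hd | hd
  swap
  · -- dimension at most one
    have hker : range A ⊔ range B ≤ ker A ⊓ ker B := h.sup_le_ker
    have dA := LinearMap.finrank_range_add_finrank_ker A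
    have dB := LinearMap.finrank_range_add_finrank_ker B
    have l1 : finrank k (range A) ≤ finrank k (ker A) :=
      Submodule.finrank_mono (le_sup_left.trans (hker.trans inf_le_left))
    have l2 : finrank k (range B) ≤ finrank k (ker B) :=
      Submodule.finrank_mono (le_sup_right.trans (hker.trans inf_le_right))
    have l3 := Submodule.finrank_add_le_finrank_add_finrank (range A) (range B)
    have hw : finrank k (range A ⊔ range B : Submodule k V) = 0 := by omega
    rcases Nat.eq_zero_or_pos (finrank k V) with h0 | h0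
    · right; left; omega
    · left; omega
  have hS : ker A ⊓ ker B ≤ range A ⊔ range B := h.ker_le hd
  by_cases hA : ker A ≤ ker B
  swap
  · exact h.types_of_ker hA
  by_cases hB : ker B ≤ ker C
  swap
  · have := h.rot.types_of_ker hB
    have e : range B ⊓ range C ⊓ range A = range A ⊓ range B ⊓ range C := by
      rw [inf_comm, ← inf_assoc]
    rw [e, h.sup_eq_rot] at this
    exact this
  by_cases hC : ker C ≤ ker A
  swap
  · have := h.rot.rot.types_of_ker hC
    have e : range C ⊓ range A ⊓ range B = range A ⊓ range B ⊓ range C := by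
      rw [inf_assoc, inf_comm]
    rw [e, h.rot.sup_eq_rot, h.sup_eq_rot] at this
    exact this
  -- all kernels are equal to `W = range A ⊔ range B`
  have kA : ker A = range A ⊔ range B := le_antisymm
    (le_trans (le_inf le_rfl hA) hS) (h.sup_le_ker.trans inf_le_left)
  have kB : ker B = range A ⊔ range B := le_antisymm
    (le_trans (le_inf (hB.trans hC) le_rfl) hS) (h.sup_le_ker.trans inf_le_right)
  have kC : ker C = range A ⊔ range B := le_antisymm
    (hC.trans kA.le) (kB.symm.le.trans hB)
  have dA := LinearMap.finrank_range_add_finrank_ker A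
  have dB := LinearMap.finrank_range_add_finrank_ker B
  have dC := LinearMap.finrank_range_add_finrank_ker C
  rw [kA] at dA
  rw [kB] at dB
  rw [kC] at dC
  have s1 := Submodule.finrank_sup_add_finrank_inf_eq (range A) (range B)
  have s2 := Submodule.finrank_sup_add_finrank_inf_eq (range A ⊓ range B) (range C)
  have s3 : finrank k ((range A ⊓ range B) ⊔ range C : Submodule k V) ≤
      finrank k (range A ⊔ range B : Submodule k V) := by
    apply Submodule.finrank_mono
    exact sup_le (inf_le_left.trans le_sup_left) h.range_C_le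
  have s4 : finrank k (range B) ≤ finrank k (range A ⊔ range B : Submodule k V) :=
    Submodule.finrank_mono le_sup_right
  by_cases hWB : range A ⊔ range B ≤ range B
  · have := Submodule.finrank_mono hWB
    right; left
    omega
  -- the preprojective case
  have hex : ∃ j, ¬ range A ⊔ range B ≤ range B ⊔ sq A B ⊤ j := by
    obtain ⟨j, hj⟩ := exists_sq_top A B
    refine ⟨j, ?_⟩
    set D := sq A B ⊤ j with hD
    have hj' : (D.comap B).map A = D := hj
    have e1 := finrank_map_add A (D.comap B)
    have e2 := finrank_map_add B (D.comap B)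
    rw [hj'] at e1
    rw [Submodule.map_comap_eq] at e2
    have e3 : (D.comap B) ⊓ ker B = ker B := by
      rw [inf_eq_right]
      intro x hx
      rw [LinearMap.mem_ker] at hx
      rw [Submodule.mem_comap, hx]
      exact D.zero_mem
    have e4 : (D.comap B) ⊓ ker A = ker B := by rw [kA, ← kB, e3]
    rw [e3] at e2
    rw [e4] at e1
    have e5 : range B ⊓ D = D := by
      apply Submodule.eq_of_le_of_finrank_eq inf_le_right
      omega
    have e6 : D ≤ range B := inf_eq_right.1 e5
    rw [sup_eq_left.2 e6]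
    exact hWB
  classical
  have h0 : Nat.find hex ≠ 0 := by
    intro h0
    have := Nat.find_spec hex
    rw [h0] at this
    apply this
    show _ ≤ range B ⊔ ⊤
    rw [sup_top_eq]
    exact le_top
  have h1 : Nat.find hex ≠ 1 := by
    intro h1
    have := Nat.find_spec hex
    rw [h1] at this
    apply this
    have e : sq A B ⊤ 1 = range A := by
      show (Submodule.comap B ⊤).map A = _
      rw [Submodule.comap_top, Submodule.map_top]
    rw [e, sup_comm]
  obtain ⟨m, hm⟩ : ∃ m, Nat.find hex = m + 2 := ⟨Nat.find hex - 2, by omega⟩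
  have h2 := Nat.find_spec hex
  rw [hm] at h2
  have h3 : range A ⊔ range B ≤ range B ⊔ sq A B ⊤ (m + 1) := by
    by_contra h4
    have := Nat.find_min' hex h4
    omega
  have h4 := h.preprojective m h3 h2
  have h5 : finrank k (range B) < finrank k (range A ⊔ range B : Submodule k V) := by
    apply Submodule.finrank_lt_finrank_of_lt
    exact lt_of_le_of_ne le_sup_right (fun heq => hWB heq.symm.le)
  right; right; right; right
  omega

/-- The main bound: `dim V ≤ 2 dim Φ + 5`. -/
theorem finrank_le (h : Sys A B C) :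
    finrank k V ≤ 2 * finrank k (range A ⊓ range B ⊓ range C : Submodule k V) + 5 := by
  rcases h.types with h | h | h | h | h <;> omega

end Sys

end Pool.Agent.Helper25.Kron
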