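import Pool.Agent.Helper25.Bound

/-!
# The bounds for real and imaginary biquadratic fields
-/

namespace Pool.Agent.Helper25.Biq

open Module NumberField
open scoped nonZeroDivisors

lemma rank_quad_of_real {F : Type*} [Field F] [NumberField F] (hF : finrank ℚ F = 2)
    {φ : F →+* ℂ} (hφ : ComplexEmbedding.IsReal φ) : 1 ≤ Units.rank F := by
  have h1 := InfinitePlace.card_add_two_mul_card_eq_rank F
  have h2 : Fintype.card (InfinitePlace F) = InfinitePlace.nrRealPlaces F +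
      InfinitePlace.nrComplexPlaces F := InfinitePlace.card_eq_nrRealPlaces_add_nrComplexPlaces F
  have h3 : 0 < InfinitePlace.nrRealPlaces F := by
    classical
    exact Fintype.card_pos_iff.2 ⟨⟨InfinitePlace.mk φ, InfinitePlace.isReal_mk_iff.2 hφ⟩⟩
  rw [Units.rank]
  omega

variable {K : Type*} [Field K] [NumberField K] [IsGalois ℚ K] {σ τ ρ : K ≃ₐ[ℚ] K}

/-- The triple intersection in the quotient by the units. -/
noncomputable def Q3 (σ τ ρ : K ≃ₐ[ℚ] K) : Submodule (ZMod 2) (SqCl K ⧸ UCl K) :=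
  (B σ).map (UCl K).mkQ ⊓ (B τ).map (UCl K).mkQ ⊓ (B ρ).map (UCl K).mkQ

lemma neg_one_ne_zero_of_real {φ : K →+* ℂ} (hφ : ComplexEmbedding.IsReal φ) :
    sc (-1 : K) ≠ 0 := by
  intro h0
  obtain ⟨b, hb⟩ := (sc_eq_zero (neg_ne_zero.2 one_ne_zero)).1 h0
  have h1 := congrArg hφ.embedding hb
  rw [map_neg, map_one, map_pow] at h1
  have h2 := sq_nonneg (hφ.embedding b)
  rw [← h1] at h2
  norm_num at h2

/-- The real case. -/
theorem real_bound (h : V4 σ τ ρ) {φ : K →+* ℂ} (hφ : ComplexEmbedding.IsReal φ) :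
    FiniteDimensional (ZMod 2) (Q3 σ τ ρ) ∧ finrank (ZMod 2) (Q3 σ τ ρ) ≤ 5 := by
  obtain ⟨fd0, hb0⟩ := finrank_B_inf h
  obtain ⟨fdQ, hcount⟩ := Kron.count (UCl K) (B σ) (B τ) (B ρ)
  refine ⟨fdQ, ?_⟩
  have hE := (finrank_UCl_le K).2
  have hrk := rank_le K
  rw [finrank_four h] at hrk
  have hE4 : finrank (ZMod 2) (UCl K) ≤ 4 := hE.trans hrk
  have hn := neg_one_ne_zero_of_real hφ
  have le1 : finrank (ZMod 2) (UCl K ⊓ (B σ ⊔ B τ) : Submodule (ZMod 2) (SqCl K)) ≤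
      finrank (ZMod 2) (UCl K) := Submodule.finrank_mono inf_le_left
  have le2 : finrank (ZMod 2) (UCl K ⊓ (B σ ⊔ B ρ) : Submodule (ZMod 2) (SqCl K)) ≤
      finrank (ZMod 2) (UCl K) := Submodule.finrank_mono inf_le_left
  have hrank : ∀ g : K ≃ₐ[ℚ] K, finrank ℚ (fx g) = 2 → 1 ≤ Units.rank (fx g) := fun g hg =>
    rank_quad_of_real hg (hφ.comp (algebraMap (fx g) K))
  obtain ⟨u1, hu1⟩ := exists_good (hrank σ (finrank_fx_two h))
  obtain ⟨u2, hu2⟩ := exists_good (hrank τ (finrank_fx_two h.rot))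
  obtain ⟨u3, hu3⟩ := exists_good (hrank ρ (finrank_fx_two h.rot.rot))
  have o1 := one_le σ hn
  have o2 := one_le τ hn
  have o3 := one_le ρ hn
  have hfin : finrank (ZMod 2) (Q3 σ τ ρ) = finrank (ZMod 2)
    ((B σ).map (UCl K).mkQ ⊓ (B τ).map (UCl K).mkQ ⊓ (B ρ).map (UCl K).mkQ :
      Submodule (ZMod 2) (SqCl K ⧸ UCl K)) := rfl
  rw [hfin]
  -- each class that becomes trivial costs one dimension
  obtain ⟨x3, p3, q3⟩ : ∃ x3 : ℕ, 2 ≤ finrank (ZMod 2) (UCl K ⊓ B ρ : Submodule (ZMod 2) (SqCl K))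
      + x3 ∧ finrank (ZMod 2) (UCl K ⊓ (B σ ⊔ B ρ) : Submodule (ZMod 2) (SqCl K)) + x3 ≤
        finrank (ZMod 2) (UCl K) := by
    by_cases a3 : scU (uMap ρ u3) ∈ Submodule.span (ZMod 2) {sc (-1 : K)}
    · obtain ⟨v3, hv3, -⟩ := exists_eta h.r1 h.rr hu3 a3
      exact ⟨1, by omega, pair_one h.swap.rot (v := v3) (fun hh => hv3 hh.2)⟩
    · exact ⟨0, two_le ρ hn a3, le2⟩
  obtain ⟨x1, x2, p1, p2, q12⟩ : ∃ x1 x2 : ℕ,
      2 ≤ finrank (ZMod 2) (UCl K ⊓ B σ : Submodule (ZMod 2) (SqCl K)) + x1 ∧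
      2 ≤ finrank (ZMod 2) (UCl K ⊓ B τ : Submodule (ZMod 2) (SqCl K)) + x2 ∧
      finrank (ZMod 2) (UCl K ⊓ (B σ ⊔ B τ) : Submodule (ZMod 2) (SqCl K)) + x1 + x2 ≤
        finrank (ZMod 2) (UCl K) := by
    by_cases a1 : scU (uMap σ u1) ∈ Submodule.span (ZMod 2) {sc (-1 : K)}
    · obtain ⟨v1, hv1, hv1'⟩ := exists_eta h.s1 h.ss hu1 a1
      by_cases a2 : scU (uMap τ u2) ∈ Submodule.span (ZMod 2) {sc (-1 : K)}
      · obtain ⟨v2, hv2, -⟩ := exists_eta h.t1 h.tt hu2 a2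
        have k12 : scU v1 ∈ K1 τ := eta_mem_other h hφ.embedding hv1'
        exact ⟨1, 1, by omega, by omega, pair_two h hv1 k12 hv2⟩
      · exact ⟨1, 0, by omega, two_le τ hn a2, pair_one h (v := v1) (fun hh => hv1 hh.1)⟩
    · by_cases a2 : scU (uMap τ u2) ∈ Submodule.span (ZMod 2) {sc (-1 : K)}
      · obtain ⟨v2, hv2, -⟩ := exists_eta h.t1 h.tt hu2 a2
        exact ⟨0, 1, two_le σ hn a1, by omega, pair_one h (v := v2) (fun hh => hv2 hh.2)⟩
      · exact ⟨0, 0, two_le σ hn a1, two_le τ hn a2, le1⟩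
  omega

/-- A choice of the three automorphisms such that the fixed field of the first is real. -/
lemma exists_V4_complex [IsKleinFour (K ≃ₐ[ℚ] K)] (hK : IsTotallyComplex K) :
    ∃ σ τ ρ : K ≃ₐ[ℚ] K, V4 σ τ ρ ∧ ∃ ψ : fx σ →+* ℂ, ComplexEmbedding.IsReal ψ := by
  obtain ⟨σ, τ, ρ, h⟩ := exists_V4 (K := K)
  obtain ⟨φ⟩ : Nonempty (K →+* ℂ) := inferInstance
  have hφ : ¬ ComplexEmbedding.IsReal φ := by
    intro hr
    have h1 := hK.isComplex (InfinitePlace.mk φ)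
    exact InfinitePlace.not_isReal_iff_isComplex.2 h1 (InfinitePlace.isReal_mk_iff.2 hr)
  obtain ⟨c, hc⟩ := ComplexEmbedding.exists_comp_symm_eq_of_comp_eq (k := ℚ) φ
    (ComplexEmbedding.conjugate φ) (by
      apply RingHom.ext
      intro q
      simp)
  have hc1 : c ≠ 1 := by
    rintro rfl
    apply hφ
    rw [ComplexEmbedding.isReal_iff, ← hc]
    rfl
  have hcr : ComplexEmbedding.IsReal (φ.comp (algebraMap (fx c) K)) := by
    rw [ComplexEmbedding.isReal_iff]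
    apply RingHom.ext
    intro x
    have h1 := congrArg (fun f : K →+* ℂ => f (x : K)) hc
    simp only [RingHom.comp_apply] at h1
    have h2 : c.symm (x : K) = x := by
      rw [AlgEquiv.symm_apply_eq]
      exact (apply_fx x).symm
    have h3 : φ (c.symm (x : K)) = ComplexEmbedding.conjugate φ x := h1
    rw [h2] at h3
    show (starRingEnd ℂ) (φ (x : K)) = φ (x : K)
    exact h3.symm
  rcases h.all c with h1 | h1 | h1 | h1
  · exact absurd h1 hc1
  · subst h1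
    exact ⟨c, τ, ρ, h, _, hcr⟩
  · subst h1
    exact ⟨c, ρ, σ, h.rot, _, hcr⟩
  · subst h1
    exact ⟨c, σ, τ, h.rot.rot, _, hcr⟩

/-- The imaginary case, without `√-1`. -/
theorem complex_bound_one (h : V4 σ τ ρ) (hE2 : finrank (ZMod 2) (UCl K) ≤ 2)
    (hrk : 1 ≤ Units.rank (fx σ)) (hn : sc (-1 : K) ≠ 0) :
    FiniteDimensional (ZMod 2) (Q3 σ τ ρ) ∧ finrank (ZMod 2) (Q3 σ τ ρ) ≤ 3 := by
  obtain ⟨fd0, hb0⟩ := finrank_B_inf h
  obtain ⟨fdQ, hcount⟩ := Kron.count (UCl K) (B σ) (B τ) (B ρ)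
  refine ⟨fdQ, ?_⟩
  have le1 : finrank (ZMod 2) (UCl K ⊓ (B σ ⊔ B τ) : Submodule (ZMod 2) (SqCl K)) ≤
      finrank (ZMod 2) (UCl K) := Submodule.finrank_mono inf_le_left
  have le2 : finrank (ZMod 2) (UCl K ⊓ (B σ ⊔ B ρ) : Submodule (ZMod 2) (SqCl K)) ≤
      finrank (ZMod 2) (UCl K) := Submodule.finrank_mono inf_le_left
  obtain ⟨u1, hu1⟩ := exists_good hrk
  have o1 := one_le σ hn
  have o2 := one_le τ hn
  have o3 := one_le ρ hn
  have hfin : finrank (ZMod 2) (Q3 σ τ ρ) = finrank (ZMod 2)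
    ((B σ).map (UCl K).mkQ ⊓ (B τ).map (UCl K).mkQ ⊓ (B ρ).map (UCl K).mkQ :
      Submodule (ZMod 2) (SqCl K ⧸ UCl K)) := rfl
  rw [hfin]
  by_cases a1 : scU (uMap σ u1) ∈ Submodule.span (ZMod 2) {sc (-1 : K)}
  · obtain ⟨v1, hv1, -⟩ := exists_eta h.s1 h.ss hu1 a1
    have h1 := pair_one h (v := v1) (fun hh => hv1 hh.1)
    omega
  · have h1 := two_le σ hn a1
    omega

/-- The square root of `-1` is not a square in a quadratic field. -/
lemma i_good (h : V4 σ τ ρ) {i : K} (hi : i ^ 2 = -1) (hσ : σ i = -i) (hτ : τ i = i) :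
    ∃ u : (𝓞 (fx τ))ˣ, scU u ∉ Submodule.span (ZMod 2) {sc (-1 : fx τ)} := by
  have hi0 : i ≠ 0 := by
    rintro rfl
    norm_num at hi
  set I : fx τ := ⟨i, mem_fx.2 hτ⟩ with hI
  have hI2 : I ^ 2 = -1 := by
    apply (algebraMap (fx τ) K).injective
    rw [map_pow, map_neg, map_one]
    exact hi
  have hint : IsIntegral ℤ I := by
    refine ⟨Polynomial.X ^ 2 - Polynomial.C (-1), Polynomial.monic_X_pow_sub_C (-1) two_ne_zero, ?_⟩
    simp [hI2]
  let I' : 𝓞 (fx τ) := ⟨I, hint⟩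
  have hI'2 : I' * (-I') = 1 := by
    apply RingOfIntegers.coe_injective
    have : algebraMap (𝓞 (fx τ)) (fx τ) I' = I := rfl
    rw [map_mul, map_neg, map_one, this]
    linear_combination -hI2
  let u : (𝓞 (fx τ))ˣ := ⟨I', -I', hI'2, by rw [mul_comm]; exact hI'2⟩
  refine ⟨u, ?_⟩
  intro hmem
  have hn : sc (-1 : fx τ) = 0 := by
    rw [sc_eq_zero (neg_ne_zero.2 one_ne_zero)]
    exact ⟨I, hI2.symm⟩
  rw [hn] at hmem
  have hu0 : scU u = 0 := by
    rcases mem_span_single hmem with h1 | h1 <;> exact h1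
  obtain ⟨s, hs⟩ := exists_unit_sqrt hu0
  set z : K := algebraMap (fx τ) K (algebraMap (𝓞 (fx τ)) (fx τ) s) with hz
  have hz2 : z ^ 2 = i := by
    have h1 := congrArg (fun w : (𝓞 (fx τ))ˣ =>
      algebraMap (fx τ) K (algebraMap (𝓞 (fx τ)) (fx τ) (w : 𝓞 (fx τ)))) hs
    simp only [Units.val_pow_eq_pow_val, map_pow] at h1
    exact h1
  have hτz : τ z = z := apply_fx _
  have hσz2 : (σ z) ^ 2 = -i := by rw [← map_pow, hz2, hσ]
  have hprod : (z * σ z) ^ 2 = 1 := by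
    rw [mul_pow, hz2, hσz2]; linear_combination -hi
  obtain ⟨q, hq⟩ := exists_rat h (x := z + σ z) (by rw [map_add, h.hss]; ring)
    (by rw [map_add, hτz, h.hts, ← h.hst, hτz])
  -- `z * σ z = δ`, `z + σ z = q`
  have hδ : ∃ δ : ℚ, (δ = 1 ∨ δ = -1) ∧ z * σ z = algebraMap ℚ K δ := by
    have h1 : (z * σ z) ^ 2 = 1 ^ 2 := by rw [hprod, one_pow]
    rcases sq_eq_sq_iff_eq_or_eq_neg.1 h1 with h2 | h2
    · exact ⟨1, Or.inl rfl, by rw [h2]; simp⟩
    · exact ⟨-1, Or.inr rfl, by rw [h2]; simp⟩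
  obtain ⟨δ, hδ, hzδ⟩ := hδ
  have hi1 : i = algebraMap ℚ K q * z - algebraMap ℚ K δ := by
    rw [← hz2, hq, ← hzδ]; ring
  -- apply `σ` : `-i = q σ z - δ`
  have h3 : -i = algebraMap ℚ K q * σ z - algebraMap ℚ K δ := by
    have := congrArg σ hi1
    rwa [map_sub, map_mul, AlgEquiv.commutes, AlgEquiv.commutes, hσ] at this
  have h4 : algebraMap ℚ K (q ^ 2 - 2 * δ) = 0 := by
    have h5 : (0 : K) = algebraMap ℚ K q * (z + σ z) - 2 * algebraMap ℚ K δ := by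
      linear_combination hi1 + h3
    rw [← hq] at h5
    rw [map_sub, map_pow, map_mul, h5]
    simp
    ring
  have h5 : q ^ 2 - 2 * δ = 0 := (map_eq_zero _).1 h4
  rcases hδ with rfl | rfl
  · have h6 : q ^ 2 = 2 := by linear_combination h5
    have h7 : Irrational (Real.sqrt 2) := irrational_sqrt_two
    apply h7
    refine ⟨|q|, ?_⟩
    have h8 : ((q : ℝ)) ^ 2 = 2 := by exact_mod_cast h6
    rw [← h8, Real.sqrt_sq_eq_abs]
    push_cast
    rfl
  · have h6 : q ^ 2 = -2 := by linear_combination h5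
    have h7 := sq_nonneg q
    rw [h6] at h7
    norm_num at h7

/-- The imaginary case, with `√-1`. -/
theorem complex_bound_two (h : V4 σ τ ρ) (hE2 : finrank (ZMod 2) (UCl K) ≤ 2)
    (hrk : 1 ≤ Units.rank (fx σ)) {i : K} (hi : i ^ 2 = -1) (hσ : σ i = -i) (hτ : τ i = i) :
    FiniteDimensional (ZMod 2) (Q3 σ τ ρ) ∧ finrank (ZMod 2) (Q3 σ τ ρ) ≤ 3 := by
  have hρ : ρ i = -i := by rw [← h.hst, hτ, hσ]
  obtain ⟨fd0, hb0⟩ := finrank_B_inf_of_sq h hi hσ hρ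
  obtain ⟨fdQ, hcount⟩ := Kron.count (UCl K) (B σ) (B τ) (B ρ)
  refine ⟨fdQ, ?_⟩
  have le1 : finrank (ZMod 2) (UCl K ⊓ (B σ ⊔ B τ) : Submodule (ZMod 2) (SqCl K)) ≤
      finrank (ZMod 2) (UCl K) := Submodule.finrank_mono inf_le_left
  have le2 : finrank (ZMod 2) (UCl K ⊓ (B σ ⊔ B ρ) : Submodule (ZMod 2) (SqCl K)) ≤
      finrank (ZMod 2) (UCl K) := Submodule.finrank_mono inf_le_left
  obtain ⟨u1, hu1⟩ := exists_good hrk
  obtain ⟨u2, hu2⟩ := i_good h hi hσ hτ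
  have hfin : finrank (ZMod 2) (Q3 σ τ ρ) = finrank (ZMod 2)
    ((B σ).map (UCl K).mkQ ⊓ (B τ).map (UCl K).mkQ ⊓ (B ρ).map (UCl K).mkQ :
      Submodule (ZMod 2) (SqCl K ⧸ UCl K)) := rfl
  rw [hfin]
  have fd1 : FiniteDimensional (ZMod 2) (UCl K ⊓ B σ : Submodule (ZMod 2) (SqCl K)) :=
    Submodule.finiteDimensional_of_le inf_le_left
  have fd2 : FiniteDimensional (ZMod 2) (UCl K ⊓ B τ : Submodule (ZMod 2) (SqCl K)) :=
    Submodule.finiteDimensional_of_le inf_le_left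
  by_cases a1 : scU (uMap σ u1) ∈ Submodule.span (ZMod 2) {sc (-1 : K)}
  · obtain ⟨v1, hv1, -⟩ := exists_eta h.s1 h.ss hu1 a1
    have h1 := pair_one h (v := v1) (fun hh => hv1 hh.1)
    have h2 := pair_one h.swap.rot (v := v1) (fun hh => hv1 hh.1)
    omega
  · have h1 : 1 ≤ finrank (ZMod 2) (UCl K ⊓ B σ : Submodule (ZMod 2) (SqCl K)) :=
      one_le_of_ne _ (scU_uMap_mem σ u1) (by
        intro h0; apply a1; rw [h0]; exact Submodule.zero_mem _)
    by_cases a2 : scU (uMap τ u2) ∈ Submodule.span (ZMod 2) {sc (-1 : K)}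
    · obtain ⟨v2, hv2, -⟩ := exists_eta h.t1 h.tt hu2 a2
      have h2 := pair_one h (v := v2) (fun hh => hv2 hh.2)
      omega
    · have h2 : 1 ≤ finrank (ZMod 2) (UCl K ⊓ B τ : Submodule (ZMod 2) (SqCl K)) :=
        one_le_of_ne _ (scU_uMap_mem τ u2) (by
          intro h0; apply a2; rw [h0]; exact Submodule.zero_mem _)
      omega

/-- Existence of a good choice of the three automorphisms. -/
theorem exists_bound [IsKleinFour (K ≃ₐ[ℚ] K)] :
    ∃ σ τ ρ : K ≃ₐ[ℚ] K, V4 σ τ ρ ∧ FiniteDimensional (ZMod 2) (Q3 σ τ ρ) ∧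
      finrank (ZMod 2) (Q3 σ τ ρ) ≤ 5 ∧
      (IsTotallyComplex K → finrank (ZMod 2) (Q3 σ τ ρ) ≤ 3) := by
  by_cases hK : IsTotallyComplex K
  · obtain ⟨σ, τ, ρ, h, ψ, hψ⟩ := exists_V4_complex hK
    have hrk : 1 ≤ Units.rank (fx σ) := rank_quad_of_real (finrank_fx_two h) hψ
    have h0 : InfinitePlace.nrRealPlaces K = 0 := nrRealPlaces_eq_zero_iff.2 hK
    have h1 := rank_le_of_complex K h0
    rw [finrank_four h] at h1
    have hE2 : finrank (ZMod 2) (UCl K) ≤ 2 := (finrank_UCl_le K).2.trans (by omega)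
    by_cases hn : sc (-1 : K) = 0
    · obtain ⟨i, hi⟩ := (sc_eq_zero (neg_ne_zero.2 one_ne_zero)).1 hn
      have hi' : i ^ 2 = -1 := hi.symm
      have hpm : ∀ g : K ≃ₐ[ℚ] K, g i = i ∨ g i = -i := by
        intro g
        apply sq_eq_sq_iff_eq_or_eq_neg.1
        rw [← map_pow, hi', map_neg, map_one]
      have hσi : σ i = -i := by
        rcases hpm σ with h2 | h2
        · exfalso
          have h3 : (⟨i, mem_fx.2 h2⟩ : fx σ) ^ 2 = -1 := by
            apply (algebraMap (fx σ) K).injective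
            rw [map_pow, map_neg, map_one]
            exact hi'
          have h4 := congrArg hψ.embedding h3
          rw [map_neg, map_one, map_pow] at h4
          have h5 := sq_nonneg (hψ.embedding ⟨i, mem_fx.2 h2⟩)
          rw [h4] at h5
          norm_num at h5
        · exact h2
      rcases hpm τ with h2 | h2
      · obtain ⟨fd, hle⟩ := complex_bound_two h hE2 hrk hi' hσi h2
        exact ⟨σ, τ, ρ, h, fd, by omega, fun _ => hle⟩
      · have h3 : ρ i = i := by rw [← h.hst, h2, map_neg, hσi, neg_neg]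
        obtain ⟨fd, hle⟩ := complex_bound_two h.swap.rot hE2 hrk hi' hσi h3
        exact ⟨σ, ρ, τ, h.swap.rot, fd, by omega, fun _ => hle⟩
    · obtain ⟨fd, hle⟩ := complex_bound_one h hE2 hrk hn
      exact ⟨σ, τ, ρ, h, fd, by omega, fun _ => hle⟩
  · obtain ⟨σ, τ, ρ, h⟩ := exists_V4 (K := K)
    have : ∃ w : InfinitePlace K, w.IsReal := by
      by_contra hcon
      push Not at hcon
      exact hK ⟨fun w => InfinitePlace.not_isReal_iff_isComplex.1 (hcon w)⟩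
    obtain ⟨w, hw⟩ := this
    obtain ⟨fd, hle⟩ := real_bound h (InfinitePlace.isReal_iff.1 hw)
    exact ⟨σ, τ, ρ, h, fd, hle, fun hh => absurd hh hK⟩

end Pool.Agent.Helper25.Biq
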