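import Mathlib
import Pool.Agent.Helper25.RealBound
import Pool.Agent.Helper25.Kron

/-!
# The norm relation on the 2-torsion of the class group, and the main bound
-/

namespace Pool.Agent.Helper25.Biq

open Module NumberField
open scoped nonZeroDivisors

section functoriality

variable {K : Type*} [Field K] [NumberField K]

lemma actCl_mul (σ τ : K ≃ₐ[ℚ] K) (x : ClassGroup (𝓞 K)) :
    actCl (σ * τ) x = actCl σ (actCl τ x) := by
  obtain ⟨I, rfl⟩ := ClassGroup.mk0_surjective x
  rw [actCl, actCl, actCl, mulEquiv_mk0, mulEquiv_mk0, mulEquiv_mk0]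
  congr 1
  apply Subtype.ext
  show _ = (((I : Ideal (𝓞 K)).map (oAut τ : 𝓞 K →+* 𝓞 K))).map (oAut σ : 𝓞 K →+* 𝓞 K)
  rw [Ideal.map_map]
  rfl

lemma actCl_one (x : ClassGroup (𝓞 K)) : actCl (1 : K ≃ₐ[ℚ] K) x = x := by
  apply (actCl (1 : K ≃ₐ[ℚ] K)).injective
  rw [← actCl_mul, mul_one]

lemma act_mul (σ τ : K ≃ₐ[ℚ] K) (x : TT K) : act (σ * τ) x = act σ (act τ x) :=
  TT.val_injective (actCl_mul σ τ x.val)

lemma act_one (x : TT K) : act (1 : K ≃ₐ[ℚ] K) x = x :=
  TT.val_injective (actCl_one x.val)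

lemma TT.add_self (x : TT K) : x + x = 0 := by
  have : (2 : ZMod 2) • x = 0 := by
    have h2 : (2 : ZMod 2) = 0 := rfl
    rw [h2, zero_smul]
  rwa [two_smul] at this

end functoriality

variable {K : Type*} [Field K] [NumberField K] [IsGalois ℚ K] {σ τ ρ : K ≃ₐ[ℚ] K}

/-- The norm relation. -/
lemma norm_rel (h : V4 σ τ ρ) (x : TT K) : x + act σ x + act τ x + act ρ x = 0 := by
  apply toQ_injective
  obtain ⟨I, a, ha, hI, hx⟩ := exists_rep x
  rw [map_add, map_add, map_add, toQ_eq ha hI hx, toQ_act ha hI hx, toQ_act ha hI hx,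
    toQ_act ha hI hx, map_zero, ← map_add, ← map_add, ← map_add]
  set A : K := algebraMap (𝓞 K) K a with hA
  have hA0 : A ≠ 0 := alg_ne_zero ha
  have hσA : σ A ≠ 0 := (map_ne_zero_iff _ σ.injective).2 hA0
  have hτA : τ A ≠ 0 := (map_ne_zero_iff _ τ.injective).2 hA0
  have hρA : ρ A ≠ 0 := (map_ne_zero_iff _ ρ.injective).2 hA0
  rw [← sc_mul hA0 hσA, ← sc_mul (mul_ne_zero hA0 hσA) hτA,
    ← sc_mul (mul_ne_zero (mul_ne_zero hA0 hσA) hτA) hρA]
  rw [Submodule.mkQ_apply, Submodule.Quotient.mk_eq_zero]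
  -- the product is an integer
  obtain ⟨q, hq⟩ := exists_rat h (x := A * σ A * τ A * ρ A)
    (by rw [map_mul, map_mul, map_mul, h.hss, h.hst, h.hsr]; ring)
    (by rw [map_mul, map_mul, map_mul, h.hts, h.swap.hss, h.swap.hsr]; ring)
  have h1 : algebraMap (𝓞 K) K (a * oAut σ a * oAut τ a * oAut ρ a) = algebraMap ℚ K q := by
    rw [hq, map_mul, map_mul, map_mul, algebraMap_oAut, algebraMap_oAut, algebraMap_oAut]
  obtain ⟨m, hm⟩ := exists_int_of_rat h1
  have h2 : a * oAut σ a * oAut τ a * oAut ρ a = (m : 𝓞 K) := by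
    apply RingOfIntegers.coe_injective
    rw [h1, hm, map_intCast, map_intCast]
  have hn1 : Ideal.absNorm (Ideal.span {a}) = Ideal.absNorm (I : Ideal (𝓞 K)) ^ 2 := by
    rw [← hI, map_pow]
  have hn2 : ∀ g : K ≃ₐ[ℚ] K, Ideal.absNorm (Ideal.span {oAut g a}) =
      Ideal.absNorm (Ideal.span {a}) := by
    intro g
    rw [Ideal.absNorm_span_singleton, Ideal.absNorm_span_singleton]
    congr 1
    exact Algebra.norm_eq_of_algEquiv (oAut g).toIntAlgEquiv a
  have hn3 : Ideal.absNorm (Ideal.span {(m : 𝓞 K)}) = m.natAbs ^ 4 := by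
    have h4 : Ideal.span {(m : 𝓞 K)} = Ideal.span {((m.natAbs : ℕ) : 𝓞 K)} := by
      rcases Int.natAbs_eq m with h5 | h5
      · conv_lhs => rw [h5]
        rw [Int.cast_natCast]
      · conv_lhs => rw [h5]
        rw [Int.cast_neg, Int.cast_natCast, Ideal.span_singleton_neg]
    rw [h4, Ideal.absNorm_span_natCast, RingOfIntegers.rank, finrank_four h]
  have h5 : m.natAbs ^ 4 = (Ideal.absNorm (I : Ideal (𝓞 K)) ^ 2) ^ 4 := by
    rw [← hn3, ← h2, ← Ideal.span_singleton_mul_span_singleton,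
      ← Ideal.span_singleton_mul_span_singleton, ← Ideal.span_singleton_mul_span_singleton,
      map_mul, map_mul, map_mul, hn2, hn2, hn2, hn1]
    ring
  have h6 : m.natAbs = Ideal.absNorm (I : Ideal (𝓞 K)) ^ 2 :=
    Nat.pow_left_injective (n := 4) (by norm_num) h5
  have h7 : A * σ A * τ A * ρ A = (m : K) := by
    rw [← hq, hm, map_intCast]
  rw [h7]
  have hn0 : ((Ideal.absNorm (I : Ideal (𝓞 K)) : ℕ) : K) ≠ 0 := by
    intro h0
    have h8 : Ideal.absNorm (I : Ideal (𝓞 K)) = 0 := by exact_mod_cast h0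
    rw [h8] at h6
    have h9 : m = 0 := by simpa using h6
    rw [h9] at h7
    exact mul_ne_zero (mul_ne_zero (mul_ne_zero hA0 hσA) hτA) hρA (by rw [h7]; simp)
  rcases Int.natAbs_eq m with h8 | h8
  · rw [h8, h6]
    push_cast
    rw [sc_sq]
    exact Submodule.zero_mem _
  · rw [h8, h6]
    push_cast
    have : (-((Ideal.absNorm (I : Ideal (𝓞 K)) : ℕ) : K) ^ 2) =
        (-1) * ((Ideal.absNorm (I : Ideal (𝓞 K)) : ℕ) : K) ^ 2 := by ring
    rw [this, sc_mul (neg_ne_zero.2 one_ne_zero) (pow_ne_zero 2 hn0), sc_sq, add_zero]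
    exact sc_neg_one_mem

/-- The main bound in abstract form: a module `V` with three endomorphisms `A, B, C` that
correspond, under an injective map `i` to the 2-torsion of the class group, to `1 + σ`, `1 + τ`,
`1 + ρ`. -/
theorem main_bound (h : V4 σ τ ρ) {V : Type*} [AddCommGroup V] [Module (ZMod 2) V]
    [FiniteDimensional (ZMod 2) V] (i : V →ₗ[ZMod 2] TT K) (hi : Function.Injective i)
    (A B C : V →ₗ[ZMod 2] V) (hA : ∀ v, i (A v) = i v + act σ (i v))
    (hB : ∀ v, i (B v) = i v + act τ (i v)) (hC : ∀ v, i (C v) = i v + act ρ (i v))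
    (rigid : ∀ e : V →ₗ[ZMod 2] V, (∀ v, e (A v) = A (e v)) → (∀ v, e (B v) = B (e v)) →
      (∃ v, v ≠ 0 ∧ e v = v) → Function.Injective e)
    [FiniteDimensional (ZMod 2) (Q3 σ τ ρ)] :
    finrank (ZMod 2) V ≤ 2 * finrank (ZMod 2) (Q3 σ τ ρ) + 5 := by
  have dbl : ∀ x : TT K, x + x = 0 := TT.add_self
  have hσσ : ∀ x : TT K, act σ (act σ x) = x := fun x => by rw [← act_mul, h.ss, act_one]
  have hττ : ∀ x : TT K, act τ (act τ x) = x := fun x => by rw [← act_mul, h.tt, act_one]
  have hστ : ∀ x : TT K, act σ (act τ x) = act ρ x := fun x => by rw [← act_mul, h.st]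
  have hτσ : ∀ x : TT K, act τ (act σ x) = act ρ x := fun x => by rw [← act_mul, h.ts]
  have sys : Kron.Sys A B C :=
    { sum := fun v => by
        apply hi
        rw [map_add, map_add, hA, hB, hC, map_zero]
        have h1 := norm_rel h (i v)
        have h2 := dbl (i v)
        calc i v + act σ (i v) + (i v + act τ (i v)) + (i v + act ρ (i v))
            = (i v + act σ (i v) + act τ (i v) + act ρ (i v)) + (i v + i v) := by abel
          _ = 0 := by rw [h1, h2, add_zero]
      AA := fun v => by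
        apply hi
        rw [hA, hA, map_add, hσσ, map_zero]
        have h2 := dbl (i v + act σ (i v))
        calc i v + act σ (i v) + (act σ (i v) + i v) =
            (i v + act σ (i v)) + (i v + act σ (i v)) := by abel
          _ = 0 := h2
      AB := fun v => by
        apply hi
        rw [hA, hB, map_add, hστ, map_zero]
        have h1 := norm_rel h (i v)
        calc i v + act τ (i v) + (act σ (i v) + act ρ (i v)) =
            i v + act σ (i v) + act τ (i v) + act ρ (i v) := by abel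
          _ = 0 := h1
      BA := fun v => by
        apply hi
        rw [hB, hA, map_add, hτσ, map_zero]
        have h1 := norm_rel h (i v)
        calc i v + act σ (i v) + (act τ (i v) + act ρ (i v)) =
            i v + act σ (i v) + act τ (i v) + act ρ (i v) := by abel
          _ = 0 := h1
      BB := fun v => by
        apply hi
        rw [hB, hB, map_add, hττ, map_zero]
        have h2 := dbl (i v + act τ (i v))
        calc i v + act τ (i v) + (act τ (i v) + i v) =
            (i v + act τ (i v)) + (i v + act τ (i v)) := by abel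
          _ = 0 := h2
      rigid := rigid }
  have hbd := sys.finrank_le
  set Φ : Submodule (ZMod 2) V := LinearMap.range A ⊓ LinearMap.range B ⊓ LinearMap.range C with hΦ
  let f : V →ₗ[ZMod 2] SqCl K ⧸ UCl K := toQ ∘ₗ i
  have hf : Function.Injective f := toQ_injective.comp hi
  have hmap : Φ.map f ≤ Q3 σ τ ρ := by
    rintro _ ⟨v, ⟨⟨⟨a, ha⟩, ⟨b, hb⟩⟩, ⟨c, hc⟩⟩, rfl⟩
    refine ⟨⟨?_, ?_⟩, ?_⟩
    · rw [← ha]
      show toQ (i (A a)) ∈ _
      rw [hA]
      exact toQ_add_act h.s1 h.ss _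
    · rw [← hb]
      show toQ (i (B b)) ∈ _
      rw [hB]
      exact toQ_add_act h.t1 h.tt _
    · rw [← hc]
      show toQ (i (C c)) ∈ _
      rw [hC]
      exact toQ_add_act h.r1 h.rr _
  have h1 := Submodule.finrank_mono hmap
  have h2 := Kron.finrank_map_add f Φ
  rw [LinearMap.ker_eq_bot.2 hf, inf_bot_eq, finrank_bot] at h2
  omega

end Pool.Agent.Helper25.Biq
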