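import Pool.Agent.Helper25.BiqMain

/-!
# Indecomposable submodules of the 2-torsion of the class group
-/

namespace Pool.Agent.Helper25.Biq

open Module NumberField
open scoped nonZeroDivisors

/-- Fitting's lemma: the rigidity property of an indecomposable module. -/
lemma rigid_of_indec {k V : Type*} [Field k] [AddCommGroup V] [Module k V]
    [FiniteDimensional k V] (A B : V →ₗ[k] V)
    (hind : ∀ p q : Submodule k V, (∀ v ∈ p, A v ∈ p) → (∀ v ∈ p, B v ∈ p) →
      (∀ v ∈ q, A v ∈ q) → (∀ v ∈ q, B v ∈ q) → IsCompl p q → p = ⊥ ∨ q = ⊥)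
    (e : V →ₗ[k] V) (hA : ∀ v, e (A v) = A (e v)) (hB : ∀ v, e (B v) = B (e v))
    (he : ∃ v, v ≠ 0 ∧ e v = v) : Function.Injective e := by
  obtain ⟨v, hv0, hv⟩ := he
  obtain ⟨n, hn, hn1⟩ := ((LinearMap.eventually_isCompl_ker_pow_range_pow e).and
    (Filter.eventually_ge_atTop 1)).exists
  have hpow : ∀ (X : V →ₗ[k] V), (∀ v, e (X v) = X (e v)) → ∀ m v, (e ^ m) (X v) = X ((e ^ m) v) := by
    intro X hX m
    induction m with
    | zero => intro v; rfl
    | succ m ih =>
      intro v
      rw [pow_succ, Module.End.mul_apply, Module.End.mul_apply, hX, ih]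
  have hfix : ∀ m, (e ^ m) v = v := by
    intro m
    induction m with
    | zero => rfl
    | succ m ih => rw [pow_succ, Module.End.mul_apply, hv, ih]
  have kst : ∀ (X : V →ₗ[k] V), (∀ v, e (X v) = X (e v)) → ∀ v ∈ LinearMap.ker (e ^ n),
      X v ∈ LinearMap.ker (e ^ n) := by
    intro X hX w hw
    rw [LinearMap.mem_ker] at hw ⊢
    rw [hpow X hX, hw, map_zero]
  have rst : ∀ (X : V →ₗ[k] V), (∀ v, e (X v) = X (e v)) → ∀ v ∈ LinearMap.range (e ^ n),
      X v ∈ LinearMap.range (e ^ n) := by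
    rintro X hX _ ⟨w, rfl⟩
    exact ⟨X w, hpow X hX n w⟩
  rcases hind _ _ (kst A hA) (kst B hB) (rst A hA) (rst B hB) hn with h | h
  · rw [← LinearMap.ker_eq_bot, eq_bot_iff]
    intro x hx
    rw [← h, LinearMap.mem_ker]
    rw [LinearMap.mem_ker] at hx
    obtain ⟨m, rfl⟩ := Nat.exists_eq_add_of_le hn1
    rw [add_comm, pow_succ, Module.End.mul_apply, hx, map_zero]
  · exfalso
    have h1 : v ∈ LinearMap.range (e ^ n) := ⟨v, hfix n⟩
    rw [h] at h1
    exact hv0 ((Submodule.mem_bot k).1 h1)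

variable {K : Type*} [Field K] [NumberField K]

instance : Finite (TT K) := by
  have : Finite (powMonoidHom 2 : ClassGroup (𝓞 K) →* ClassGroup (𝓞 K)).ker := inferInstance
  exact this

instance : FiniteDimensional (ZMod 2) (TT K) := Module.Finite.of_finite

/-- A subspace of the 2-torsion of the class group that is stable under the Galois group. -/
def Stable (L : Submodule (ZMod 2) (TT K)) : Prop :=
  ∀ g : K ≃ₐ[ℚ] K, ∀ x ∈ L, act g x ∈ L

/-- The endomorphism `x ↦ x + g x`. -/
noncomputable def X (g : K ≃ₐ[ℚ] K) : TT K →ₗ[ZMod 2] TT K := LinearMap.id + act g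

lemma X_apply (g : K ≃ₐ[ℚ] K) (x : TT K) : X g x = x + act g x := rfl

/-- A stable subspace that is not zero and not the direct sum of two nonzero stable subspaces. -/
def IndecSub (L : Submodule (ZMod 2) (TT K)) : Prop :=
  L ≠ ⊥ ∧ ∀ p q : Submodule (ZMod 2) (TT K), Stable p → Stable q → p ⊓ q = ⊥ → p ⊔ q = L →
    p = ⊥ ∨ q = ⊥

/-- The intersection of the images of `L` under the maps `x ↦ x + g x`. -/
noncomputable def Phi3 (σ τ ρ : K ≃ₐ[ℚ] K) (L : Submodule (ZMod 2) (TT K)) :
    Submodule (ZMod 2) (TT K) := L.map (X σ) ⊓ L.map (X τ) ⊓ L.map (X ρ)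

lemma Phi3_le_self {σ τ ρ : K ≃ₐ[ℚ] K} {L : Submodule (ZMod 2) (TT K)} (hL : Stable L) :
    Phi3 σ τ ρ L ≤ L := by
  rintro _ ⟨⟨⟨x, hx, rfl⟩, -⟩, -⟩
  exact L.add_mem hx (hL σ x hx)

variable [IsGalois ℚ K] {σ τ ρ : K ≃ₐ[ℚ] K}

lemma finrank_Phi3_le (h : V4 σ τ ρ) [FiniteDimensional (ZMod 2) (Q3 σ τ ρ)] :
    finrank (ZMod 2) (Phi3 σ τ ρ ⊤) ≤ finrank (ZMod 2) (Q3 σ τ ρ) := by
  have hmap : (Phi3 σ τ ρ ⊤).map toQ ≤ Q3 σ τ ρ := by
    rintro _ ⟨v, ⟨⟨⟨a, -, ha⟩, ⟨b, -, hb⟩⟩, ⟨c, -, hc⟩⟩, rfl⟩
    refine ⟨⟨?_, ?_⟩, ?_⟩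
    · rw [← ha]
      exact toQ_add_act h.s1 h.ss _
    · rw [← hb]
      exact toQ_add_act h.t1 h.tt _
    · rw [← hc]
      exact toQ_add_act h.r1 h.rr _
  have h1 := Submodule.finrank_mono hmap
  have h2 := Kron.finrank_map_add toQ (Phi3 σ τ ρ ⊤)
  rw [LinearMap.ker_eq_bot.2 toQ_injective, inf_bot_eq, finrank_bot] at h2
  omega

/-- The numerical types of an indecomposable stable subspace. -/
theorem indec_types (h : V4 σ τ ρ) {L : Submodule (ZMod 2) (TT K)} (hL : Stable L)
    (hind : IndecSub L) :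
    Kron.Types (finrank (ZMod 2) L)
      (finrank (ZMod 2) (L.map (X σ) ⊔ L.map (X τ) : Submodule (ZMod 2) (TT K)))
      (finrank (ZMod 2) (Phi3 σ τ ρ L)) := by
  have dbl : ∀ x : TT K, x + x = 0 := TT.add_self
  have hσσ : ∀ x : TT K, act σ (act σ x) = x := fun x => by rw [← act_mul, h.ss, act_one]
  have hττ : ∀ x : TT K, act τ (act τ x) = x := fun x => by rw [← act_mul, h.tt, act_one]
  have hστ : ∀ x : TT K, act σ (act τ x) = act ρ x := fun x => by rw [← act_mul, h.st]
  have hτσ : ∀ x : TT K, act τ (act σ x) = act ρ x := fun x => by rw [← act_mul, h.ts]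
  have hX : ∀ g : K ≃ₐ[ℚ] K, ∀ x ∈ L, X g x ∈ L := fun g x hx => L.add_mem hx (hL g x hx)
  let A : L →ₗ[ZMod 2] L := (X σ).restrict (hX σ)
  let B : L →ₗ[ZMod 2] L := (X τ).restrict (hX τ)
  let C : L →ₗ[ZMod 2] L := (X ρ).restrict (hX ρ)
  have hA : ∀ v : L, ((A v : L) : TT K) = X σ v := fun v => rfl
  have hB : ∀ v : L, ((B v : L) : TT K) = X τ v := fun v => rfl
  have hC : ∀ v : L, ((C v : L) : TT K) = X ρ v := fun v => rfl
  have hsum : ∀ x : TT K, X σ x + X τ x + X ρ x = 0 := by
    intro x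
    have h1 := norm_rel h x
    have h2 := dbl x
    rw [X_apply, X_apply, X_apply]
    calc x + act σ x + (x + act τ x) + (x + act ρ x)
        = (x + act σ x + act τ x + act ρ x) + (x + x) := by abel
      _ = 0 := by rw [h1, h2, add_zero]
  have hAA : ∀ x : TT K, X σ (X σ x) = 0 := by
    intro x
    rw [X_apply, X_apply, map_add, hσσ]
    calc x + act σ x + (act σ x + x) = (x + act σ x) + (x + act σ x) := by abel
      _ = 0 := dbl _
  have hBB : ∀ x : TT K, X τ (X τ x) = 0 := by
    intro x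
    rw [X_apply, X_apply, map_add, hττ]
    calc x + act τ x + (act τ x + x) = (x + act τ x) + (x + act τ x) := by abel
      _ = 0 := dbl _
  have hAB : ∀ x : TT K, X σ (X τ x) = 0 := by
    intro x
    rw [X_apply, X_apply, map_add, hστ]
    calc x + act τ x + (act σ x + act ρ x) = x + act σ x + act τ x + act ρ x := by abel
      _ = 0 := norm_rel h x
  have hBA : ∀ x : TT K, X τ (X σ x) = 0 := by
    intro x
    rw [X_apply, X_apply, map_add, hτσ]
    calc x + act σ x + (act τ x + act ρ x) = x + act σ x + act τ x + act ρ x := by abel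
      _ = 0 := norm_rel h x
  have sys : Kron.Sys A B C :=
    { sum := fun v => Subtype.ext (hsum v)
      AA := fun v => Subtype.ext (hAA v)
      AB := fun v => Subtype.ext (hAB v)
      BA := fun v => Subtype.ext (hBA v)
      BB := fun v => Subtype.ext (hBB v)
      rigid := by
        intro e
        apply rigid_of_indec A B
        intro p q hpA hpB hqA hqB hpq
        -- transport to subspaces of the class group
        have hst : ∀ r : Submodule (ZMod 2) L, (∀ v ∈ r, A v ∈ r) → (∀ v ∈ r, B v ∈ r) →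
            Stable (r.map L.subtype) := by
          rintro r hrA hrB g _ ⟨v, hv, rfl⟩
          have hCr : C v ∈ r := by
            have h1 : C v = A v + B v := by
              apply Subtype.ext
              have h2 := hsum v
              show X ρ v = X σ v + X τ v
              have h3 : X ρ (v : TT K) + X ρ (v : TT K) = 0 := dbl _
              calc X ρ (v : TT K) = (X σ (v : TT K) + X τ v + X ρ v) + X ρ v := by
                    rw [h2, zero_add]
                _ = X σ (v : TT K) + X τ v + (X ρ (v : TT K) + X ρ v) := by abel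
                _ = _ := by rw [h3, add_zero]
            rw [h1]
            exact r.add_mem (hrA v hv) (hrB v hv)
          have key : ∀ (g : K ≃ₐ[ℚ] K) (Y : L →ₗ[ZMod 2] L), (∀ v : L, ((Y v : L) : TT K) = X g v) →
              Y v ∈ r → act g (L.subtype v) ∈ r.map L.subtype := by
            intro g Y hY hYr
            refine ⟨v + Y v, r.add_mem hv hYr, ?_⟩
            show (v : TT K) + (Y v : TT K) = act g v
            rw [hY, X_apply, ← add_assoc, dbl, zero_add]
          rcases h.all g with rfl | rfl | rfl | rfl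
          · rw [act_one]; exact ⟨v, hv, rfl⟩
          · exact key _ A hA (hrA v hv)
          · exact key _ B hB (hrB v hv)
          · exact key _ C hC hCr
        have hinj : Function.Injective (Submodule.map L.subtype) :=
          Submodule.map_injective_of_injective L.injective_subtype
        rcases hind.2 (p.map L.subtype) (q.map L.subtype) (hst p hpA hpB) (hst q hqA hqB) (by
          rw [← Submodule.map_inf _ L.injective_subtype, hpq.inf_eq_bot, Submodule.map_bot]) (by
          rw [← Submodule.map_sup, hpq.sup_eq_top, Submodule.map_subtype_top]) with h1 | h1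
        · left; apply hinj; rw [h1, Submodule.map_bot]
        · right; apply hinj; rw [h1, Submodule.map_bot] }
  have hbd := sys.types
  have hr : ∀ (g : K ≃ₐ[ℚ] K) (Y : L →ₗ[ZMod 2] L), (∀ v : L, ((Y v : L) : TT K) = X g v) →
      (LinearMap.range Y).map L.subtype = L.map (X g) := by
    intro g Y hY
    ext x
    constructor
    · rintro ⟨_, ⟨v, rfl⟩, rfl⟩
      exact ⟨v, v.2, (hY v).symm⟩
    · rintro ⟨v, hv, rfl⟩
      exact ⟨Y ⟨v, hv⟩, ⟨_, rfl⟩, hY _⟩
  have hPhi : (LinearMap.range A ⊓ LinearMap.range B ⊓ LinearMap.range C).map L.subtype =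
      Phi3 σ τ ρ L := by
    rw [Submodule.map_inf _ L.injective_subtype, Submodule.map_inf _ L.injective_subtype,
      hr σ A hA, hr τ B hB, hr ρ C hC]
    rfl
  have hRad : (LinearMap.range A ⊔ LinearMap.range B).map L.subtype =
      L.map (X σ) ⊔ L.map (X τ) := by
    rw [Submodule.map_sup, hr σ A hA, hr τ B hB]
  rw [← hPhi, ← hRad, Submodule.finrank_map_subtype_eq, Submodule.finrank_map_subtype_eq]
  exact hbd

/-- The bound for an indecomposable stable subspace. -/
theorem indec_bound (h : V4 σ τ ρ) {L : Submodule (ZMod 2) (TT K)} (hL : Stable L)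
    (hind : IndecSub L) :
    finrank (ZMod 2) L ≤ 2 * finrank (ZMod 2) (Phi3 σ τ ρ L) + 5 := by
  rcases indec_types h hL hind with h | h | h | h | h <;> omega

lemma sum_finrank_le {k V : Type*} [Field k] [AddCommGroup V] [Module k V]
    [FiniteDimensional k V] {ι : Type*} (P : ι → Submodule k V) (hI : iSupIndep P)
    (s : Finset ι) : ∑ j ∈ s, finrank k (P j) ≤ finrank k (s.sup P : Submodule k V) := by
  classical
  induction s using Finset.induction_on with
  | empty => simp
  | insert j s hj ih =>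
    rw [Finset.sum_insert hj, Finset.sup_insert]
    have h1 := Submodule.finrank_sup_add_finrank_inf_eq (P j) (s.sup P)
    have h2 : P j ⊓ s.sup P = ⊥ := by
      rw [← disjoint_iff]
      refine (hI j).mono_right ?_
      apply Finset.sup_le
      intro i hi
      have hij : i ≠ j := fun h => hj (h ▸ hi)
      exact le_iSup₂_of_le i hij le_rfl
    rw [h2, finrank_bot] at h1
    omega

/-- The bound for a family of independent stable subspaces. -/
theorem family_phi (h : V4 σ τ ρ) [FiniteDimensional (ZMod 2) (Q3 σ τ ρ)] {ι : Type*}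
    [Fintype ι] (L : ι → Submodule (ZMod 2) (TT K)) (hL : ∀ j, Stable (L j))
    (hI : iSupIndep L) :
    ∑ j, finrank (ZMod 2) (Phi3 σ τ ρ (L j)) ≤ finrank (ZMod 2) (Q3 σ τ ρ) := by
  have h2 : iSupIndep (fun j => Phi3 σ τ ρ (L j)) := hI.mono (fun j => Phi3_le_self (hL j))
  have h3 : ∑ j, finrank (ZMod 2) (Phi3 σ τ ρ (L j)) ≤ finrank (ZMod 2) (Phi3 σ τ ρ ⊤) := by
    have h4 : (⨆ j, Phi3 σ τ ρ (L j)) ≤ Phi3 σ τ ρ ⊤ := by
      apply iSup_le
      intro j
      exact inf_le_inf (inf_le_inf (Submodule.map_mono le_top) (Submodule.map_mono le_top))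
        (Submodule.map_mono le_top)
    refine le_trans ?_ (Submodule.finrank_mono h4)
    refine (sum_finrank_le _ h2 Finset.univ).trans (Submodule.finrank_mono ?_)
    rw [Finset.sup_univ_eq_iSup]
  exact h3.trans (finrank_Phi3_le h)

/-- The sum of the images of the maps `x ↦ x + g x`; this is the radical of `L`. -/
noncomputable def rad (L : Submodule (ZMod 2) (TT K)) : Submodule (ZMod 2) (TT K) :=
  ⨆ g : K ≃ₐ[ℚ] K, L.map (X g)

/-- The intersection of the images of the maps `x ↦ x + g x` for `g ≠ 1`. -/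
noncomputable def core (L : Submodule (ZMod 2) (TT K)) : Submodule (ZMod 2) (TT K) :=
  ⨅ g : {g : K ≃ₐ[ℚ] K // g ≠ 1}, L.map (X g)

omit [IsGalois ℚ K] in
lemma core_eq (h : V4 σ τ ρ) (L : Submodule (ZMod 2) (TT K)) : core L = Phi3 σ τ ρ L := by
  apply le_antisymm
  · exact le_inf (le_inf (iInf_le_of_le ⟨σ, h.s1⟩ le_rfl) (iInf_le_of_le ⟨τ, h.t1⟩ le_rfl))
      (iInf_le_of_le ⟨ρ, h.r1⟩ le_rfl)
  · apply le_iInf
    rintro ⟨g, hg⟩
    rcases h.all g with rfl | rfl | rfl | rfl
    · exact absurd rfl hg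
    · exact inf_le_left.trans inf_le_left
    · exact inf_le_left.trans inf_le_right
    · exact inf_le_right

omit [IsGalois ℚ K] in
lemma X_one : X (1 : K ≃ₐ[ℚ] K) = 0 := by
  ext x
  rw [X_apply, act_one, TT.add_self]
  rfl

lemma rad_eq (h : V4 σ τ ρ) (L : Submodule (ZMod 2) (TT K)) :
    rad L = L.map (X σ) ⊔ L.map (X τ) := by
  apply le_antisymm
  · apply iSup_le
    intro g
    rcases h.all g with rfl | rfl | rfl | rfl
    · rw [X_one, Submodule.map_zero]; exact bot_le
    · exact le_sup_left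
    · exact le_sup_right
    · rintro _ ⟨x, hx, rfl⟩
      have h1 := norm_rel h x
      have h2 : X g x = X σ x + X τ x := by
        have h3 := TT.add_self x
        have h4 := TT.add_self (act g x)
        rw [X_apply, X_apply, X_apply]
        calc x + act g x = x + act g x + (x + act σ x + act τ x + act g x) := by
              rw [h1, add_zero]
          _ = (x + act σ x) + (x + act τ x) + (act g x + act g x) := by abel
          _ = (x + act σ x) + (x + act τ x) := by rw [h4, add_zero]
      rw [h2]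
      exact Submodule.add_mem _ (Submodule.mem_sup_left ⟨x, hx, rfl⟩)
        (Submodule.mem_sup_right ⟨x, hx, rfl⟩)
  · exact sup_le (le_iSup (fun g => L.map (X g)) σ) (le_iSup (fun g => L.map (X g)) τ)

omit [IsGalois ℚ K] in
lemma sum_act [IsGalois ℚ K] [Fintype (K ≃ₐ[ℚ] K)] (h : V4 σ τ ρ) (x : TT K) :
    ∑ g : K ≃ₐ[ℚ] K, act g x = 0 := by
  classical
  have huniv : (Finset.univ : Finset (K ≃ₐ[ℚ] K)) = {1, σ, τ, ρ} := by
    ext g
    simpa using h.all g
  rw [huniv, Finset.sum_insert, Finset.sum_insert, Finset.sum_pair h.rot.ne_st, act_one,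
    ← add_assoc, ← add_assoc]
  · exact norm_rel h x
  · simp only [Finset.mem_insert, Finset.mem_singleton, not_or]
    exact ⟨h.ne_st, h.rot.rot.ne_st.symm⟩
  · simp only [Finset.mem_insert, Finset.mem_singleton, not_or]
    exact ⟨h.s1.symm, h.t1.symm, h.r1.symm⟩

end Pool.Agent.Helper25.Biq
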