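import Mathlib

/-!
# Square classes of fields, Selmer groups, and the 2-torsion of the class group

For `MP_282bb6_nt`.
-/

namespace Pool.Agent.Helper25.Biq

open Module NumberField

/-- The group of square classes `Fˣ / Fˣ²` of a field, written additively. -/
def SqCl (F : Type*) [Field F] : Type _ := Additive (Fˣ ⧸ (powMonoidHom 2 : Fˣ →* Fˣ).range)

section basic

variable {F L : Type*} [Field F] [Field L]

noncomputable instance : AddCommGroup (SqCl F) :=
  inferInstanceAs (AddCommGroup (Additive (Fˣ ⧸ (powMonoidHom 2 : Fˣ →* Fˣ).range)))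

/-- The square class of a unit. -/
def cl (a : Fˣ) : SqCl F := Additive.ofMul (QuotientGroup.mk a)

lemma cl_mul (a b : Fˣ) : cl (a * b) = cl a + cl b := rfl

lemma cl_surj (s : SqCl F) : ∃ a : Fˣ, cl a = s := by
  obtain ⟨a, ha⟩ := QuotientGroup.mk_surjective (Additive.toMul s)
  exact ⟨a, by rw [cl, ha]; rfl⟩

lemma cl_eq_zero (a : Fˣ) : cl a = 0 ↔ ∃ b : Fˣ, b ^ 2 = a := by
  have : cl a = 0 ↔ (QuotientGroup.mk a : Fˣ ⧸ (powMonoidHom 2 : Fˣ →* Fˣ).range) = 1 := Iff.rfl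
  rw [this, QuotientGroup.eq_one_iff]
  rfl

lemma cl_one : cl (1 : Fˣ) = 0 := (cl_eq_zero 1).2 ⟨1, by simp⟩

lemma add_self (s : SqCl F) : s + s = 0 := by
  obtain ⟨a, rfl⟩ := cl_surj s
  rw [← cl_mul, cl_eq_zero]
  exact ⟨a, by rw [sq]⟩

noncomputable instance : Module (ZMod 2) (SqCl F) :=
  AddCommGroup.zmodModule (fun s => by rw [two_nsmul, add_self])

lemma neg_eq (s : SqCl F) : -s = s := by
  rw [neg_eq_iff_add_eq_zero, add_self]

open Classical in
/-- The square class of a nonzero element. -/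
noncomputable def sc (a : F) : SqCl F := if h : a = 0 then 0 else cl (Units.mk0 a h)

lemma sc_unit (a : Fˣ) : sc (a : F) = cl a := by
  rw [sc, dif_neg a.ne_zero]
  congr
  simp

lemma sc_surj (s : SqCl F) : ∃ a : F, a ≠ 0 ∧ sc a = s := by
  obtain ⟨a, rfl⟩ := cl_surj s
  exact ⟨a, a.ne_zero, sc_unit a⟩

lemma sc_mul {a b : F} (ha : a ≠ 0) (hb : b ≠ 0) : sc (a * b) = sc a + sc b := by
  obtain ⟨a, rfl⟩ : ∃ u : Fˣ, (u : F) = a := ⟨Units.mk0 a ha, rfl⟩
  obtain ⟨b, rfl⟩ : ∃ u : Fˣ, (u : F) = b := ⟨Units.mk0 b hb, rfl⟩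
  rw [← Units.val_mul, sc_unit, sc_unit, sc_unit, cl_mul]

lemma sc_one : sc (1 : F) = 0 := by
  rw [← Units.val_one, sc_unit, cl_one]

lemma sc_eq_zero {a : F} (ha : a ≠ 0) : sc a = 0 ↔ ∃ b : F, a = b ^ 2 := by
  obtain ⟨a, rfl⟩ : ∃ u : Fˣ, (u : F) = a := ⟨Units.mk0 a ha, rfl⟩
  rw [sc_unit, cl_eq_zero]
  constructor
  · rintro ⟨b, rfl⟩
    exact ⟨b, by simp⟩
  · rintro ⟨b, hb⟩
    have hb0 : b ≠ 0 := by
      rintro rfl
      apply a.ne_zero
      rw [hb]; simp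
    refine ⟨Units.mk0 b hb0, Units.ext ?_⟩
    rw [Units.val_pow_eq_pow_val, Units.val_mk0, hb]

lemma sc_sq (b : F) : sc (b ^ 2) = 0 := by
  by_cases hb : b = 0
  · subst hb
    rw [sc, dif_pos (by simp)]
  · exact (sc_eq_zero (pow_ne_zero 2 hb)).2 ⟨b, rfl⟩

lemma sc_eq_iff {a b : F} (ha : a ≠ 0) (hb : b ≠ 0) :
    sc a = sc b ↔ ∃ c : F, c ≠ 0 ∧ a = b * c ^ 2 := by
  constructor
  · intro h
    have h1 : sc (a * b) = 0 := by rw [sc_mul ha hb, h, add_self]
    obtain ⟨c, hc⟩ := (sc_eq_zero (mul_ne_zero ha hb)).1 h1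
    have hc0 : c ≠ 0 := by
      rintro rfl
      exact mul_ne_zero ha hb (by rw [hc]; simp)
    refine ⟨c / b, div_ne_zero hc0 hb, ?_⟩
    field_simp
    exact hc
  · rintro ⟨c, hc, rfl⟩
    rw [sc_mul hb (pow_ne_zero 2 hc), sc_sq, add_zero]

lemma sc_add_sc_eq_zero {a b : F} (ha : a ≠ 0) (hb : b ≠ 0) :
    sc a + sc b = 0 ↔ ∃ c : F, c ≠ 0 ∧ a = b * c ^ 2 := by
  rw [← sc_eq_iff ha hb, ← neg_eq (sc b), add_neg_eq_zero, neg_eq]

/-- The map on square classes induced by a homomorphism of multiplicative monoids. -/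
noncomputable def scMap (f : F →* L) : SqCl F →ₗ[ZMod 2] SqCl L :=
  AddMonoidHom.toZModLinearMap 2 (MonoidHom.toAdditive
    (QuotientGroup.map (powMonoidHom 2 : Fˣ →* Fˣ).range (powMonoidHom 2 : Lˣ →* Lˣ).range
      (Units.map f) (by
        rintro _ ⟨a, rfl⟩
        exact ⟨Units.map f a, by simp⟩)))

lemma scMap_cl (f : F →* L) (a : Fˣ) : scMap f (cl a) = cl (Units.map f a) := rfl

lemma scMap_sc (f : F →* L) {a : F} (ha : a ≠ 0) : scMap f (sc a) = sc (f a) := by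
  obtain ⟨a, rfl⟩ : ∃ u : Fˣ, (u : F) = a := ⟨Units.mk0 a ha, rfl⟩
  rw [sc_unit, scMap_cl, ← sc_unit, Units.coe_map]

end basic

section selmer

variable (F : Type*) [Field F] [NumberField F]

lemma alg_ne_zero {F : Type*} [Field F] {a : 𝓞 F} (ha : a ≠ 0) : algebraMap (𝓞 F) F a ≠ 0 :=
  (map_ne_zero_iff _ RingOfIntegers.coe_injective).2 ha

/-- Square classes of the elements that generate the square of an ideal. -/
noncomputable def Sel : Submodule (ZMod 2) (SqCl F) :=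
  AddSubgroup.toZModSubmodule 2
    { carrier := {s | ∃ (a : 𝓞 F) (I : Ideal (𝓞 F)), a ≠ 0 ∧ I ^ 2 = Ideal.span {a} ∧
        s = sc (algebraMap (𝓞 F) F a)}
      zero_mem' := ⟨1, 1, one_ne_zero, by
        rw [Ideal.span_singleton_one, one_pow, Ideal.one_eq_top], by simp [sc_one]⟩
      add_mem' := by
        rintro _ _ ⟨a, I, ha, hI, rfl⟩ ⟨b, J, hb, hJ, rfl⟩
        refine ⟨a * b, I * J, mul_ne_zero ha hb, ?_, ?_⟩
        · rw [mul_pow, hI, hJ, Ideal.span_singleton_mul_span_singleton]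
        · rw [map_mul, sc_mul (alg_ne_zero ha) (alg_ne_zero hb)]
      neg_mem' := by
        rintro _ h
        rwa [neg_eq] }

/-- Square classes of units. -/
noncomputable def UCl : Submodule (ZMod 2) (SqCl F) :=
  AddSubgroup.toZModSubmodule 2
    { carrier := {s | ∃ u : (𝓞 F)ˣ, s = sc (algebraMap (𝓞 F) F u)}
      zero_mem' := ⟨1, by simp [sc_one]⟩
      add_mem' := by
        rintro _ _ ⟨u, rfl⟩ ⟨v, rfl⟩
        refine ⟨u * v, ?_⟩
        rw [Units.val_mul, map_mul, sc_mul (alg_ne_zero u.ne_zero) (alg_ne_zero v.ne_zero)]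
      neg_mem' := by
        rintro _ h
        rwa [neg_eq] }

variable {F}

lemma mem_Sel {s : SqCl F} : s ∈ Sel F ↔ ∃ (a : 𝓞 F) (I : Ideal (𝓞 F)), a ≠ 0 ∧
    I ^ 2 = Ideal.span {a} ∧ s = sc (algebraMap (𝓞 F) F a) := Iff.rfl

omit [NumberField F] in
lemma mem_UCl {s : SqCl F} : s ∈ UCl F ↔ ∃ u : (𝓞 F)ˣ, s = sc (algebraMap (𝓞 F) F u) := Iff.rfl

lemma UCl_le_Sel : UCl F ≤ Sel F := by
  rintro _ ⟨u, rfl⟩
  refine ⟨u, 1, u.ne_zero, ?_, rfl⟩
  rw [one_pow, Ideal.one_eq_top, eq_comm, Ideal.span_singleton_eq_top]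
  exact u.isUnit

variable (F) in
/-- The 2-torsion of the class group, as a vector space over the field with two elements. -/
def TT : Type _ := Additive (powMonoidHom 2 : ClassGroup (𝓞 F) →* ClassGroup (𝓞 F)).ker

noncomputable instance : AddCommGroup (TT F) :=
  inferInstanceAs (AddCommGroup (Additive (powMonoidHom 2 : ClassGroup (𝓞 F) →*
    ClassGroup (𝓞 F)).ker))

noncomputable instance : Module (ZMod 2) (TT F) :=
  AddCommGroup.zmodModule (fun x => by
    have h : (Additive.toMul x : (powMonoidHom 2 :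
      ClassGroup (𝓞 F) →* ClassGroup (𝓞 F)).ker) ^ 2 = 1 := Subtype.ext (Additive.toMul x : (powMonoidHom 2 :
      ClassGroup (𝓞 F) →* ClassGroup (𝓞 F)).ker).2
    exact congrArg Additive.ofMul h)

/-- The underlying ideal class. -/
def TT.val (x : TT F) : ClassGroup (𝓞 F) := ((Additive.toMul x : (powMonoidHom 2 :
  ClassGroup (𝓞 F) →* ClassGroup (𝓞 F)).ker) : ClassGroup (𝓞 F))

omit [NumberField F] in
lemma TT.val_injective : Function.Injective (TT.val (F := F)) := by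
  intro x y h
  exact Additive.toMul.injective (Subtype.ext h)

omit [NumberField F] in
lemma TT.val_add (x y : TT F) : (x + y).val = x.val * y.val := rfl

omit [NumberField F] in
lemma TT.val_zero : (0 : TT F).val = 1 := rfl

omit [NumberField F] in
lemma TT.val_sq (x : TT F) : x.val ^ 2 = 1 :=
  (Additive.toMul x : (powMonoidHom 2 : ClassGroup (𝓞 F) →* ClassGroup (𝓞 F)).ker).2

/-- The element of `TT F` given by an ideal class of order two. -/
def TT.mk (c : ClassGroup (𝓞 F)) (hc : c ^ 2 = 1) : TT F := Additive.ofMul ⟨c, hc⟩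

omit [NumberField F] in
lemma TT.val_mk (c : ClassGroup (𝓞 F)) (hc : c ^ 2 = 1) : (TT.mk c hc).val = c := rfl

lemma exists_rep (x : TT F) : ∃ (I : (nonZeroDivisors (Ideal (𝓞 F)))) (a : 𝓞 F), a ≠ 0 ∧
    (I : Ideal (𝓞 F)) ^ 2 = Ideal.span {a} ∧ ClassGroup.mk0 I = x.val := by
  obtain ⟨I, hI⟩ := ClassGroup.mk0_surjective x.val
  have hm : (I : Ideal (𝓞 F)) ^ 2 ∈ nonZeroDivisors (Ideal (𝓞 F)) := pow_mem I.2 2
  have h0 : (⟨(I : Ideal (𝓞 F)) ^ 2, hm⟩ : nonZeroDivisors (Ideal (𝓞 F))) = I ^ 2 :=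
    Subtype.ext (SubmonoidClass.coe_pow I 2).symm
  have h1 : ClassGroup.mk0 (⟨(I : Ideal (𝓞 F)) ^ 2, hm⟩ : nonZeroDivisors (Ideal (𝓞 F))) = 1 := by
    rw [h0, map_pow, hI, x.val_sq]
  have h2 := (ClassGroup.mk0_eq_one_iff hm).1 h1
  obtain ⟨a, ha⟩ := h2.principal
  refine ⟨I, a, ?_, ha, hI⟩
  rintro rfl
  have h3 : (I : Ideal (𝓞 F)) ^ 2 = 0 := by
    rw [ha]; exact Ideal.span_singleton_eq_bot.2 rfl
  exact nonZeroDivisors.ne_zero hm h3

lemma key_wd {I J : (nonZeroDivisors (Ideal (𝓞 F)))} {a b : 𝓞 F} (ha : a ≠ 0) (hb : b ≠ 0)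
    (hI : (I : Ideal (𝓞 F)) ^ 2 = Ideal.span {a}) (hJ : (J : Ideal (𝓞 F)) ^ 2 = Ideal.span {b})
    (h : ClassGroup.mk0 I = ClassGroup.mk0 J) :
    sc (algebraMap (𝓞 F) F a) + sc (algebraMap (𝓞 F) F b) ∈ UCl F := by
  obtain ⟨x, y, hx, hy, hxy⟩ := ClassGroup.mk0_eq_mk0_iff.1 h
  have h1 : Ideal.span {x ^ 2 * a} = Ideal.span {y ^ 2 * b} := by
    rw [← Ideal.span_singleton_mul_span_singleton, ← Ideal.span_singleton_mul_span_singleton,
      ← Ideal.span_singleton_pow, ← Ideal.span_singleton_pow, ← hI, ← hJ, ← mul_pow, ← mul_pow,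
      hxy]
  rw [Ideal.span_singleton_eq_span_singleton] at h1
  obtain ⟨u, hu⟩ := h1
  refine ⟨u, ?_⟩
  have h2 := congrArg (fun z => sc (algebraMap (𝓞 F) F z)) hu
  simp only [map_mul, map_pow] at h2
  have hx' := alg_ne_zero hx
  have hy' := alg_ne_zero hy
  have ha' := alg_ne_zero ha
  have hb' := alg_ne_zero hb
  have hu' := alg_ne_zero u.ne_zero
  rw [sc_mul (mul_ne_zero (pow_ne_zero 2 hx') ha') hu', sc_mul (pow_ne_zero 2 hx') ha',
    sc_mul (pow_ne_zero 2 hy') hb', sc_sq, sc_sq, zero_add, zero_add] at h2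
  rw [← h2, ← add_assoc, add_self, zero_add]

lemma key_inj {I : (nonZeroDivisors (Ideal (𝓞 F)))} {a : 𝓞 F} (ha : a ≠ 0)
    (hI : (I : Ideal (𝓞 F)) ^ 2 = Ideal.span {a})
    (h : sc (algebraMap (𝓞 F) F a) ∈ UCl F) : ClassGroup.mk0 I = 1 := by
  obtain ⟨u, hu⟩ := h
  obtain ⟨c, hc, hac⟩ := (sc_eq_iff (alg_ne_zero ha) (alg_ne_zero u.ne_zero)).1 hu
  obtain ⟨x, y, hy, rfl⟩ := IsFractionRing.div_surjective (A := 𝓞 F) c
  have hy0 : y ≠ 0 := nonZeroDivisors.ne_zero hy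
  have hy' := alg_ne_zero hy0
  have hx' : algebraMap (𝓞 F) F x ≠ 0 := by
    intro h0
    apply hc
    rw [h0, zero_div]
  have hx0 : x ≠ 0 := by
    rintro rfl
    exact hx' (map_zero _)
  have h1 : a * y ^ 2 = u * x ^ 2 := by
    apply RingOfIntegers.coe_injective
    rw [map_mul, map_mul, map_pow, map_pow, hac]
    field_simp
  have h2 : ((I : Ideal (𝓞 F)) * Ideal.span {y}) ^ 2 = (Ideal.span {x}) ^ 2 := by
    rw [mul_pow, hI, Ideal.span_singleton_pow, Ideal.span_singleton_pow,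
      Ideal.span_singleton_mul_span_singleton, h1, Ideal.span_singleton_eq_span_singleton]
    exact ⟨u⁻¹, by rw [mul_comm, ← mul_assoc, Units.inv_mul, one_mul]⟩
  have h3 : (I : Ideal (𝓞 F)) * Ideal.span {y} = Ideal.span {x} := by
    apply dvd_antisymm
    · exact (UniqueFactorizationMonoid.pow_dvd_pow_iff_dvd two_ne_zero).1 h2.dvd
    · exact (UniqueFactorizationMonoid.pow_dvd_pow_iff_dvd two_ne_zero).1 h2.symm.dvd
  rw [← map_one ClassGroup.mk0, ClassGroup.mk0_eq_mk0_iff]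
  refine ⟨y, x, hy0, hx0, ?_⟩
  rw [mul_comm, h3]
  simp

/-- The square class, modulo units, attached to an ideal class of order two. -/
noncomputable def toQfun (x : TT F) : SqCl F ⧸ UCl F :=
  (UCl F).mkQ (sc (algebraMap (𝓞 F) F (exists_rep x).choose_spec.choose))

lemma toQfun_eq {x : TT F} {I : (nonZeroDivisors (Ideal (𝓞 F)))} {a : 𝓞 F} (ha : a ≠ 0)
    (hI : (I : Ideal (𝓞 F)) ^ 2 = Ideal.span {a}) (hx : ClassGroup.mk0 I = x.val) :
    toQfun x = (UCl F).mkQ (sc (algebraMap (𝓞 F) F a)) := by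
  have h := (exists_rep x).choose_spec.choose_spec
  rw [toQfun, ← sub_eq_zero, ← map_sub, sub_eq_add_neg, neg_eq]
  simp only [Submodule.mkQ_apply, Submodule.Quotient.mk_eq_zero]
  exact key_wd h.1 ha h.2.1 hI (h.2.2.trans hx.symm)

/-- The embedding of `Cl(F)[2]` into the square classes modulo units. -/
noncomputable def toQ : TT F →ₗ[ZMod 2] SqCl F ⧸ UCl F :=
  AddMonoidHom.toZModLinearMap 2
    { toFun := toQfun
      map_zero' := by
        rw [toQfun_eq (x := 0) (I := 1) (a := 1) one_ne_zero (by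
          rw [OneMemClass.coe_one, one_pow, Ideal.span_singleton_one, Ideal.one_eq_top])
          (by rw [map_one, TT.val_zero])]
        rw [map_one, sc_one, map_zero]
      map_add' := by
        intro x y
        obtain ⟨I, a, ha, hI, hx⟩ := exists_rep x
        obtain ⟨J, b, hb, hJ, hy⟩ := exists_rep y
        rw [toQfun_eq ha hI hx, toQfun_eq hb hJ hy,
          toQfun_eq (x := x + y) (I := I * J) (a := a * b) (mul_ne_zero ha hb) (by
            rw [Submonoid.coe_mul, mul_pow, hI, hJ, Ideal.span_singleton_mul_span_singleton])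
            (by rw [map_mul, hx, hy, TT.val_add]),
          map_mul, sc_mul (alg_ne_zero ha) (alg_ne_zero hb), map_add] }

lemma toQ_eq {x : TT F} {I : (nonZeroDivisors (Ideal (𝓞 F)))} {a : 𝓞 F} (ha : a ≠ 0)
    (hI : (I : Ideal (𝓞 F)) ^ 2 = Ideal.span {a}) (hx : ClassGroup.mk0 I = x.val) :
    toQ x = (UCl F).mkQ (sc (algebraMap (𝓞 F) F a)) := toQfun_eq ha hI hx

lemma toQ_injective : Function.Injective (toQ (F := F)) := by
  rw [injective_iff_map_eq_zero]
  intro x hx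
  obtain ⟨I, a, ha, hI, hxI⟩ := exists_rep x
  rw [toQ_eq ha hI hxI] at hx
  simp only [Submodule.mkQ_apply, Submodule.Quotient.mk_eq_zero] at hx
  apply TT.val_injective
  rw [← hxI, key_inj ha hI hx, TT.val_zero]

end selmer

end Pool.Agent.Helper25.Biq
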