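import Mathlib
import Pool.Agent.Helper25.SqCl

/-!
# The dimension of the group of units modulo squares
-/

namespace Pool.Agent.Helper25.Biq

open Module NumberField
open scoped nonZeroDivisors

variable {F : Type*} [Field F] [NumberField F]

/-- The square class of a unit of the ring of integers. -/
noncomputable def scU (u : (𝓞 F)ˣ) : SqCl F := sc (algebraMap (𝓞 F) F u)

omit [NumberField F] in
lemma scU_mul (u v : (𝓞 F)ˣ) : scU (u * v) = scU u + scU v := by
  rw [scU, Units.val_mul, map_mul, sc_mul (alg_ne_zero u.ne_zero) (alg_ne_zero v.ne_zero)]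
  rfl

omit [NumberField F] in
lemma scU_one : scU (1 : (𝓞 F)ˣ) = 0 := by rw [scU, Units.val_one, map_one, sc_one]

omit [NumberField F] in
lemma scU_inv (u : (𝓞 F)ˣ) : scU u⁻¹ = scU u := by
  have h1 : scU (u * u⁻¹) = 0 := by rw [mul_inv_cancel, scU_one]
  rw [scU_mul, add_comm, add_eq_zero_iff_eq_neg, neg_eq] at h1
  exact h1

variable (F)

/-- Generators of the units modulo squares. -/
noncomputable def ugen : Option (Fin (Units.rank F)) → SqCl F
  | none => scU ((IsCyclic.exists_generator (α := Units.torsion F)).choose : (𝓞 F)ˣ)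
  | some i => scU (Units.fundSystem F i)

lemma UCl_le_span : UCl F ≤ Submodule.span (ZMod 2) (Set.range (ugen F)) := by
  set S := Submodule.span (ZMod 2) (Set.range (ugen F)) with hS
  let H : Subgroup (𝓞 F)ˣ :=
    { carrier := {u | scU u ∈ S}
      mul_mem' := by
        intro a b ha hb
        show scU (a * b) ∈ S
        rw [scU_mul]
        exact S.add_mem ha hb
      one_mem' := by
        show scU 1 ∈ S
        rw [scU_one]; exact S.zero_mem
      inv_mem' := by
        intro a ha
        show scU a⁻¹ ∈ S
        rw [scU_inv]; exact ha }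
  have hH : H = ⊤ := by
    rw [eq_top_iff, ← Units.closure_fundSystem_sup_torsion_eq_top, sup_le_iff]
    constructor
    · rw [Subgroup.closure_le]
      rintro _ ⟨i, rfl⟩
      exact Submodule.subset_span ⟨some i, rfl⟩
    · intro z hz
      set g := (IsCyclic.exists_generator (α := Units.torsion F)).choose with hg
      have hgen := (IsCyclic.exists_generator (α := Units.torsion F)).choose_spec ⟨z, hz⟩
      obtain ⟨n, hn⟩ := Subgroup.mem_zpowers_iff.1 hgen
      have hgH : (g : (𝓞 F)ˣ) ∈ H := Submodule.subset_span ⟨none, rfl⟩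
      have hz2 : z = (g : (𝓞 F)ˣ) ^ n := by
        rw [← Subgroup.coe_zpow, hn]
      rw [hz2]
      exact H.zpow_mem hgH n
  rintro s ⟨u, rfl⟩
  have : u ∈ H := by rw [hH]; trivial
  exact this

lemma finrank_UCl_le : FiniteDimensional (ZMod 2) (UCl F) ∧
    finrank (ZMod 2) (UCl F) ≤ Units.rank F + 1 := by
  have fd : FiniteDimensional (ZMod 2) (Submodule.span (ZMod 2) (Set.range (ugen F))) :=
    FiniteDimensional.span_of_finite _ (Set.finite_range _)
  refine ⟨Submodule.finiteDimensional_of_le (UCl_le_span F), ?_⟩
  refine (Submodule.finrank_mono (UCl_le_span F)).trans ?_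
  have := finrank_range_le_card (R := ZMod 2) (ugen F)
  rw [Fintype.card_option, Fintype.card_fin] at this
  exact this

instance : FiniteDimensional (ZMod 2) (UCl F) := (finrank_UCl_le F).1

lemma rank_le : Units.rank F + 1 ≤ finrank ℚ F := by
  have h1 := InfinitePlace.card_add_two_mul_card_eq_rank F
  have h2 : Fintype.card (InfinitePlace F) = InfinitePlace.nrRealPlaces F +
      InfinitePlace.nrComplexPlaces F := InfinitePlace.card_eq_nrRealPlaces_add_nrComplexPlaces F
  have h3 : 0 < finrank ℚ F := finrank_pos
  rw [Units.rank]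
  omega

lemma rank_le_of_complex (h : InfinitePlace.nrRealPlaces F = 0) :
    2 * (Units.rank F + 1) = finrank ℚ F := by
  have h1 := InfinitePlace.card_add_two_mul_card_eq_rank F
  have h2 : Fintype.card (InfinitePlace F) = InfinitePlace.nrRealPlaces F +
      InfinitePlace.nrComplexPlaces F := InfinitePlace.card_eq_nrRealPlaces_add_nrComplexPlaces F
  have h3 : 0 < finrank ℚ F := finrank_pos
  rw [Units.rank]
  omega

end Pool.Agent.Helper25.Biq
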