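import Mathlib
import Pool.Agent.Helper25.UnitDim

/-!
# Units that are not squares up to sign
-/

namespace Pool.Agent.Helper25.Biq

open Module NumberField
open scoped nonZeroDivisors

section general

variable {F : Type*} [Field F] [NumberField F]

omit [NumberField F] in
lemma exists_unit_sqrt {u : (𝓞 F)ˣ} (h : scU u = 0) : ∃ s : (𝓞 F)ˣ, s ^ 2 = u := by
  obtain ⟨b, hb⟩ := (sc_eq_zero (alg_ne_zero u.ne_zero)).1 h
  have hint : IsIntegral ℤ b := by
    apply IsIntegral.of_pow (n := 2) (by norm_num)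
    rw [← hb]
    exact RingOfIntegers.isIntegral_coe _
  let b' : 𝓞 F := ⟨b, hint⟩
  have hb' : b' ^ 2 = u := by
    apply RingOfIntegers.coe_injective
    rw [map_pow, hb]
    rfl
  have hunit : IsUnit b' := by
    rw [← isUnit_pow_iff (two_ne_zero), hb']
    exact u.isUnit
  obtain ⟨s, hs⟩ := hunit
  refine ⟨s, Units.ext ?_⟩
  rw [Units.val_pow_eq_pow_val, hs, hb']

lemma mem_span_single {S : Type*} [AddCommGroup S] [Module (ZMod 2) S] {u v : S}
    (h : u ∈ Submodule.span (ZMod 2) {v}) : u = 0 ∨ u = v := by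
  obtain ⟨c, rfl⟩ := Submodule.mem_span_singleton.1 h
  have : ∀ c : ZMod 2, c = 0 ∨ c = 1 := by decide
  have := this c
  rcases this with rfl | rfl
  · left; rw [zero_smul]
  · right; rw [one_smul]

omit [NumberField F] in
lemma scU_neg_one : scU (-1 : (𝓞 F)ˣ) = sc (-1 : F) := by
  rw [scU]; simp

omit [NumberField F] in
/-- If the class of a unit of a subring is trivial up to sign, it is a square up to sign. -/
lemma exists_sqrt_of_mem {u : (𝓞 F)ˣ} (h : scU u ∈ Submodule.span (ZMod 2) {sc (-1 : F)}) :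
    ∃ s : (𝓞 F)ˣ, u = s ^ 2 ∨ u = -s ^ 2 := by
  rcases mem_span_single h with h1 | h1
  · obtain ⟨s, hs⟩ := exists_unit_sqrt h1
    exact ⟨s, Or.inl hs.symm⟩
  · have h2 : scU (-1 * u) = 0 := by
      rw [scU_mul, scU_neg_one, h1, add_self]
    obtain ⟨s, hs⟩ := exists_unit_sqrt h2
    refine ⟨s, Or.inr ?_⟩
    rw [hs, neg_mul, one_mul, neg_neg]

/-- If there is a fundamental unit, then it is not a square up to sign. -/
lemma exists_good (h : 1 ≤ Units.rank F) :
    ∃ u : (𝓞 F)ˣ, scU u ∉ Submodule.span (ZMod 2) {sc (-1 : F)} := by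
  refine ⟨Units.fundSystem F ⟨0, h⟩, ?_⟩
  intro hmem
  obtain ⟨s, hs⟩ := exists_sqrt_of_mem hmem
  obtain ⟨δ, hδ, hs⟩ : ∃ δ ∈ Units.torsion F, Units.fundSystem F ⟨0, h⟩ = δ * s ^ 2 := by
    rcases hs with hs | hs
    · exact ⟨1, Subgroup.one_mem _, by rw [hs, one_mul]⟩
    · refine ⟨-1, ?_, by rw [hs, neg_mul, one_mul]⟩
      rw [Units.torsion, CommGroup.mem_torsion]
      exact isOfFinOrder_iff_pow_eq_one.2 ⟨2, by norm_num, by simp⟩
  obtain ⟨⟨ζ, f⟩, hf, -⟩ := Units.exist_unique_eq_mul_prod F s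
  simp only at hf
  have e1 : Units.fundSystem F ⟨0, h⟩ = (δ * ζ ^ 2) * ∏ i, Units.fundSystem F i ^ (2 * f i) := by
    rw [hs, hf, mul_pow, ← Finset.prod_pow, mul_assoc]
    congr 2
    apply Finset.prod_congr rfl
    intro i _
    rw [← zpow_natCast, ← zpow_mul, mul_comm]
    rfl
  have e2 : Units.fundSystem F ⟨0, h⟩ = 1 * ∏ i, Units.fundSystem F i ^
      ((Pi.single ⟨0, h⟩ 1 : Fin (Units.rank F) → ℤ) i) := by
    rw [one_mul, Finset.prod_eq_single ⟨0, h⟩]
    · rw [Pi.single_eq_same, zpow_one]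
    · intro b _ hb
      rw [Pi.single_eq_of_ne hb, zpow_zero]
    · intro hcon; exact absurd (Finset.mem_univ _) hcon
  have r1 := Units.fun_eq_repr F (Subgroup.mul_mem _ hδ (Subgroup.pow_mem _ ζ.2 2)) e1
  have r2 := Units.fun_eq_repr F (Subgroup.one_mem _) e2
  have r3 := congrFun (r1.trans r2.symm) ⟨0, h⟩
  rw [Pi.single_eq_same] at r3
  omega

end general

end Pool.Agent.Helper25.Biq
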