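import Mathlib
import Pool.Agent.Helper25.V4
import Pool.Agent.Helper25.ClAct

/-!
# Odd primes do not ramify in all three quadratic subfields
-/

namespace Pool.Agent.Helper25.Biq

open Module NumberField
open scoped nonZeroDivisors

section general

variable {k : Type*} [Field k] [NumberField k]

/-- A rational number that is an algebraic integer of `k` is an integer. -/
lemma exists_int_of_rat {z : 𝓞 k} {q : ℚ} (h : algebraMap (𝓞 k) k z = algebraMap ℚ k q) :
    ∃ n : ℤ, q = n := by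
  have h1 : IsIntegral ℤ (algebraMap ℚ k q) := by rw [← h]; exact RingOfIntegers.isIntegral_coe z
  have h2 : IsIntegral ℤ q := (isIntegral_algebraMap_iff (algebraMap ℚ k).injective).1 h1
  obtain ⟨n, hn⟩ := IsIntegrallyClosed.isIntegral_iff.1 h2
  exact ⟨n, by rw [← hn]; rfl⟩

/-- Divisibility of integers can be tested in the ring of integers. -/
lemma int_dvd_of_dvd {a b : ℤ} (ha : a ≠ 0) (h : (a : 𝓞 k) ∣ (b : 𝓞 k)) : a ∣ b := by
  obtain ⟨z, hz⟩ := h
  have hz' := congrArg (algebraMap (𝓞 k) k) hz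
  rw [map_mul, map_intCast, map_intCast] at hz'
  have ha' : (a : k) ≠ 0 := by exact_mod_cast ha
  have h1 : algebraMap (𝓞 k) k z = algebraMap ℚ k ((b : ℚ) / a) := by
    rw [map_div₀, map_intCast, map_intCast, hz', mul_div_cancel_left₀ _ ha']
  obtain ⟨n, hn⟩ := exists_int_of_rat h1
  refine ⟨n, ?_⟩
  have ha'' : (a : ℚ) ≠ 0 := by exact_mod_cast ha
  rw [div_eq_iff ha''] at hn
  have : (b : ℚ) = ((a * n : ℤ) : ℚ) := by rw [hn]; push_cast; ring
  exact_mod_cast this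

/-- If the prime `p` is the square of an ideal of the ring of integers of a quadratic field, then
every element is congruent to an integer modulo this ideal. -/
lemma exists_int_congr (hk : finrank ℚ k = 2) {p : ℕ} (hp : p.Prime) {b : Ideal (𝓞 k)}
    (hb : b ^ 2 = Ideal.span {(p : 𝓞 k)}) (x : 𝓞 k) : ∃ c : ℤ, x - c ∈ b := by
  have h1 : Ideal.absNorm b = p := by
    have h2 : Ideal.absNorm b ^ 2 = p ^ 2 := by
      rw [← map_pow, hb, Ideal.absNorm_span_natCast, RingOfIntegers.rank, hk]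
    exact Nat.pow_left_injective (n := 2) (by norm_num) h2
  have h2 : Nat.card (𝓞 k ⧸ b) = p := by
    rw [← h1, Ideal.absNorm_apply, Submodule.cardQuot_apply]
  have := Fact.mk hp
  have hne : (1 : 𝓞 k ⧸ b) ≠ 0 := by
    intro h0
    have : b = ⊤ := by
      rw [Ideal.eq_top_iff_one, ← Ideal.Quotient.eq_zero_iff_mem, map_one]
      exact h0
    rw [this, Ideal.absNorm_top] at h1
    exact hp.one_lt.ne h1
  have h3 := zmultiples_eq_top_of_prime_card (G := 𝓞 k ⧸ b) h2 hne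
  have h4 : Ideal.Quotient.mk b x ∈ AddSubgroup.zmultiples (1 : 𝓞 k ⧸ b) := by
    rw [h3]; trivial
  obtain ⟨c, hc⟩ := AddSubgroup.mem_zmultiples_iff.1 h4
  refine ⟨c, ?_⟩
  rw [← Ideal.Quotient.eq_zero_iff_mem, map_sub, ← hc, map_intCast, zsmul_one, sub_self]

/-- An odd prime that is the square of an ideal divides the radicand. -/
lemma dvd_radicand (hk : finrank ℚ k = 2) {p : ℕ} (hp : p.Prime) (hp2 : p ≠ 2) {b : Ideal (𝓞 k)}
    (hb : b ^ 2 = Ideal.span {(p : 𝓞 k)}) {x : 𝓞 k} {m : ℤ} (hx : x ^ 2 = m)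
    (htr : ∀ z : 𝓞 k, ∀ c : ℤ, (c : 𝓞 k) - x = p * z → (p : ℤ) ∣ 2 * c) : (p : ℤ) ∣ m := by
  by_contra hm
  have hp0 : (p : ℤ) ≠ 0 := by exact_mod_cast hp.ne_zero
  have hpi : Prime (p : ℤ) := Nat.prime_iff_prime_int.1 hp
  obtain ⟨c, hc⟩ := exists_int_congr hk hp hb x
  have hsq : ∀ y ∈ b, (p : 𝓞 k) ∣ y ^ 2 := by
    intro y hy
    rw [← Ideal.mem_span_singleton, ← hb]
    exact Ideal.pow_mem_pow hy 2
  have h1 : (p : ℤ) ∣ m - c ^ 2 := by
    have h2 : ((m - c ^ 2 : ℤ) : 𝓞 k) ∈ b := by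
      have : ((m - c ^ 2 : ℤ) : 𝓞 k) = (x + c) * (x - c) := by push_cast; rw [← hx]; ring
      rw [this]
      exact Ideal.mul_mem_left _ _ hc
    have h3 := hsq _ h2
    have h4 : ((p : ℤ) : 𝓞 k) ∣ (((m - c ^ 2) ^ 2 : ℤ) : 𝓞 k) := by
      rw [Int.cast_pow]
      exact_mod_cast h3
    exact hpi.dvd_of_dvd_pow (int_dvd_of_dvd hp0 h4)
  have hc0 : ¬ (p : ℤ) ∣ c := by
    intro h
    apply hm
    have h5 := dvd_add h1 (dvd_pow h two_ne_zero)
    rwa [sub_add_cancel] at h5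
  have h2c : ¬ (p : ℤ) ∣ 2 * c := by
    intro h
    rcases hpi.dvd_or_dvd h with h | h
    · have h6 : p ∣ 2 := by exact_mod_cast h
      exact hp2 ((Nat.prime_dvd_prime_iff_eq hp Nat.prime_two).1 h6)
    · exact hc0 h
  have h7 : (p : 𝓞 k) ∣ (2 * c : ℤ) * ((c : 𝓞 k) - x) := by
    have h8 := hsq _ hc
    obtain ⟨t, ht⟩ := h1
    have h9 : ((m : ℤ) : 𝓞 k) - (c : 𝓞 k) ^ 2 = p * t := by
      have := congrArg (fun z : ℤ => (z : 𝓞 k)) ht
      push_cast at this
      exact this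
    have h10 : ((2 * c : ℤ) : 𝓞 k) * ((c : 𝓞 k) - x) = (x - c) ^ 2 - p * t := by
      push_cast
      rw [← h9, ← hx]; ring
    rw [h10]
    exact dvd_sub h8 (dvd_mul_right _ _)
  obtain ⟨u, v, huv⟩ := (Prime.coprime_iff_not_dvd hpi).2 h2c
  have huv' : (u : 𝓞 k) * p + v * (2 * c : ℤ) = 1 := by
    have := congrArg (fun z : ℤ => (z : 𝓞 k)) huv
    push_cast at this ⊢
    exact this
  have h11 : (p : 𝓞 k) ∣ (c : 𝓞 k) - x := by
    have h12 : (c : 𝓞 k) - x = p * (u * ((c : 𝓞 k) - x)) +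
        v * ((2 * c : ℤ) * ((c : 𝓞 k) - x)) := by
      linear_combination (-((c : 𝓞 k) - x)) * huv'
    rw [h12]
    exact dvd_add (dvd_mul_right _ _) (dvd_mul_of_dvd_right h7 _)
  obtain ⟨z, hz⟩ := h11
  exact h2c (htr z c hz)

/-- If the class of an integer of the field is in the Selmer group, then it generates the square
of an ideal. -/
lemma exists_sq_ideal {a : 𝓞 k} (ha : a ≠ 0) (h : sc (algebraMap (𝓞 k) k a) ∈ Sel k) :
    ∃ J : Ideal (𝓞 k), J ^ 2 = Ideal.span {a} := by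
  obtain ⟨α, I, hα, hI, h⟩ := mem_Sel.1 h
  obtain ⟨c, hc, hac⟩ := (sc_eq_iff (alg_ne_zero ha) (alg_ne_zero hα)).1 h
  obtain ⟨x, y, hy, rfl⟩ := IsFractionRing.div_surjective (A := 𝓞 k) c
  have hy0 : y ≠ 0 := nonZeroDivisors.ne_zero hy
  have hy' := alg_ne_zero hy0
  have h1 : a * y ^ 2 = α * x ^ 2 := by
    apply RingOfIntegers.coe_injective
    rw [map_mul, map_mul, map_pow, map_pow, hac]
    field_simp
  have h2 : Ideal.span {a} * Ideal.span {y} ^ 2 = (I * Ideal.span {x}) ^ 2 := by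
    rw [mul_pow, hI, Ideal.span_singleton_pow, Ideal.span_singleton_pow,
      Ideal.span_singleton_mul_span_singleton, Ideal.span_singleton_mul_span_singleton, h1]
  have h3 : Ideal.span {y} ∣ I * Ideal.span {x} :=
    (UniqueFactorizationMonoid.pow_dvd_pow_iff_dvd two_ne_zero).1 (h2 ▸ dvd_mul_left _ _)
  obtain ⟨J, hJ⟩ := h3
  refine ⟨J, ?_⟩
  rw [hJ, mul_pow, mul_comm (Ideal.span {y} ^ 2)] at h2
  have hy2 : (Ideal.span {y} : Ideal (𝓞 k)) ^ 2 ≠ 0 := by
    apply pow_ne_zero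
    intro h0
    exact hy0 (Ideal.span_singleton_eq_bot.1 h0)
  exact (mul_right_cancel₀ hy2 h2).symm

/-- If a squarefree number is the square of an ideal, so are its prime divisors. -/
lemma exists_sq_ideal_prime {a p : ℕ} (ha : Squarefree a) (hpa : p ∣ a)
    {J : Ideal (𝓞 k)} (hJ : J ^ 2 = Ideal.span {(a : 𝓞 k)}) :
    ∃ b : Ideal (𝓞 k), b ^ 2 = Ideal.span {(p : 𝓞 k)} := by
  obtain ⟨a', rfl⟩ := hpa
  have hcop : Nat.Coprime p a' := Nat.coprime_of_squarefree_mul ha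
  have hcop' : IsCoprime (Ideal.span {(p : 𝓞 k)}) (Ideal.span {(a' : 𝓞 k)}) := by
    rw [Ideal.isCoprime_span_singleton_iff]
    have := (Nat.isCoprime_iff_coprime.2 hcop).map (Int.castRingHom (𝓞 k))
    simpa using this
  have hmul : Ideal.span {(p : 𝓞 k)} * Ideal.span {(a' : 𝓞 k)} = J ^ 2 := by
    rw [Ideal.span_singleton_mul_span_singleton, hJ]
    push_cast
    rfl
  obtain ⟨d, hd⟩ := exists_eq_pow_of_mul_eq_pow_of_coprime hcop' hmul
  exact ⟨d, hd.symm⟩

end general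

section biquadratic

variable {K : Type*} [Field K] [NumberField K] [IsGalois ℚ K] {σ τ ρ : K ≃ₐ[ℚ] K}

lemma finrank_fx_two (h : V4 σ τ ρ) : finrank ℚ (fx σ) = 2 := by
  have h1 := Module.finrank_mul_finrank ℚ (fx σ) K
  rw [finrank_fx h.s1 h.ss, finrank_four h] at h1
  omega

/-- If `x² = m` is an integer, `x` is fixed by `σ` and negated by `τ`, then an odd prime that is
the square of an ideal in the fixed field of `σ` divides `m`. -/
lemma dvd_radicand' (h : V4 σ τ ρ) {p : ℕ} (hp : p.Prime) (hp2 : p ≠ 2) {b : Ideal (𝓞 (fx σ))}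
    (hb : b ^ 2 = Ideal.span {(p : 𝓞 (fx σ))}) {x : K} {m : ℤ} (hx : x ^ 2 = m)
    (hσ : σ x = x) (hτ : τ x = -x) : (p : ℤ) ∣ m := by
  have hint : IsIntegral ℤ (⟨x, mem_fx.2 hσ⟩ : fx σ) := by
    refine ⟨Polynomial.X ^ 2 - Polynomial.C m, Polynomial.monic_X_pow_sub_C m two_ne_zero, ?_⟩
    apply (algebraMap (fx σ) K).injective
    simp only [Polynomial.eval₂_sub, Polynomial.eval₂_pow, Polynomial.eval₂_X,
      Polynomial.eval₂_C, map_sub, map_pow, map_zero]
    have : algebraMap (fx σ) K ⟨x, mem_fx.2 hσ⟩ = x := rfl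
    rw [this, hx]
    simp
  let X : 𝓞 (fx σ) := ⟨⟨x, mem_fx.2 hσ⟩, hint⟩
  have hX2 : X ^ 2 = m := by
    apply RingOfIntegers.coe_injective
    apply (algebraMap (fx σ) K).injective
    rw [map_pow, map_pow, map_intCast, map_intCast]
    exact hx
  refine dvd_radicand (finrank_fx_two h) hp hp2 hb hX2 ?_
  intro z c hz
  -- apply `τ` in `K`
  have hz' := congrArg (fun y => algebraMap (fx σ) K (algebraMap (𝓞 (fx σ)) (fx σ) y)) hz
  simp only [map_sub, map_mul, map_intCast, map_natCast] at hz'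
  have hXx : algebraMap (fx σ) K (algebraMap (𝓞 (fx σ)) (fx σ) X) = x := rfl
  rw [hXx] at hz'
  set w : K := algebraMap (fx σ) K (algebraMap (𝓞 (fx σ)) (fx σ) z) with hw
  have hτz := congrArg τ hz'
  rw [map_sub, map_mul, map_intCast, map_natCast, hτ] at hτz
  have hsum : (2 * c : K) = p * (w + τ w) := by linear_combination hz' + hτz
  have hp0 : (p : K) ≠ 0 := by exact_mod_cast hp.ne_zero
  let zK : 𝓞 K := algebraMap (𝓞 (fx σ)) (𝓞 K) z
  have hzK : algebraMap (𝓞 K) K zK = w := rfl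
  have h1 : algebraMap (𝓞 K) K (zK + oAut τ zK) = algebraMap ℚ K ((2 * c : ℤ) / p : ℚ) := by
    rw [map_add, algebraMap_oAut, hzK, map_div₀, map_intCast, map_natCast, eq_div_iff hp0]
    push_cast
    rw [hsum]; ring
  obtain ⟨n, hn⟩ := exists_int_of_rat h1
  refine ⟨n, ?_⟩
  have hp0' : (p : ℚ) ≠ 0 := by exact_mod_cast hp.ne_zero
  rw [div_eq_iff hp0'] at hn
  have : ((2 * c : ℤ) : ℚ) = ((p * n : ℤ) : ℚ) := by rw [hn]; push_cast; ring
  exact_mod_cast this

/-- The parity statement. -/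
lemma odd_padicValRat (h : V4 σ τ ρ) {p : ℕ} (hp : p.Prime) (hp2 : p ≠ 2)
    {b : Ideal (𝓞 (fx σ))} (hb : b ^ 2 = Ideal.span {(p : 𝓞 (fx σ))}) {x : K} {d : ℚ}
    (hd : d ≠ 0) (hx : x ^ 2 = algebraMap ℚ K d)
    (hσ : σ x = x) (hτ : τ x = -x) : Odd (padicValRat p d) := by
  have := Fact.mk hp
  by_contra hodd
  rw [Int.not_odd_iff_even] at hodd
  obtain ⟨a, ha⟩ := hodd
  have hp0 : (p : ℚ) ≠ 0 := by exact_mod_cast hp.ne_zero
  set u : ℚ := d * (p : ℚ) ^ (-(2 * a)) with hu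
  have hu0 : u ≠ 0 := mul_ne_zero hd (zpow_ne_zero _ hp0)
  have hval : padicValRat p u = 0 := by
    rw [hu, padicValRat.mul hd (zpow_ne_zero _ hp0), ha, padicValRat.zpow,
      padicValRat.self hp.one_lt]
    ring
  have hnum : ¬ (p : ℤ) ∣ u.num := by
    intro hdvd
    have h1 : padicValInt p u.num ≠ 0 := by
      have h2 := (padicValInt_dvd_iff (p := p) 1 u.num).1 (by simpa using hdvd)
      rcases h2 with h2 | h2
      · exact absurd (Rat.num_eq_zero.1 h2) hu0
      · omega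
    have h3 : padicValNat p u.den = 0 := by
      apply padicValNat.eq_zero_of_not_dvd
      intro h4
      have h5 := Nat.dvd_gcd ((Int.natCast_dvd.1 hdvd)) h4
      rw [u.reduced] at h5
      exact hp.one_lt.ne' (Nat.dvd_one.1 h5)
    rw [padicValRat.eq_1, h3] at hval
    omega
  have hden : ¬ (p : ℤ) ∣ u.den := by
    intro hdvd
    have hdvd' : p ∣ u.den := by exact_mod_cast hdvd
    have h1 : padicValNat p u.den ≠ 0 := by
      have := one_le_padicValNat_of_dvd u.den_nz hdvd'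
      omega
    have h3 : padicValInt p u.num = 0 := by
      rw [padicValInt.eq_1]
      apply padicValNat.eq_zero_of_not_dvd
      intro h4
      have h5 := Nat.dvd_gcd h4 hdvd'
      rw [u.reduced] at h5
      exact hp.one_lt.ne' (Nat.dvd_one.1 h5)
    rw [padicValRat.eq_1, h3] at hval
    omega
  have hM : (x * algebraMap ℚ K ((p : ℚ) ^ (-a) * u.den)) ^ 2 = ((u.num * u.den : ℤ) : K) := by
    rw [mul_pow, hx, ← map_pow, ← map_mul]
    rw [← map_intCast (algebraMap ℚ K)]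
    congr 1
    have h1 : u * u.den = u.num := Rat.mul_den_eq_num u
    push_cast
    rw [mul_pow, ← h1, hu, ← zpow_natCast, ← zpow_mul]
    push_cast
    rw [show -a * 2 = -(2 * a) by ring]
    ring
  have hdvd := dvd_radicand' h hp hp2 hb hM (by
    rw [map_mul, hσ, AlgEquiv.commutes]) (by
    rw [map_mul, hτ, AlgEquiv.commutes, neg_mul])
  rcases (Nat.prime_iff_prime_int.1 hp).dvd_or_dvd hdvd with h1 | h1
  · exact hnum h1
  · exact hden h1

end biquadratic

end Pool.Agent.Helper25.Biq
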