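import Mathlib
import Pool.Agent.Helper25.Ram

/-!
# Norms of units of biquadratic fields to the quadratic subfields
-/

namespace Pool.Agent.Helper25.Biq

open Module NumberField
open scoped nonZeroDivisors

variable {K : Type*} [Field K] [NumberField K] [IsGalois ℚ K] {σ τ ρ : K ≃ₐ[ℚ] K}

/-- The norm map on square classes. -/
noncomputable def Nm (g : K ≃ₐ[ℚ] K) : SqCl K →ₗ[ZMod 2] SqCl (fx g) :=
  scMap (Algebra.norm (fx g) : K →* fx g)

omit [IsGalois ℚ K] in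
lemma Nm_sc (g : K ≃ₐ[ℚ] K) {a : K} (ha : a ≠ 0) :
    Nm g (sc a) = sc (Algebra.norm (fx g) a) := scMap_sc _ ha

lemma norm_alg {g : K ≃ₐ[ℚ] K} (h1 : g ≠ 1) (h2 : g * g = 1) (x : fx g) :
    Algebra.norm (fx g) (algebraMap (fx g) K x) = x ^ 2 := by
  rw [Algebra.norm_algebraMap, finrank_fx h1 h2]

lemma Nm_B_self {g : K ≃ₐ[ℚ] K} (h1 : g ≠ 1) (h2 : g * g = 1) {s : SqCl K} (hs : s ∈ B g) :
    Nm g s = 0 := by
  obtain ⟨t, -, rfl⟩ := hs
  obtain ⟨γ, hγ, rfl⟩ := sc_surj t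
  have hγK : algebraMap (fx g) K γ ≠ 0 := (map_ne_zero_iff _ (algebraMap (fx g) K).injective).2 hγ
  rw [scMap_sc _ hγ]
  have h3 : Nm g (sc (algebraMap (fx g) K γ)) = 0 := by
    rw [Nm_sc _ hγK, norm_alg h1 h2, sc_sq]
  exact h3

/-- The product of an element of one quadratic subfield with its conjugate is, up to sign, the
square of a rational number if the element generates the square of an ideal. -/
lemma mul_conj (h : V4 σ τ ρ) {a : 𝓞 (fx τ)} {I : Ideal (𝓞 (fx τ))} (ha : a ≠ 0)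
    (hI : I ^ 2 = Ideal.span {a}) :
    ∃ (n : ℕ) (ε : ℤ), n ≠ 0 ∧ (ε = 1 ∨ ε = -1) ∧
      algebraMap (𝓞 (fx τ)) K a * σ (algebraMap (𝓞 (fx τ)) K a) = ((ε * n ^ 2 : ℤ) : K) := by
  set A : 𝓞 K := algebraMap (𝓞 (fx τ)) (𝓞 K) a with hA
  have hAK : algebraMap (𝓞 K) K A = algebraMap (𝓞 (fx τ)) K a := rfl
  have hτA : τ (algebraMap (𝓞 K) K A) = algebraMap (𝓞 K) K A := by
    rw [hAK]
    exact apply_fx (algebraMap (𝓞 (fx τ)) (fx τ) a)
  rw [← hAK]
  obtain ⟨q, hq⟩ := exists_rat h (x := algebraMap (𝓞 K) K A * σ (algebraMap (𝓞 K) K A))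
    (by rw [map_mul, h.hss, mul_comm]) (by
      rw [map_mul, hτA, h.hts, ← h.hst, hτA])
  have h1 : algebraMap (𝓞 K) K (A * oAut σ A) = algebraMap ℚ K q := by
    rw [hq, map_mul, algebraMap_oAut]
  obtain ⟨m, hm⟩ := exists_int_of_rat h1
  have h2 : A * oAut σ A = (m : 𝓞 K) := by
    apply RingOfIntegers.coe_injective
    rw [h1, hm, map_intCast, map_intCast]
  have hn1 : Ideal.absNorm (Ideal.span {A}) = Ideal.absNorm I ^ 4 := by
    have h3 : Ideal.span {A} = ((I ^ 2).map (algebraMap (𝓞 (fx τ)) (𝓞 K))) := by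
      rw [hI, Ideal.map_span, Set.image_singleton]
    rw [h3, Ideal.map_pow, map_pow, Ideal.absNorm_algebraMap,
      ← IsFractionRing.finrank_eq (𝓞 (fx τ)) (fx τ) (𝓞 K) K, finrank_fx h.t1 h.tt, ← pow_mul]
  have hn2 : Ideal.absNorm (Ideal.span {oAut σ A}) = Ideal.absNorm (Ideal.span {A}) := by
    rw [Ideal.absNorm_span_singleton, Ideal.absNorm_span_singleton]
    congr 1
    exact Algebra.norm_eq_of_algEquiv (oAut σ).toIntAlgEquiv A
  have hn3 : Ideal.absNorm (Ideal.span {(m : 𝓞 K)}) = m.natAbs ^ 4 := by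
    have h4 : Ideal.span {(m : 𝓞 K)} = Ideal.span {((m.natAbs : ℕ) : 𝓞 K)} := by
      rcases Int.natAbs_eq m with h5 | h5
      · conv_lhs => rw [h5]
        rw [Int.cast_natCast]
      · conv_lhs => rw [h5]
        rw [Int.cast_neg, Int.cast_natCast, Ideal.span_singleton_neg]
    rw [h4, Ideal.absNorm_span_natCast, RingOfIntegers.rank, finrank_four h]
  have h5 : m.natAbs ^ 4 = (Ideal.absNorm I ^ 2) ^ 4 := by
    rw [← hn3, ← h2, ← Ideal.span_singleton_mul_span_singleton, map_mul, hn2, hn1]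
    ring
  have h6 : m.natAbs = Ideal.absNorm I ^ 2 := Nat.pow_left_injective (n := 4) (by norm_num) h5
  have hI0 : Ideal.absNorm I ≠ 0 := by
    rw [Ne, Ideal.absNorm_eq_zero_iff]
    rintro rfl
    rw [Ideal.bot_pow two_ne_zero, eq_comm, Ideal.span_singleton_eq_bot] at hI
    exact ha hI
  have h7 : algebraMap (𝓞 K) K A * σ (algebraMap (𝓞 K) K A) = (m : K) := by
    rw [← algebraMap_oAut, ← map_mul, h2, map_intCast]
  rcases Int.natAbs_eq m with h8 | h8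
  · refine ⟨Ideal.absNorm I, 1, hI0, Or.inl rfl, ?_⟩
    rw [h7, h8, h6]; push_cast; ring
  · refine ⟨Ideal.absNorm I, -1, hI0, Or.inr rfl, ?_⟩
    rw [h7, h8, h6]; push_cast; ring

/-- The subspace of classes whose norm to the fixed field of `g` is trivial up to sign. -/
noncomputable def K1 (g : K ≃ₐ[ℚ] K) : Submodule (ZMod 2) (SqCl K) :=
  (Submodule.span (ZMod 2) {sc (-1 : fx g)}).comap (Nm g)

omit [IsGalois ℚ K] in
lemma mem_K1 {g : K ≃ₐ[ℚ] K} {s : SqCl K} :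
    s ∈ K1 g ↔ Nm g s ∈ Submodule.span (ZMod 2) {sc (-1 : fx g)} := Iff.rfl

lemma B_le_K1_self {g : K ≃ₐ[ℚ] K} (h1 : g ≠ 1) (h2 : g * g = 1) : B g ≤ K1 g := by
  intro s hs
  rw [mem_K1, Nm_B_self h1 h2 hs]
  exact Submodule.zero_mem _

lemma B_le_K1_other (h : V4 σ τ ρ) : B τ ≤ K1 σ := by
  rintro _ ⟨t, ⟨a, I, ha, hI, rfl⟩, rfl⟩
  rw [mem_K1]
  obtain ⟨n, ε, hn, hε, hm⟩ := mul_conj h ha hI
  have ha' := alg_ne_zero ha
  have haK : algebraMap (fx τ) K (algebraMap (𝓞 (fx τ)) (fx τ) a) ≠ 0 :=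
    (map_ne_zero_iff _ (algebraMap (fx τ) K).injective).2 ha'
  rw [scMap_sc _ ha']
  have h3 : Nm σ (sc (algebraMap (fx τ) K (algebraMap (𝓞 (fx τ)) (fx τ) a))) =
      sc (((ε * n ^ 2 : ℤ) : fx σ)) := by
    rw [Nm_sc _ haK]
    congr 1
    apply (algebraMap (fx σ) K).injective
    rw [norm_fx h.s1 h.ss, map_intCast, ← hm]
    rfl
  have h4 : sc (((ε * n ^ 2 : ℤ) : fx σ)) ∈ Submodule.span (ZMod 2) {sc (-1 : fx σ)} := by
    have hn' : (n : fx σ) ≠ 0 := by exact_mod_cast hn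
    rcases hε with rfl | rfl
    · push_cast
      rw [one_mul, sc_sq]; exact Submodule.zero_mem _
    · push_cast
      rw [sc_mul (neg_ne_zero.2 one_ne_zero) (pow_ne_zero 2 hn'), sc_sq, add_zero]
      exact Submodule.mem_span_singleton_self _
  exact h3 ▸ h4

end Pool.Agent.Helper25.Biq
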