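import Mathlib
import Pool.Agent.Helper25.Good
import Pool.Agent.Helper25.B0
import Pool.Agent.Helper25.UnitNorm

/-!
# The bounds for the triple intersection in the quotient by the units
-/

namespace Pool.Agent.Helper25.Biq

open Module NumberField
open scoped nonZeroDivisors

variable {K : Type*} [Field K] [NumberField K] {σ τ ρ : K ≃ₐ[ℚ] K}

/-- Units of the fixed field as units of `K`. -/
noncomputable def uMap (g : K ≃ₐ[ℚ] K) : (𝓞 (fx g))ˣ →* (𝓞 K)ˣ :=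
  Units.map (algebraMap (𝓞 (fx g)) (𝓞 K) : 𝓞 (fx g) →* 𝓞 K)

lemma scU_uMap (g : K ≃ₐ[ℚ] K) (u : (𝓞 (fx g))ˣ) :
    scU (uMap g u) = scMap (algebraMap (fx g) K : fx g →* K) (scU u) := by
  rw [scU, scU, scMap_sc _ (alg_ne_zero u.ne_zero)]
  rfl

lemma scU_uMap_mem (g : K ≃ₐ[ℚ] K) (u : (𝓞 (fx g))ˣ) : scU (uMap g u) ∈ UCl K ⊓ B g := by
  refine ⟨⟨_, rfl⟩, ?_⟩
  rw [scU_uMap]
  exact ⟨_, UCl_le_Sel ⟨u, rfl⟩, rfl⟩

lemma neg_one_mem (g : K ≃ₐ[ℚ] K) : sc (-1 : K) ∈ UCl K ⊓ B g := by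
  have h := scU_uMap_mem g (-1)
  have h2 : scU (uMap g (-1)) = sc (-1 : K) := by
    rw [scU]
    simp [uMap]
  rwa [h2] at h

variable [IsGalois ℚ K]

/-- If a unit that is not a square up to sign in the quadratic subfield becomes a square up to
sign, then its square root has nontrivial norm. -/
lemma exists_eta {g : K ≃ₐ[ℚ] K} (h1 : g ≠ 1) (h2 : g * g = 1) {u : (𝓞 (fx g))ˣ}
    (hu : scU u ∉ Submodule.span (ZMod 2) {sc (-1 : fx g)})
    (hK : scU (uMap g u) ∈ Submodule.span (ZMod 2) {sc (-1 : K)}) :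
    ∃ v : (𝓞 K)ˣ, scU v ∉ K1 g ∧ (uMap g u = v ^ 2 ∨ uMap g u = -v ^ 2) := by
  obtain ⟨v, hv⟩ := exists_sqrt_of_mem hK
  refine ⟨v, ?_, hv⟩
  intro hmem
  apply hu
  rw [mem_K1] at hmem
  have hv0 : algebraMap (𝓞 K) K v ≠ 0 := alg_ne_zero v.ne_zero
  set N : fx g := Algebra.norm (fx g) (algebraMap (𝓞 K) K v) with hN
  have hN1 : Nm g (scU v) = sc N := Nm_sc g hv0
  rw [hN1] at hmem
  set x : fx g := algebraMap (𝓞 (fx g)) (fx g) u with hx
  have hx0 : x ≠ 0 := alg_ne_zero u.ne_zero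
  have hxK : algebraMap (fx g) K x = algebraMap (𝓞 K) K (uMap g u) := rfl
  have hN2 : N ^ 2 = x ^ 2 := by
    have h3 : (algebraMap (𝓞 K) K v) ^ 2 = algebraMap (fx g) K x ∨
        (algebraMap (𝓞 K) K v) ^ 2 = algebraMap (fx g) K (-x) := by
      rw [map_neg, hxK]
      rcases hv with hv | hv
      · left; rw [hv, Units.val_pow_eq_pow_val, map_pow]
      · right; rw [hv, Units.val_neg, Units.val_pow_eq_pow_val, map_neg, map_pow, neg_neg]
    rw [hN, ← map_pow]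
    rcases h3 with h3 | h3
    · rw [h3, norm_alg h1 h2]
    · rw [h3, norm_alg h1 h2, neg_sq]
  have hxsc : scU u = sc x := rfl
  rcases sq_eq_sq_iff_eq_or_eq_neg.1 hN2 with h4 | h4
  · rw [hxsc, ← h4]; exact hmem
  · rw [hxsc]
    have h5 : sc N = sc (-1) + sc x := by
      rw [h4, ← sc_mul (neg_ne_zero.2 one_ne_zero) hx0]; congr 1; ring
    have h6 : sc x = sc N + sc (-1) := by
      rw [h5, add_comm (sc (-1)), add_assoc, add_self, add_zero]
    rw [h6]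
    exact Submodule.add_mem _ hmem (Submodule.mem_span_singleton_self _)

/-- In a real field, the square root of a unit of one quadratic subfield has trivial norm to the
others. -/
lemma eta_mem_other (h : V4 σ τ ρ) (φ : K →+* ℝ) {u : (𝓞 (fx σ))ˣ} {v : (𝓞 K)ˣ}
    (hv : uMap σ u = v ^ 2 ∨ uMap σ u = -v ^ 2) : scU v ∈ K1 τ := by
  set y : K := algebraMap (𝓞 K) K v with hy
  have hv0 : y ≠ 0 := alg_ne_zero v.ne_zero
  set w : (𝓞 K)ˣ := uMap σ u with hw
  set z : K := algebraMap (𝓞 K) K w with hz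
  have hσz : σ z = z := apply_fx (algebraMap (𝓞 (fx σ)) (fx σ) u)
  have hyz : y ^ 2 = z ∨ y ^ 2 = -z := by
    rcases hv with hv | hv
    · left; rw [hz, hv, Units.val_pow_eq_pow_val, map_pow]
    · right; rw [hz, hv, Units.val_neg, Units.val_pow_eq_pow_val, map_neg, map_pow, neg_neg]
  -- `z * τ z = ± 1`
  obtain ⟨q, hq⟩ := exists_rat h (x := z * τ z) (by rw [map_mul, hσz, h.hst, ← h.hts, hσz])
    (by rw [map_mul, h.swap.hss, mul_comm])
  have h1 : algebraMap (𝓞 K) K (w * oAut τ w) = algebraMap ℚ K q := by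
    rw [hq, map_mul, algebraMap_oAut]
  obtain ⟨m, hm⟩ := exists_int_of_rat h1
  have h2 : (w : 𝓞 K) * oAut τ w = (m : 𝓞 K) := by
    apply RingOfIntegers.coe_injective
    rw [h1, hm, map_intCast, map_intCast]
  have hunit : IsUnit ((m : ℤ) : 𝓞 K) := by
    rw [← h2]
    exact w.isUnit.mul (w.isUnit.map (oAut τ))
  have hm1 : m ∣ 1 := by
    have hm0 : m ≠ 0 := by
      rintro rfl
      rw [Int.cast_zero] at hunit
      exact not_isUnit_zero hunit
    exact int_dvd_of_dvd (k := K) hm0 (by rw [Int.cast_one]; exact hunit.dvd)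
  have hm2 : m = 1 ∨ m = -1 := Int.isUnit_iff.1 (isUnit_of_dvd_one hm1)
  have hN : (y * τ y) ^ 2 = (m : K) := by
    have h3 : (y * τ y) ^ 2 = y ^ 2 * τ (y ^ 2) := by rw [map_pow]; ring
    have h4 : z * τ z = (m : K) := by rw [← hq, hm, map_intCast]
    rw [h3, ← h4]
    rcases hyz with h5 | h5
    · rw [h5]
    · rw [h5, map_neg]; ring
  have hN1 : (y * τ y) ^ 2 = 1 := by
    rcases hm2 with rfl | rfl
    · rw [hN]; push_cast; rfl
    · exfalso
      have h6 := congrArg φ hN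
      rw [map_pow, map_intCast] at h6
      have h7 := sq_nonneg (φ (y * τ y))
      rw [h6] at h7
      norm_num at h7
  rw [mem_K1]
  have h8 : Nm τ (scU v) = sc (Algebra.norm (fx τ) y) := Nm_sc τ hv0
  rw [h8]
  have h9 : algebraMap (fx τ) K (Algebra.norm (fx τ) y) = y * τ y := norm_fx h.t1 h.tt y
  have h10 : (Algebra.norm (fx τ) y) ^ 2 = 1 := by
    apply (algebraMap (fx τ) K).injective
    rw [map_pow, h9, hN1, map_one]
  have h10' : (Algebra.norm (fx τ) y) ^ 2 = 1 ^ 2 := by rw [h10, one_pow]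
  rcases sq_eq_sq_iff_eq_or_eq_neg.1 h10' with h11 | h11
  · rw [h11, sc_one]; exact Submodule.zero_mem _
  · rw [h11]; exact Submodule.mem_span_singleton_self _

lemma sup_le_K1 (h : V4 σ τ ρ) : B σ ⊔ B τ ≤ K1 σ ⊓ K1 τ :=
  sup_le (le_inf (B_le_K1_self h.s1 h.ss) (B_le_K1_other h.swap))
    (le_inf (B_le_K1_other h) (B_le_K1_self h.t1 h.tt))

/-- codimension at least one -/
lemma pair_one (h : V4 σ τ ρ) {v : (𝓞 K)ˣ} (hv : scU v ∉ K1 σ ⊓ K1 τ) :
    finrank (ZMod 2) (UCl K ⊓ (B σ ⊔ B τ) : Submodule (ZMod 2) (SqCl K)) + 1 ≤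
      finrank (ZMod 2) (UCl K) := by
  apply Nat.succ_le_of_lt
  apply Submodule.finrank_lt_finrank_of_lt
  refine lt_of_le_of_ne inf_le_left ?_
  intro heq
  have h1 : UCl K ≤ B σ ⊔ B τ := inf_eq_left.1 heq
  exact hv (sup_le_K1 h (h1 ⟨v, rfl⟩))

/-- codimension at least two -/
lemma pair_two (h : V4 σ τ ρ) {v w : (𝓞 K)ˣ} (hv : scU v ∉ K1 σ) (hv' : scU v ∈ K1 τ)
    (hw : scU w ∉ K1 τ) :
    finrank (ZMod 2) (UCl K ⊓ (B σ ⊔ B τ) : Submodule (ZMod 2) (SqCl K)) + 2 ≤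
      finrank (ZMod 2) (UCl K) := by
  have h1 : finrank (ZMod 2) (UCl K ⊓ K1 τ : Submodule (ZMod 2) (SqCl K)) <
      finrank (ZMod 2) (UCl K) := by
    apply Submodule.finrank_lt_finrank_of_lt
    refine lt_of_le_of_ne inf_le_left ?_
    intro heq
    have h1 : UCl K ≤ K1 τ := inf_eq_left.1 heq
    exact hw (h1 ⟨w, rfl⟩)
  have fd : FiniteDimensional (ZMod 2) (UCl K ⊓ K1 τ : Submodule (ZMod 2) (SqCl K)) :=
    Submodule.finiteDimensional_of_le inf_le_left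
  have h2 : finrank (ZMod 2) (UCl K ⊓ (B σ ⊔ B τ) : Submodule (ZMod 2) (SqCl K)) <
      finrank (ZMod 2) (UCl K ⊓ K1 τ : Submodule (ZMod 2) (SqCl K)) := by
    apply Submodule.finrank_lt_finrank_of_lt
    refine lt_of_le_of_ne (inf_le_inf_left _ ((sup_le_K1 h).trans inf_le_right)) ?_
    intro heq
    have h3 : scU v ∈ UCl K ⊓ K1 τ := ⟨⟨v, rfl⟩, hv'⟩
    rw [← heq] at h3
    exact hv ((sup_le_K1 h h3.2).1)
  omega

/-- The unit part has dimension at least two. -/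
lemma two_le (g : K ≃ₐ[ℚ] K) {u : (𝓞 (fx g))ˣ} (hn : sc (-1 : K) ≠ 0)
    (hK : scU (uMap g u) ∉ Submodule.span (ZMod 2) {sc (-1 : K)}) :
    2 ≤ finrank (ZMod 2) (UCl K ⊓ B g : Submodule (ZMod 2) (SqCl K)) := by
  have fd : FiniteDimensional (ZMod 2) (UCl K ⊓ B g : Submodule (ZMod 2) (SqCl K)) :=
    Submodule.finiteDimensional_of_le inf_le_left
  refine two_le_finrank _ (neg_one_mem g) (scU_uMap_mem g u) hn ?_ ?_
  · intro h0
    apply hK
    rw [h0]; exact Submodule.zero_mem _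
  · intro h0
    apply hK
    rw [← h0]; exact Submodule.mem_span_singleton_self _

lemma one_le_of_ne {S : Type*} [AddCommGroup S] [Module (ZMod 2) S] (P : Submodule (ZMod 2) S)
    [FiniteDimensional (ZMod 2) P] {u : S} (hu : u ∈ P) (hu0 : u ≠ 0) :
    1 ≤ finrank (ZMod 2) P := by
  by_contra h
  have h0 : finrank (ZMod 2) P = 0 := by omega
  rw [Submodule.finrank_eq_zero] at h0
  rw [h0] at hu
  exact hu0 ((Submodule.mem_bot _).1 hu)

lemma one_le (g : K ≃ₐ[ℚ] K) (hn : sc (-1 : K) ≠ 0) :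
    1 ≤ finrank (ZMod 2) (UCl K ⊓ B g : Submodule (ZMod 2) (SqCl K)) := by
  have fd : FiniteDimensional (ZMod 2) (UCl K ⊓ B g : Submodule (ZMod 2) (SqCl K)) :=
    Submodule.finiteDimensional_of_le inf_le_left
  exact one_le_of_ne _ (neg_one_mem g) hn

end Pool.Agent.Helper25.Biq
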